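import Pool.Agent.Work.MP_7de521_nt.Assembly

/-!
The concrete field: the splitting field in `ℂ` of `X ^ 6 - 5 X ^ 2 - 1`.
-/

open NumberField Polynomial

namespace Pool.Agent.Work.MP_7de521_nt

/-- The cubic `X ^ 3 - 5 X - 1`. -/
noncomputable def cubic : ℚ[X] := X ^ 3 - C 5 * X - C 1

/-- The sextic `X ^ 6 - 5 X ^ 2 - 1`. -/
noncomputable def sextic : ℚ[X] := X ^ 6 - C 5 * X ^ 2 - C 1

lemma cubic_natDegree : cubic.natDegree = 3 := by
  unfold cubic
  compute_degree!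

lemma cubic_monic : cubic.Monic := by
  unfold cubic
  monicity!

lemma sextic_monic : sextic.Monic := by
  unfold sextic
  monicity!

lemma cubic_irreducible : Irreducible cubic := by
  apply irreducible_of_degree_le_three_of_not_isRoot
  · rw [cubic_natDegree]; decide
  · intro x hx
    have hx' : x ^ 3 - 5 * x - 1 = 0 := by
      simpa [cubic, IsRoot.def] using hx
    have hint : IsIntegral ℤ x := by
      refine ⟨X ^ 3 - C 5 * X - C 1, by monicity!, ?_⟩
      simpa using hx'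
    obtain ⟨m, hm⟩ := IsIntegrallyClosed.isIntegral_iff.1 hint
    have hm' : (m : ℚ) = x := by simpa using hm
    rw [← hm'] at hx'
    have h1 : m ^ 3 - 5 * m - 1 = 0 := by exact_mod_cast hx'
    have h2 : m * (m ^ 2 - 5) = 1 := by linear_combination h1
    have h3 := Int.isUnit_iff.1 (IsUnit.of_mul_eq_one _ h2)
    rcases h3 with h3 | h3 <;> rw [h3] at h1 <;> norm_num at h1

/-- Existence of the three real roots of the cubic. -/
lemma exists_roots : ∃ θ : Fin 3 → ℝ, (∀ k, θ k ^ 3 - 5 * θ k - 1 = 0) ∧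
    0 < θ 0 ∧ (∀ k, k ≠ 0 → θ k < 0) ∧ Function.Injective θ := by
  have hcont : Continuous (fun x : ℝ => x ^ 3 - 5 * x - 1) := by fun_prop
  have h0 : ∃ x ∈ Set.Icc (2 : ℝ) 3, x ^ 3 - 5 * x - 1 = 0 := by
    apply intermediate_value_Icc (by norm_num) hcont.continuousOn
    constructor <;> norm_num
  have h1 : ∃ x ∈ Set.Icc (-1 : ℝ) 0, x ^ 3 - 5 * x - 1 = 0 := by
    apply intermediate_value_Icc' (by norm_num) hcont.continuousOn
    constructor <;> norm_num
  have h2 : ∃ x ∈ Set.Icc (-3 : ℝ) (-2), x ^ 3 - 5 * x - 1 = 0 := by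
    apply intermediate_value_Icc (by norm_num) hcont.continuousOn
    constructor <;> norm_num
  obtain ⟨a, ⟨ha1, ha2⟩, ha⟩ := h0
  obtain ⟨b, ⟨hb1, hb2⟩, hb⟩ := h1
  obtain ⟨c, ⟨hc1, hc2⟩, hc⟩ := h2
  have hb0 : b ≠ 0 := by
    rintro rfl
    norm_num at hb
  refine ⟨![a, b, c], ?_, ?_, ?_, ?_⟩
  · intro k
    fin_cases k
    · exact ha
    · exact hb
    · exact hc
  · change 0 < a
    linarith
  · intro k hk
    fin_cases k
    · exact absurd rfl hk
    · exact lt_of_le_of_ne hb2 hb0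
    · change c < 0
      linarith
  · have hab : b < a := by linarith
    have hbc : c < b := by linarith
    intro i j hij
    fin_cases i <;> fin_cases j <;> simp at hij ⊢ <;> linarith

/-- The three real roots. -/
noncomputable def θ : Fin 3 → ℝ := exists_roots.choose

lemma θ_root (k : Fin 3) : θ k ^ 3 - 5 * θ k - 1 = 0 := exists_roots.choose_spec.1 k
lemma θ_pos : 0 < θ 0 := exists_roots.choose_spec.2.1
lemma θ_neg (k : Fin 3) (hk : k ≠ 0) : θ k < 0 := exists_roots.choose_spec.2.2.1 k hk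
lemma θ_inj : Function.Injective θ := exists_roots.choose_spec.2.2.2

lemma θ_prod (t : ℝ) : (t - θ 0) * (t - θ 1) * (t - θ 2) = t ^ 3 - 5 * t - 1 := by
  have h0 := θ_root 0
  have h1 := θ_root 1
  have h2 := θ_root 2
  have n01 : θ 0 - θ 1 ≠ 0 := sub_ne_zero.2 (fun h => by simpa using θ_inj h)
  have n12 : θ 1 - θ 2 ≠ 0 := sub_ne_zero.2 (fun h => by simpa using θ_inj h)
  have n02 : θ 0 - θ 2 ≠ 0 := sub_ne_zero.2 (fun h => by simpa using θ_inj h)
  have e01 : θ 0 ^ 2 + θ 0 * θ 1 + θ 1 ^ 2 - 5 = 0 := by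
    apply mul_left_cancel₀ n01
    linear_combination h0 - h1
  have e02 : θ 0 ^ 2 + θ 0 * θ 2 + θ 2 ^ 2 - 5 = 0 := by
    apply mul_left_cancel₀ n02
    linear_combination h0 - h2
  have s1 : θ 0 + θ 1 + θ 2 = 0 := by
    apply mul_left_cancel₀ n12
    linear_combination e01 - e02
  have s2 : θ 0 * θ 1 + θ 0 * θ 2 + θ 1 * θ 2 = -5 := by
    linear_combination (θ 0 + θ 1) * s1 - e01
  have s3 : θ 0 * θ 1 * θ 2 = 1 := by
    linear_combination h0 - (θ 0 ^ 2) * s1 + θ 0 * s2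
  linear_combination (-t ^ 2) * s1 + t * s2 - s3

/-- The three complex square roots. -/
noncomputable def z (k : Fin 3) : ℂ :=
  if k = 0 then ((Real.sqrt (θ 0) : ℝ) : ℂ) else ((Real.sqrt (-θ k) : ℝ) : ℂ) * Complex.I

lemma z_sq (k : Fin 3) : z k ^ 2 = (θ k : ℂ) := by
  unfold z
  split_ifs with h
  · rw [h]
    exact_mod_cast congrArg (fun x : ℝ => (x : ℂ)) (Real.sq_sqrt θ_pos.le)
  · rw [mul_pow, Complex.I_sq]
    have := Real.sq_sqrt (neg_pos.2 (θ_neg k h)).le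
    have h2 : ((Real.sqrt (-θ k) : ℝ) : ℂ) ^ 2 = ((-θ k : ℝ) : ℂ) := by
      exact_mod_cast congrArg (fun x : ℝ => (x : ℂ)) this
    rw [h2]
    push_cast
    ring

lemma z_root (k : Fin 3) : z k ^ 6 - 5 * z k ^ 2 - 1 = 0 := by
  have h1 : z k ^ 6 = (z k ^ 2) ^ 3 := by ring
  rw [h1, z_sq]
  have := θ_root k
  exact_mod_cast congrArg (fun x : ℝ => (x : ℂ)) this

lemma sextic_factor (t : ℂ) : (t ^ 2 - z 0 ^ 2) * (t ^ 2 - z 1 ^ 2) * (t ^ 2 - z 2 ^ 2) =
    t ^ 6 - 5 * t ^ 2 - 1 := by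
  have h := θ_prod
  -- Vieta relations over `ℝ`
  have hp0 := h 0
  have hp1 := h 1
  have hpm := h (-1)
  have s3 : θ 0 * θ 1 * θ 2 = 1 := by linear_combination -hp0
  have s1 : θ 0 + θ 1 + θ 2 = 0 := by linear_combination (-1/2) * hp1 - (1/2) * hpm - s3
  have s2 : θ 0 * θ 1 + θ 0 * θ 2 + θ 1 * θ 2 = -5 := by
    linear_combination (1/2) * hp1 - (1/2) * hpm
  have c3 : (θ 0 : ℂ) * θ 1 * θ 2 = 1 := by exact_mod_cast congrArg (fun x : ℝ => (x : ℂ)) s3
  have c1 : (θ 0 : ℂ) + θ 1 + θ 2 = 0 := by exact_mod_cast congrArg (fun x : ℝ => (x : ℂ)) s1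
  have c2 : (θ 0 : ℂ) * θ 1 + θ 0 * θ 2 + θ 1 * θ 2 = -5 := by
    exact_mod_cast congrArg (fun x : ℝ => (x : ℂ)) s2
  rw [z_sq, z_sq, z_sq]
  linear_combination (-(t ^ 2) ^ 2) * c1 + t ^ 2 * c2 - c3

/-- The field `K`. -/
noncomputable def F : IntermediateField ℚ ℂ := IntermediateField.adjoin ℚ (sextic.rootSet ℂ)

instance F_splitting : sextic.IsSplittingField ℚ F :=
  IntermediateField.adjoin_rootSet_isSplittingField (IsAlgClosed.splits _)

instance : FiniteDimensional ℚ F := IsSplittingField.finiteDimensional F sextic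

instance : NumberField F where
  to_charZero := inferInstance
  to_finiteDimensional := inferInstance

instance : Normal ℚ F := Normal.of_isSplittingField sextic

instance : IsGalois ℚ F := ⟨⟩

lemma z_mem (k : Fin 3) : z k ∈ F := by
  apply IntermediateField.subset_adjoin
  rw [mem_rootSet]
  refine ⟨sextic_monic.ne_zero, ?_⟩
  have := z_root k
  simpa [sextic] using this

/-- The elements `y k` of `F`. -/
noncomputable def yy (k : Fin 3) : F := ⟨z k, z_mem k⟩

lemma yy_coe (k : Fin 3) : ((yy k : F) : ℂ) = z k := rfl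

lemma yy_factor (t : F) : (t ^ 2 - yy 0 ^ 2) * (t ^ 2 - yy 1 ^ 2) * (t ^ 2 - yy 2 ^ 2) =
    t ^ 6 - 5 * t ^ 2 - 1 := by
  apply Subtype.ext
  have := sextic_factor (t : ℂ)
  push_cast
  exact this

lemma yy_root (k : Fin 3) : yy k ^ 6 - 5 * yy k ^ 2 - 1 = 0 := by
  rw [← yy_factor]
  have hk : ∀ k : Fin 3, k = 0 ∨ k = 1 ∨ k = 2 := by decide
  rcases hk k with rfl | rfl | rfl <;> ring

lemma yy_int (k : Fin 3) : IsIntegral ℤ (yy k) := by
  refine ⟨X ^ 6 - C 5 * X ^ 2 - C 1, by monicity!, ?_⟩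
  have := yy_root k
  simpa using this

lemma yy_perm (g : F ≃ₐ[ℚ] F) (k : Fin 3) : ∃ j, g (yy k) = yy j ∨ g (yy k) = - yy j := by
  have h1 : g (yy k) ^ 6 - 5 * g (yy k) ^ 2 - 1 = 0 := by
    have h := congrArg g (yy_root k)
    rwa [map_sub, map_sub, map_mul, map_pow, map_pow, map_one, map_zero, map_ofNat] at h
  rw [← yy_factor] at h1
  rcases mul_eq_zero.1 h1 with h2 | h2
  · rcases mul_eq_zero.1 h2 with h3 | h3
    · exact ⟨0, sq_eq_sq_iff_eq_or_eq_neg.1 (sub_eq_zero.1 h3)⟩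
    · exact ⟨1, sq_eq_sq_iff_eq_or_eq_neg.1 (sub_eq_zero.1 h3)⟩
  · exact ⟨2, sq_eq_sq_iff_eq_or_eq_neg.1 (sub_eq_zero.1 h2)⟩

lemma yy_sq_inj (j k : Fin 3) (h : yy j ^ 2 = yy k ^ 2) : j = k := by
  have h1 : z j ^ 2 = z k ^ 2 := by
    have := congrArg (fun x : F => (x : ℂ)) h
    simpa [yy_coe] using this
  rw [z_sq, z_sq] at h1
  exact θ_inj (by exact_mod_cast h1)

lemma aeval_cubic (k : Fin 3) : aeval (yy k ^ 2) cubic = 0 := by
  have := yy_root k
  simp only [cubic, map_sub, map_mul, map_pow, aeval_X, aeval_C]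
  rw [← this]
  simp
  ring

lemma minpoly_eq (k : Fin 3) : minpoly ℚ (yy k ^ 2) = cubic :=
  (minpoly.eq_of_irreducible_of_monic cubic_irreducible (aeval_cubic k) cubic_monic).symm

lemma yy_trans (k : Fin 3) : ∃ g : F ≃ₐ[ℚ] F, g (yy k) = yy 0 ∨ g (yy k) = - yy 0 := by
  have h : IsConjRoot ℚ (yy 0 ^ 2) (yy k ^ 2) := by
    rw [isConjRoot_def, minpoly_eq, minpoly_eq]
  obtain ⟨g, hg⟩ := isConjRoot_iff_exists_algEquiv.1 h
  refine ⟨g, ?_⟩
  rw [map_pow] at hg
  exact sq_eq_sq_iff_eq_or_eq_neg.1 hg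

/-- Complex conjugation restricted to `F`. -/
noncomputable def conjF : F ≃ₐ[ℚ] F :=
  AlgEquiv.restrictNormal (Complex.conjAe.restrictScalars ℚ) F

lemma conjF_coe (x : F) : ((conjF x : F) : ℂ) = (starRingEnd ℂ) (x : ℂ) :=
  AlgEquiv.restrictNormal_commutes (Complex.conjAe.restrictScalars ℚ) F x

lemma conjF_zero : conjF (yy 0) = yy 0 := by
  apply Subtype.ext
  rw [conjF_coe, yy_coe, z, if_pos rfl, Complex.conj_ofReal]

lemma conjF_neg (k : Fin 3) (hk : k ≠ 0) : conjF (yy k) = - yy k := by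
  apply Subtype.ext
  rw [conjF_coe]
  push_cast
  rw [yy_coe, z, if_neg hk, map_mul, Complex.conj_ofReal, Complex.conj_I, mul_neg]

/-- The setup for the concrete field. -/
noncomputable def setupF : Setup F where
  φ := algebraMap F ℂ
  y := yy
  y_int := yy_int
  perm := yy_perm
  sq_inj := yy_sq_inj
  prod_eq := yy_factor
  trans := yy_trans
  c := conjF
  c0 := conjF_zero
  cneg := conjF_neg
  r := Real.sqrt (θ 0)
  r_eq := by
    change z 0 = _
    rw [z, if_pos rfl]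
  r_pos := Real.sqrt_pos.2 θ_pos
  r' := fun k => Real.sqrt (-θ k)
  r'_eq := fun k hk => by
    change z k = _
    rw [z, if_neg hk]

end Pool.Agent.Work.MP_7de521_nt
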