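import Mathlib

/-!
Krull dimension of a finitely generated algebra is at least the size of an algebraically
independent family.
-/

open Cardinal

namespace Pool.Agent.Work.MP_7de521_nt.Padic

/-- integral injective extensions do not decrease the dimension -/
theorem ringKrullDim_le_of_integral {R S : Type*} [CommRing R] [CommRing S] [Algebra R S]
    [Algebra.IsIntegral R S] (hinj : Function.Injective (algebraMap R S)) :
    ringKrullDim R ≤ ringKrullDim S := by
  have : FaithfulSMul R S := (faithfulSMul_iff_algebraMap_injective _ _).2 hinj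
  have : Algebra.HasGoingUp R S := Algebra.HasGoingUp.of_isIntegral
  rw [ringKrullDim, ringKrullDim]
  refine iSup_le fun l => ?_
  obtain ⟨⟨Q, hQp, hQl⟩⟩ := Ideal.nonempty_primesOver (S := S) (RelSeries.head l).asIdeal
  obtain ⟨L, hL, -, -⟩ := Ideal.exists_ltSeries_of_hasGoingUp l Q
  rw [← hL]
  exact Order.LTSeries.length_le_krullDim L

theorem natCast_le_ringKrullDim_of_domain {k A : Type} [Field k] [CommRing A] [IsDomain A]
    [Algebra k A] [Algebra.FiniteType k A] {ι : Type} [Fintype ι] (x : ι → A)
    (hx : AlgebraicIndependent k x) : (Fintype.card ι : WithBot ℕ∞) ≤ ringKrullDim A := by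
  obtain ⟨s, g, hg, hgi⟩ := exists_integral_inj_algHom_of_fg k A
  algebraize [g.toRingHom]
  have htower : IsScalarTower k (MvPolynomial (Fin s) k) A :=
    IsScalarTower.of_algebraMap_eq fun r => (g.commutes r).symm
  have hfaith : FaithfulSMul (MvPolynomial (Fin s) k) A :=
    (faithfulSMul_iff_algebraMap_injective _ _).2 hg
  have hint : Algebra.IsIntegral (MvPolynomial (Fin s) k) A := ⟨hgi⟩
  have hle : (Fintype.card ι : Cardinal.{0}) ≤ s := by
    have h1 := hx.cardinalMk_le_trdeg
    have h0 : Algebra.trdeg (MvPolynomial (Fin s) k) A = 0 := trdeg_eq_zero_iff.2 inferInstance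
    rw [← trdeg_add_eq k (MvPolynomial (Fin s) k), h0, add_zero,
      MvPolynomial.trdeg_of_isDomain] at h1
    simpa using h1
  have hle' : Fintype.card ι ≤ s := by exact_mod_cast hle
  have h2 := ringKrullDim_le_of_integral (R := MvPolynomial (Fin s) k) (S := A) hg
  rw [MvPolynomial.ringKrullDim_of_isNoetherianRing, ringKrullDim_eq_zero_of_field] at h2
  refine le_trans ?_ h2
  simp
  exact_mod_cast hle'

/-- The dimension of a finitely generated algebra over a field is at least the size of an
algebraically independent family. -/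
theorem card_le_ringKrullDim {k A : Type} [Field k] [CommRing A]
    [Algebra k A] [Algebra.FiniteType k A] (ι : Type) [Fintype ι] (x : ι → A)
    (hx : AlgebraicIndependent k x) : (Fintype.card ι : WithBot ℕ∞) ≤ ringKrullDim A := by
  -- a prime disjoint from the nonzero elements of `k[x]`
  let f : MvPolynomial ι k →ₐ[k] A := MvPolynomial.aeval x
  have hf : Function.Injective f := hx
  let M : Submonoid A := (nonZeroDivisors (MvPolynomial ι k)).map (f : MvPolynomial ι k →* A)
  have hM : Disjoint ((⊥ : Ideal A) : Set A) (M : Set A) := by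
    rw [Set.disjoint_left]
    rintro a ha ⟨b, hb, rfl⟩
    have h0 : f b = 0 := ha
    have : b = 0 := hf (by rw [h0, map_zero])
    rw [this] at hb
    exact zero_notMem_nonZeroDivisors hb
  obtain ⟨P, hP, -, hPM⟩ := Ideal.exists_le_prime_disjoint (⊥ : Ideal A) M hM
  have hx2 : AlgebraicIndependent k (fun i => Ideal.Quotient.mkₐ k P (x i)) := by
    rw [algebraicIndependent_iff_injective_aeval, injective_iff_map_eq_zero]
    intro b hb
    by_contra hb0
    have h1 : Ideal.Quotient.mkₐ k P (f b) = 0 := by
      rw [← hb]
      exact (MvPolynomial.comp_aeval_apply (f := x) (Ideal.Quotient.mkₐ k P) b)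
    have h2 : f b ∈ P := Ideal.Quotient.eq_zero_iff_mem.1 h1
    exact Set.disjoint_left.1 hPM h2 ⟨b, mem_nonZeroDivisors_of_ne_zero hb0, rfl⟩
  have h3 := natCast_le_ringKrullDim_of_domain (k := k) _ hx2
  exact h3.trans (ringKrullDim_quotient_le P)

end Pool.Agent.Work.MP_7de521_nt.Padic
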