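import Pool.Agent.Work.MP_7de521_nt.PadicRank

/-!
The inequality `rank (L ∩ B) ≤ dim B` for every subgroup `B` of `A(ℂ)`.
-/

open NumberField TensorProduct

namespace Pool.Agent.Work.MP_7de521_nt.Padic

/-! ### Combinatorics of matrices -/

/-- No nonzero integer combination of the columns in `T` vanishes on `S`. -/
def Ind (S : AddSubgroup (Matrix (Fin 4) (Fin 3) ℤ)) (T : Finset (Fin 3)) : Prop :=
  ∀ n : Fin 3 → ℤ, (∀ k, k ∉ T → n k = 0) → (∀ e ∈ S, ∀ s, ∑ k, e s k * n k = 0) → n = 0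

lemma ind_empty (S : AddSubgroup (Matrix (Fin 4) (Fin 3) ℤ)) : Ind S ∅ := by
  intro n hn _
  funext k
  exact hn k (Finset.notMem_empty k)

lemma exists_ind (S : AddSubgroup (Matrix (Fin 4) (Fin 3) ℤ)) :
    ∃ T : Finset (Fin 3), Ind S T ∧ ∀ k, k ∉ T → ¬ Ind S (insert k T) := by
  classical
  obtain ⟨T, hT, hmax⟩ := Finset.exists_max_image
    ((Finset.univ : Finset (Finset (Fin 3))).filter (fun T => Ind S T)) Finset.card
    ⟨∅, by simp [ind_empty]⟩
  rw [Finset.mem_filter] at hT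
  refine ⟨T, hT.2, fun k hk h => ?_⟩
  have := hmax (insert k T) (by simp [h])
  rw [Finset.card_insert_of_notMem hk] at this
  omega

lemma row_zero (S : AddSubgroup (Matrix (Fin 4) (Fin 3) ℤ)) (T : Finset (Fin 3))
    (hT : Ind S T) (hmax : ∀ k, k ∉ T → ¬ Ind S (insert k T))
    (e : Matrix (Fin 4) (Fin 3) ℤ) (he : e ∈ S) (s : Fin 4) (h : ∀ t ∈ T, e s t = 0)
    (k : Fin 3) : e s k = 0 := by
  by_cases hk : k ∈ T
  · exact h k hk
  · have h1 := hmax k hk
    unfold Ind at h1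
    push Not at h1
    obtain ⟨n, hn1, hn2, hn3⟩ := h1
    have hnk : n k ≠ 0 := by
      intro h0
      apply hn3
      apply hT n _ hn2
      intro j hj
      by_cases hjk : j = k
      · rw [hjk, h0]
      · exact hn1 j (by simp [hjk, hj])
    have h2 := hn2 e he s
    rw [Finset.sum_eq_single k] at h2
    · exact (mul_eq_zero.1 h2).resolve_right hnk
    · intro j _ hjk
      by_cases hj : j ∈ T
      · rw [h j hj, zero_mul]
      · rw [hn1 j (by simp [hjk, hj]), mul_zero]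
    · intro h; exact absurd (Finset.mem_univ _) h

/-- Restriction to the columns in `T` and the rows in `{0} ∪ (T + 1)`. -/
def restr (S : AddSubgroup (Matrix (Fin 4) (Fin 3) ℤ)) (T : Finset (Fin 3)) :
    S →+ (Option T × T → ℤ) where
  toFun e p := e.1 (p.1.elim 0 (fun a => (a : Fin 3).succ)) p.2
  map_zero' := rfl
  map_add' _ _ := rfl

lemma restr_injective (S : AddSubgroup (Matrix (Fin 4) (Fin 3) ℤ)) (hS : S ≤ Sym)
    (T : Finset (Fin 3)) (hT : Ind S T) (hmax : ∀ k, k ∉ T → ¬ Ind S (insert k T)) :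
    Function.Injective (restr S T) := by
  rw [injective_iff_map_eq_zero]
  intro e he
  have h1 : ∀ (a : Option T) (t : T), e.1 (a.elim 0 (fun a => (a : Fin 3).succ)) t = 0 :=
    fun a t => congrFun he (a, t)
  have hr := row_zero S T hT hmax e.1 e.2
  have h0 : ∀ k, e.1 0 k = 0 := hr 0 (fun t ht => h1 none ⟨t, ht⟩)
  have h2 : ∀ a ∈ T, ∀ k, e.1 (Fin.succ a) k = 0 := fun a ha =>
    hr (Fin.succ a) (fun t ht => h1 (some ⟨a, ha⟩) ⟨t, ht⟩)
  have h3 : ∀ a, ∀ k, e.1 (Fin.succ a) k = 0 := by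
    intro a
    apply hr
    intro t ht
    rw [hS e.2 a t]
    exact h2 t ht a
  apply Subtype.ext
  ext s k
  refine Fin.cases ?_ (fun a => ?_) s
  · exact h0 k
  · exact h3 a k

lemma finrank_le (S : AddSubgroup (Matrix (Fin 4) (Fin 3) ℤ)) (hS : S ≤ Sym)
    (T : Finset (Fin 3)) (hT : Ind S T) (hmax : ∀ k, k ∉ T → ¬ Ind S (insert k T)) :
    Module.finrank ℤ S ≤ 3 * T.card := by
  by_cases hc : T.card = 3
  · have h1 : Module.Finite ℤ Sym := Module.Finite.equiv symEquiv.symm.toIntLinearEquiv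
    have h2 := LinearMap.finrank_le_finrank_of_injective (R := ℤ)
      (f := (AddSubgroup.inclusion hS).toIntLinearMap)
      (by exact AddSubgroup.inclusion_injective hS)
    rw [finrank_sym] at h2
    omega
  · have h3 := LinearMap.finrank_le_finrank_of_injective (R := ℤ)
      (f := (restr S T).toIntLinearMap) (restr_injective S hS T hT hmax)
    have h4 : Module.finrank ℤ (Option T × T → ℤ) = (T.card + 1) * T.card := by
      rw [Module.finrank_fintype_fun_eq_card]
      simp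
    rw [h4] at h3
    have h5 : T.card ≤ 3 := by
      have := Finset.card_le_univ T
      simpa using this
    have h6 : T.card = 0 ∨ T.card = 1 ∨ T.card = 2 := by omega
    rcases h6 with h | h | h <;> rw [h] at h3 ⊢ <;> omega

/-! ### Polynomial functions -/

variable {K : Type} [Field K] [NumberField K] (D : Setup K) {m : Fin 4 → ℤ}

/-- The linear polynomial computing `φ (g z)` from the coordinates of `z`. -/
noncomputable def pz (g : K ≃ₐ[ℚ] K) : MvPolynomial (Idx K) ℂ :=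
  ∑ i, MvPolynomial.C (D.φ (g (Module.Free.chooseBasis ℚ K i))) * MvPolynomial.X i

lemma eval_pz (g : K ≃ₐ[ℚ] K) (z : Kˣ) :
    MvPolynomial.eval (coord ((incl ℂ K z : (ℂ ⊗[ℚ] K)ˣ) : ℂ ⊗[ℚ] K)) (pz D g) =
      D.φ (g z) := by
  have h1 : ∀ i, coord ((incl ℂ K z : (ℂ ⊗[ℚ] K)ˣ) : ℂ ⊗[ℚ] K) i =
      D.φ (algebraMap ℚ K ((Module.Free.chooseBasis ℚ K).repr z i)) := by
    intro i
    have h2 : ((incl ℂ K z : (ℂ ⊗[ℚ] K)ˣ) : ℂ ⊗[ℚ] K) = (1 : ℂ) ⊗ₜ[ℚ] (z : K) := rfl
    unfold coord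
    rw [h2, Algebra.TensorProduct.basis_repr_tmul, Finsupp.smul_apply, one_smul,
      Finsupp.mapRange_apply]
    rw [eq_ratCast, eq_ratCast, map_ratCast]
  unfold pz
  simp only [map_sum, map_mul, MvPolynomial.eval_C, MvPolynomial.eval_X, h1]
  have h3 : (z : K) = ∑ i, (Module.Free.chooseBasis ℚ K).repr z i •
      Module.Free.chooseBasis ℚ K i := ((Module.Free.chooseBasis ℚ K).sum_repr z).symm
  conv_rhs => rw [h3]
  rw [map_sum, map_sum]
  refine Finset.sum_congr rfl fun i _ => ?_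
  rw [Algebra.smul_def, map_mul, map_mul, AlgEquiv.commutes, mul_comm]

/-- Two automorphisms isolating the column `k` and moving it to the column `j`. -/
lemma exists_gg (hm : Good m) (j k : Fin 3) : ∃ (g g' : K ≃ₐ[ℚ] K) (c : ℤ), c ≠ 0 ∧
    ∀ s k', Setup.gal g (uu D m s k') * Setup.gal g' (uu D m s k') =
      if k' = k then uu D m s j ^ c else 1 := by
  obtain ⟨g1, hg1⟩ := D.trans k
  obtain ⟨⟨g2, hg2⟩, -⟩ := D.exists_conj j
  obtain ⟨τ, hτj, hτ⟩ := D.exists_tau j
  have hg : (g1.trans g2) (D.y k) = D.y j ∨ (g1.trans g2) (D.y k) = - D.y j := by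
    rcases hg1 with h | h
    · left
      rw [AlgEquiv.trans_apply, h, hg2]
    · right
      rw [AlgEquiv.trans_apply, h, map_neg, hg2]
  have hgal : ∀ x, Setup.gal ((g1.trans g2).trans τ) x = Setup.gal τ (Setup.gal (g1.trans g2) x) :=
    fun x => rfl
  have hother : ∀ s k', k' ≠ k → Setup.gal (g1.trans g2) (uu D m s k') *
      Setup.gal ((g1.trans g2).trans τ) (uu D m s k') = 1 := by
    intro s k' hk'
    obtain ⟨j', hj'⟩ := D.perm (g1.trans g2) k'
    have hne : j' ≠ j := by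
      rintro rfl
      apply hk'
      apply D.sq_inj
      apply (g1.trans g2).injective
      rw [map_pow, map_pow]
      rcases hj' with h | h <;> rcases hg with h' | h' <;> rw [h, h'] <;> ring
    rw [hgal]
    rcases hj' with h | h
    · rw [gal_uu_pos D hm _ s k' j' h, gal_uu_neg D hm τ s j' j' (hτ j' hne), mul_inv_cancel]
    · rw [gal_uu_neg D hm _ s k' j' h, map_inv, gal_uu_neg D hm τ s j' j' (hτ j' hne), inv_inv,
        inv_mul_cancel]
  rcases hg with hg | hg
  · refine ⟨g1.trans g2, (g1.trans g2).trans τ, 2, two_ne_zero, fun s k' => ?_⟩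
    split_ifs with hk'
    · rw [hk', hgal, gal_uu_pos D hm _ s k j hg, gal_uu_pos D hm τ s j j hτj, zpow_two]
    · exact hother s k' hk'
  · refine ⟨g1.trans g2, (g1.trans g2).trans τ, -2, by norm_num, fun s k' => ?_⟩
    split_ifs with hk'
    · rw [hk', hgal, gal_uu_neg D hm _ s k j hg, map_inv, gal_uu_pos D hm τ s j j hτj, zpow_neg,
        zpow_two, mul_inv]
    · exact hother s k' hk'

/-- For every `j, k` there are a polynomial `f` and `c ≠ 0` such that `f` takes the value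
`∏ uu s j ^ (c * e s k)` at `HH e`. -/
lemma exists_ff (hm : Good m) (j k : Fin 3) : ∃ (f : MvPolynomial (Idx K) ℂ) (c : ℤ), c ≠ 0 ∧
    ∀ e, MvPolynomial.eval (coord ((incl ℂ K (HH D m e) : (ℂ ⊗[ℚ] K)ˣ) : ℂ ⊗[ℚ] K)) f =
      D.φ ((∏ s, uu D m s j ^ (c * e s k) : Kˣ) : K) := by
  obtain ⟨g, g', c, hc, h⟩ := exists_gg D hm j k
  refine ⟨pz D g * pz D g', c, hc, fun e => ?_⟩
  rw [map_mul, eval_pz, eval_pz, ← map_mul, ← Setup.gal_val, ← Setup.gal_val, ← Units.val_mul]
  congr 2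
  simp only [HH, map_prod, map_zpow]
  rw [← Finset.prod_mul_distrib]
  refine Finset.prod_congr rfl fun s _ => ?_
  rw [← Finset.prod_mul_distrib, Finset.prod_eq_single k]
  · rw [← mul_zpow, h, if_pos rfl, zpow_mul]
  · intro k' _ hk'
    rw [← mul_zpow, h, if_neg hk', one_zpow]
  · intro h; exact absurd (Finset.mem_univ _) h

/-- The matrix `e * Nᵀ`, `N j k = n (j, k) * c j k` for `k ∈ T`. -/
def EE (c : Fin 3 → Fin 3 → ℤ) (T : Finset (Fin 3)) (n : Fin 3 × T →₀ ℕ)
    (e : Matrix (Fin 4) (Fin 3) ℤ) : Matrix (Fin 4) (Fin 3) ℤ :=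
  fun s j => ∑ k : T, (c j k * e s k) * (n (j, k) : ℤ)

lemma EE_add (c : Fin 3 → Fin 3 → ℤ) (T : Finset (Fin 3)) (n : Fin 3 × T →₀ ℕ)
    (e e' : Matrix (Fin 4) (Fin 3) ℤ) : EE c T n (e + e') = EE c T n e + EE c T n e' := by
  ext s j
  simp only [EE, Matrix.add_apply, mul_add, add_mul, Finset.sum_add_distrib]

lemma EE_zero (c : Fin 3 → Fin 3 → ℤ) (T : Finset (Fin 3)) (n : Fin 3 × T →₀ ℕ) :
    EE c T n 0 = 0 := by
  ext s j
  simp [EE]

lemma prod_eq_HH (c : Fin 3 → Fin 3 → ℤ) (T : Finset (Fin 3)) (n : Fin 3 × T →₀ ℕ)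
    (e : Matrix (Fin 4) (Fin 3) ℤ) :
    ∏ p : Fin 3 × T, (∏ s, uu D m s p.1 ^ (c p.1 p.2 * e s p.2)) ^ (n p) =
      HH D m (EE c T n e) := by
  have h1 : ∀ s j, uu D m s j ^ (EE c T n e s j) =
      ∏ k : T, (uu D m s j ^ (c j k * e s k)) ^ (n (j, k)) := by
    intro s j
    rw [EE, zpow_sum_aux]
    refine Finset.prod_congr rfl fun k _ => ?_
    rw [zpow_mul, zpow_natCast]
  rw [Fintype.prod_prod_type]
  simp only [HH, h1]
  simp only [← Finset.prod_pow]
  conv_rhs => rw [Finset.prod_comm]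
  refine Finset.prod_congr rfl fun j _ => ?_
  rw [Finset.prod_comm]

/-- Algebraic independence of `3 |T|` functions on `B`. -/
theorem exists_algInd (hm : Good m) (B : Subgroup (ℂ ⊗[ℚ] K)ˣ) (T : Finset (Fin 3))
    (hT : Ind (SS D m (LL D m ⊓ B.comap (incl ℂ K))) T) :
    ∃ f : Fin 3 × T → MvPolynomial (Idx K) ℂ ⧸ vanishingIdeal (B : Set (ℂ ⊗[ℚ] K)ˣ),
      AlgebraicIndependent ℂ f := by
  choose ff c hc hff using exists_ff D hm
  let S := SS D m (LL D m ⊓ B.comap (incl ℂ K))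
  let ψ : (Fin 3 × T →₀ ℕ) → (Multiplicative S →* ℂ) := fun n =>
    { toFun := fun e => D.φ (HH D m (EE c T n (Multiplicative.toAdd e : S)) : K)
      map_one' := by simp [EE_zero, HH_zero]
      map_mul' := fun a b => by
        simp only [toAdd_mul, AddSubgroup.coe_add, EE_add, HH_add, Units.val_mul, map_mul] }
  have hψ : Function.Injective ψ := by
    intro n n' h
    ext ⟨j, k⟩
    have h1 : ∀ e ∈ S, EE c T n e = EE c T n' e := by
      intro e he
      have h2 := DFunLike.congr_fun h (Multiplicative.ofAdd (⟨e, he⟩ : S))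
      have h3 : HH D m (EE c T n e) = HH D m (EE c T n' e) := Units.ext (D.φ.injective h2)
      rw [← sub_eq_zero]
      apply HH_injective D hm
      rw [sub_eq_add_neg, HH_add, HH_neg, h3, mul_inv_cancel]
    classical
    have h4 := hT (fun k => if hk : k ∈ T then c j k * ((n (j, ⟨k, hk⟩) : ℤ) -
      (n' (j, ⟨k, hk⟩) : ℤ)) else 0) (fun k hk => by simp [hk]) (by
        intro e he s
        have h5 := congrFun (congrFun (h1 e he) s) j
        simp only [EE] at h5
        rw [← sub_eq_zero, ← Finset.sum_sub_distrib] at h5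
        rw [← Finset.sum_subset (Finset.subset_univ T) (by
          intro k _ hk
          rw [dif_neg hk, mul_zero]), ← Finset.sum_attach]
        rw [← h5]
        refine Finset.sum_congr (by rfl) fun k _ => ?_
        rw [dif_pos k.2]
        ring)
    have h6 := congrFun h4 k
    rw [dif_pos k.2, Pi.zero_apply] at h6
    have h7 : (n (j, k) : ℤ) - n' (j, k) = 0 := (mul_eq_zero.1 h6).resolve_left (hc j k)
    omega
  have hli : LinearIndependent ℂ (fun n => ((ψ n : Multiplicative S →* ℂ) :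
      Multiplicative S → ℂ)) :=
    (linearIndependent_monoidHom (Multiplicative S) ℂ).comp ψ hψ
  refine ⟨fun p => Ideal.Quotient.mkₐ ℂ _ (ff p.1 p.2), ?_⟩
  rw [algebraicIndependent_iff]
  intro P hP
  have h1 : Ideal.Quotient.mkₐ ℂ (vanishingIdeal (B : Set (ℂ ⊗[ℚ] K)ˣ))
      (MvPolynomial.aeval (fun p : Fin 3 × T => ff p.1 p.2) P) = 0 := by
    rw [← hP, ← AlgHom.comp_apply, MvPolynomial.comp_aeval]
  rw [Ideal.Quotient.mkₐ_eq_mk, Ideal.Quotient.eq_zero_iff_mem] at h1
  rw [linearIndependent_iff'] at hli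
  have h2 := hli P.support (fun n => P.coeff n) (by
    funext e
    have he := (Multiplicative.toAdd e : S).2
    have h3 := h1 (incl ℂ K (HH D m (Multiplicative.toAdd e : S))) he.2.2
    rw [MvPolynomial.aeval_def, MvPolynomial.eval₂_eq'] at h3
    simp only [map_sum, map_mul, map_prod, map_pow, hff, MvPolynomial.algebraMap_eq,
      MvPolynomial.eval_C] at h3
    rw [Finset.sum_apply, Pi.zero_apply, ← h3]
    refine Finset.sum_congr rfl fun n _ => ?_
    rw [Pi.smul_apply, smul_eq_mul]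
    congr 1
    change D.φ (HH D m (EE c T n (Multiplicative.toAdd e : S)) : K) = _
    rw [← prod_eq_HH, Units.coe_prod, map_prod]
    refine Finset.prod_congr rfl fun p _ => ?_
    rw [Units.val_pow_eq_pow_val, map_pow])
  by_contra hP0
  obtain ⟨n, hn⟩ := MvPolynomial.support_nonempty.2 hP0
  exact (MvPolynomial.mem_support_iff.1 hn) (h2 n hn)

/-- The inequality `rank (L ∩ B) ≤ dim B`, given the bound of the number of algebraically
independent elements by the dimension. -/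
theorem rank_le_dim_of (hm : Good m) (B : Subgroup (ℂ ⊗[ℚ] K)ˣ)
    (hdim : ∀ (ι : Type) [Fintype ι]
      (f : ι → MvPolynomial (Idx K) ℂ ⧸ vanishingIdeal (B : Set (ℂ ⊗[ℚ] K)ˣ)),
      AlgebraicIndependent ℂ f → ((Fintype.card ι : ℕ) : WithBot ℕ∞) ≤
        ringKrullDim (MvPolynomial (Idx K) ℂ ⧸ vanishingIdeal (B : Set (ℂ ⊗[ℚ] K)ˣ))) :
    ((rank ↥(LL D m ⊓ B.comap (incl ℂ K)) : ℕ) : WithBot ℕ∞) ≤
      dim (B : Set (ℂ ⊗[ℚ] K)ˣ) := by
  obtain ⟨T, hT, hmax⟩ := exists_ind (SS D m (LL D m ⊓ B.comap (incl ℂ K)))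
  obtain ⟨f, hf⟩ := exists_algInd D hm B T hT
  have h1 := finrank_le (SS D m (LL D m ⊓ B.comap (incl ℂ K))) (fun e he => he.1) T hT hmax
  rw [← rank_eq D hm _ inf_le_left] at h1
  have h2 := hdim (Fin 3 × T) f hf
  refine le_trans ?_ h2
  have h3 : Fintype.card (Fin 3 × T) = 3 * T.card := by simp
  rw [h3]
  exact_mod_cast h1

end Pool.Agent.Work.MP_7de521_nt.Padic
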