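import Mathlib

/-!
Algebraic part: a number field `K`, Galois over `ℚ`, with three elements `y 0, y 1, y 2`
(square roots of the roots of `x ^ 3 - 5 x - 1`), signed-permuted by the Galois group.
-/

open NumberField IsDedekindDomain

namespace Pool.Agent.Work.MP_7de521_nt

lemma zpow_sum_aux {G ι : Type*} [CommGroup G] (x : G) (t : Finset ι) (f : ι → ℤ) :
    x ^ (∑ i ∈ t, f i) = ∏ i ∈ t, x ^ f i := by
  classical
  induction t using Finset.induction_on with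
  | empty => simp
  | insert i t hi ih => rw [Finset.sum_insert hi, Finset.prod_insert hi, zpow_add, ih]

/-- The arithmetic data extracted from the concrete field. -/
structure Setup (K : Type) [Field K] [NumberField K] where
  /-- a complex embedding -/
  φ : K →+* ℂ
  /-- three elements -/
  y : Fin 3 → K
  y_int : ∀ k, IsIntegral ℤ (y k)
  perm : ∀ (g : K ≃ₐ[ℚ] K) (k : Fin 3), ∃ j, g (y k) = y j ∨ g (y k) = - y j
  sq_inj : ∀ j k, (y j) ^ 2 = (y k) ^ 2 → j = k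
  prod_eq : ∀ t : K, (t ^ 2 - y 0 ^ 2) * (t ^ 2 - y 1 ^ 2) * (t ^ 2 - y 2 ^ 2)
    = t ^ 6 - 5 * t ^ 2 - 1
  trans : ∀ k, ∃ g : K ≃ₐ[ℚ] K, g (y k) = y 0 ∨ g (y k) = - y 0
  /-- complex conjugation -/
  c : K ≃ₐ[ℚ] K
  c0 : c (y 0) = y 0
  cneg : ∀ k, k ≠ 0 → c (y k) = - y k
  /-- the real number `φ (y 0)` -/
  r : ℝ
  r_eq : φ (y 0) = (r : ℂ)
  r_pos : 0 < r
  /-- the imaginary parts of `φ (y k)` -/
  r' : Fin 3 → ℝ
  r'_eq : ∀ k, k ≠ 0 → φ (y k) = (r' k : ℂ) * Complex.I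

namespace Setup

variable {K : Type} [Field K] [NumberField K] (D : Setup K)

/-- The integer `s + 1`. -/
def a (s : Fin 3) : K := ((s : ℕ) : K) + 1

lemma a_ne (s : Fin 3) : (a s : K) ≠ 0 := by
  unfold a
  have h := Nat.cast_ne_zero (R := K).2 (Nat.succ_ne_zero (s : ℕ))
  rwa [Nat.cast_succ] at h

lemma prod_ne (s : Fin 3) : ((a s : K) ^ 6 - 5 * (a s) ^ 2 - 1) ≠ 0 := by
  unfold a
  fin_cases s
  · norm_num
  · norm_num
  · norm_num

lemma sq_ne (s k : Fin 3) : (a s : K) ^ 2 ≠ (D.y k) ^ 2 := by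
  intro h
  apply prod_ne (K := K) s
  rw [← D.prod_eq (a s), h]
  have hk : ∀ k : Fin 3, k = 0 ∨ k = 1 ∨ k = 2 := by decide
  rcases hk k with rfl | rfl | rfl <;> ring

lemma add_ne (s k : Fin 3) : (a s : K) + D.y k ≠ 0 := by
  intro h
  apply D.sq_ne s k
  linear_combination ((a s : K) - D.y k) * h

lemma sub_ne (s k : Fin 3) : (a s : K) - D.y k ≠ 0 := by
  intro h
  apply D.sq_ne s k
  linear_combination ((a s : K) + D.y k) * h

/-- The unit `(s + y) / (s - y)` of `K`. -/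
noncomputable def u (s k : Fin 3) : Kˣ :=
  Units.mk0 (((a s : K) + D.y k) / ((a s : K) - D.y k))
    (div_ne_zero (D.add_ne s k) (D.sub_ne s k))

lemma u_val (s k : Fin 3) : (D.u s k : K) = ((a s : K) + D.y k) / ((a s : K) - D.y k) := rfl

/-- `H e = ∏ u s k ^ e s k`. -/
noncomputable def H (e : Matrix (Fin 3) (Fin 3) ℤ) : Kˣ := ∏ s, ∏ k, D.u s k ^ e s k

lemma H_zero : D.H 0 = 1 := by simp [H]

lemma H_add (e e' : Matrix (Fin 3) (Fin 3) ℤ) : D.H (e + e') = D.H e * D.H e' := by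
  simp only [H, Matrix.add_apply, zpow_add, Finset.prod_mul_distrib]

/-- Galois action on units. -/
noncomputable def gal (g : K ≃ₐ[ℚ] K) : Kˣ →* Kˣ := Units.map (g : K →* K)

lemma gal_val (g : K ≃ₐ[ℚ] K) (x : Kˣ) : (gal g x : K) = g x := rfl

lemma gal_a (g : K ≃ₐ[ℚ] K) (s : Fin 3) : g (a s) = a s := by
  unfold a
  simp

lemma gal_u_pos (g : K ≃ₐ[ℚ] K) (s k j : Fin 3) (h : g (D.y k) = D.y j) :
    gal g (D.u s k) = D.u s j := by
  ext
  rw [gal_val, u_val, u_val, map_div₀, map_add, map_sub, gal_a, h]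

lemma gal_u_neg (g : K ≃ₐ[ℚ] K) (s k j : Fin 3) (h : g (D.y k) = - D.y j) :
    gal g (D.u s k) = (D.u s j)⁻¹ := by
  ext
  rw [gal_val, u_val, Units.val_inv_eq_inv_val, u_val, map_div₀, map_add, map_sub, gal_a, h,
    inv_div, sub_neg_eq_add, ← sub_eq_add_neg]

/-- The matrix through which `g` acts. -/
lemma exists_matrix (g : K ≃ₐ[ℚ] K) :
    ∃ P : Matrix (Fin 3) (Fin 3) ℤ, ∀ e, gal g (D.H e) = D.H (e * P) := by
  classical
  have hex : ∀ k, ∃ (j : Fin 3) (ε : ℤ), ∀ s, gal g (D.u s k) = D.u s j ^ ε := by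
    intro k
    obtain ⟨j, h | h⟩ := D.perm g k
    · exact ⟨j, 1, fun s => by rw [D.gal_u_pos g s k j h, zpow_one]⟩
    · exact ⟨j, -1, fun s => by rw [D.gal_u_neg g s k j h, zpow_neg_one]⟩
  choose j ε hj using hex
  refine ⟨Matrix.of fun k i => if i = j k then ε k else 0, fun e => ?_⟩
  simp only [H, map_prod, map_zpow, hj]
  refine Finset.prod_congr rfl fun s _ => ?_
  have : ∀ i, D.u s i ^ ((e * (Matrix.of fun k i => if i = j k then ε k else 0 :
      Matrix (Fin 3) (Fin 3) ℤ)) s i) = ∏ k, D.u s i ^ (if i = j k then e s k * ε k else 0) := by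
    intro i
    rw [Matrix.mul_apply, zpow_sum_aux]
    refine Finset.prod_congr rfl fun k _ => ?_
    congr 1
    rw [Matrix.of_apply]
    split_ifs <;> simp
  simp only [this]
  rw [Finset.prod_comm]
  refine Finset.prod_congr rfl fun k _ => ?_
  rw [Finset.prod_eq_single (j k)]
  · rw [if_pos rfl, ← zpow_mul, mul_comm]
  · intro i _ hi
    rw [if_neg hi, zpow_zero]
  · intro h; exact absurd (Finset.mem_univ _) h

/-- The chosen matrix. -/
noncomputable def P (g : K ≃ₐ[ℚ] K) : Matrix (Fin 3) (Fin 3) ℤ := (D.exists_matrix g).choose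

lemma gal_H (g : K ≃ₐ[ℚ] K) (e : Matrix (Fin 3) (Fin 3) ℤ) :
    gal g (D.H e) = D.H (e * D.P g) := (D.exists_matrix g).choose_spec e

/-- The Galois element fixing `y k` and negating the others. -/
lemma exists_tau (k : Fin 3) : ∃ τ : K ≃ₐ[ℚ] K, τ (D.y k) = D.y k ∧
    ∀ j, j ≠ k → τ (D.y j) = - D.y j := by
  obtain ⟨g, hg⟩ := D.trans k
  refine ⟨(g.trans D.c).trans g.symm, ?_, ?_⟩
  · rw [AlgEquiv.trans_apply, AlgEquiv.trans_apply]
    rcases hg with hg | hg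
    · rw [hg, D.c0, ← hg, AlgEquiv.symm_apply_apply]
    · rw [hg, map_neg, D.c0, ← hg, AlgEquiv.symm_apply_apply]
  · intro j hj
    rw [AlgEquiv.trans_apply, AlgEquiv.trans_apply]
    obtain ⟨i, hi⟩ := D.perm g j
    have hi0 : i ≠ 0 := by
      rintro rfl
      apply hj
      apply D.sq_inj
      apply g.injective
      rw [map_pow, map_pow]
      rcases hg with hg | hg <;> rcases hi with hi | hi <;> rw [hg, hi] <;> ring
    rcases hi with hi | hi
    · rw [hi, D.cneg i hi0, ← hi, map_neg, AlgEquiv.symm_apply_apply]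
    · rw [hi, map_neg, D.cneg i hi0, ← hi, map_neg, AlgEquiv.symm_apply_apply]

/-- Every `± y k` is a conjugate of `y 0`. -/
lemma exists_conj (k : Fin 3) : (∃ g : K ≃ₐ[ℚ] K, g (D.y 0) = D.y k) ∧
    (∃ g : K ≃ₐ[ℚ] K, g (D.y 0) = - D.y k) := by
  obtain ⟨g, hg⟩ := D.trans k
  obtain ⟨j, hj⟩ : ∃ j : Fin 3, j ≠ 0 := ⟨1, by decide⟩
  obtain ⟨τ, -, hτ⟩ := D.exists_tau j
  have hτ0 : τ (D.y 0) = - D.y 0 := hτ 0 hj.symm
  rcases hg with hg | hg
  · refine ⟨⟨g.symm, by rw [← hg, AlgEquiv.symm_apply_apply]⟩, ⟨τ.trans g.symm, ?_⟩⟩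
    rw [AlgEquiv.trans_apply, hτ0, map_neg, ← hg, AlgEquiv.symm_apply_apply]
  · have hg' : D.y 0 = - g (D.y k) := by rw [hg, neg_neg]
    refine ⟨⟨τ.trans g.symm, ?_⟩, ⟨g.symm, ?_⟩⟩
    · rw [AlgEquiv.trans_apply, hτ0, ← hg, AlgEquiv.symm_apply_apply]
    · rw [hg', map_neg, AlgEquiv.symm_apply_apply]

end Setup

end Pool.Agent.Work.MP_7de521_nt
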