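import Pool.Agent.Work.MP_7de521_nt.RealPart

/-!
Assembly: the closure of `L` in `(K ⊗ ℝ)ˣ`.
-/

open NumberField Filter Topology

namespace Pool.Agent.Work.MP_7de521_nt

/-- The diagonal map `Kˣ → (K ⊗ ℝ)ˣ`. -/
noncomputable def iota (K : Type) [Field K] : Kˣ →* (mixedEmbedding.mixedSpace K)ˣ :=
  Units.map (mixedEmbedding K : K →* mixedEmbedding.mixedSpace K)

lemma iota_val (K : Type) [Field K] (x : Kˣ) :
    ((iota K x : (mixedEmbedding.mixedSpace K)ˣ) : mixedEmbedding.mixedSpace K) =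
      mixedEmbedding K x := rfl

namespace Setup

variable {K : Type} [Field K] [NumberField K] (D : Setup K)

/-- `n ↦ H (J n)`. -/
noncomputable def HJ : Multiplicative (Fin 3 → ℤ) →* Kˣ where
  toFun n := D.H (J (Multiplicative.toAdd n))
  map_one' := by simp [J_zero, H_zero]
  map_mul' n m := by simp only [toAdd_mul, J_add, H_add]

/-- The group `L`. -/
noncomputable def L : Subgroup Kˣ := D.HJ.range

lemma L_fg : D.L.FG := by
  have h : Group.FG (Multiplicative (Fin 3 → ℤ)) := inferInstance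
  rw [← Group.fg_iff_subgroup_fg]
  exact Group.fg_range D.HJ

/-- The continuous homomorphism `x ↦ log |x|_v` on `(K ⊗ ℝ)ˣ`. -/
noncomputable def logAt (v : InfinitePlace K) (x : (mixedEmbedding.mixedSpace K)ˣ) : ℝ :=
  Real.log (mixedEmbedding.normAtPlace v x)

omit [NumberField K] in
lemma normAtPlace_ne' (v : InfinitePlace K) (x : (mixedEmbedding.mixedSpace K)ˣ) :
    mixedEmbedding.normAtPlace v (x : mixedEmbedding.mixedSpace K) ≠ 0 := by
  intro h
  have h1 : mixedEmbedding.normAtPlace v ((x * x⁻¹ : (mixedEmbedding.mixedSpace K)ˣ) :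
      mixedEmbedding.mixedSpace K) = 1 := by simp
  rw [Units.val_mul, map_mul, h, zero_mul] at h1
  exact zero_ne_one h1

lemma logAt_mul (v : InfinitePlace K) (x y : (mixedEmbedding.mixedSpace K)ˣ) :
    logAt v (x * y) = logAt v x + logAt v y := by
  unfold logAt
  rw [Units.val_mul, map_mul, Real.log_mul (normAtPlace_ne' v x) (normAtPlace_ne' v y)]

lemma logAt_one (v : InfinitePlace K) : logAt v 1 = 0 := by
  simp [logAt]

lemma logAt_pow (v : InfinitePlace K) (x : (mixedEmbedding.mixedSpace K)ˣ) (n : ℕ) :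
    logAt v (x ^ n) = n * logAt v x := by
  unfold logAt
  rw [Units.val_pow_eq_pow_val, map_pow, Real.log_pow]

lemma continuous_logAt (v : InfinitePlace K) : Continuous (logAt v) := by
  unfold logAt
  refine Continuous.log ?_ (fun x => normAtPlace_ne' v x)
  exact (mixedEmbedding.continuous_normAtPlace v).comp Units.continuous_val

lemma logAt_iota (v : InfinitePlace K) (x : Kˣ) : logAt v (iota K x) = Real.log (v x) := by
  unfold logAt
  rw [iota_val, mixedEmbedding.normAtPlace_apply]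

/-- The chosen Galois elements and signs. -/
noncomputable def gk (k : Fin 3) : K ≃ₐ[ℚ] K := (D.exists_log_eq k).choose

/-- The chosen signs. -/
noncomputable def εk (k : Fin 3) : ℝ := (D.exists_log_eq k).choose_spec.choose

lemma εk_sq (k : Fin 3) : D.εk k * D.εk k = 1 := (D.exists_log_eq k).choose_spec.choose_spec.1

lemma log_gk (k : Fin 3) (e : Matrix (Fin 3) (Fin 3) ℤ) :
    Real.log ‖D.φ (D.gk k (D.H e : K))‖ = D.εk k * D.W e k :=
  (D.exists_log_eq k).choose_spec.choose_spec.2 e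

/-- The place attached to `φ ∘ gk`. -/
noncomputable def pl (k : Fin 3) : InfinitePlace K :=
  InfinitePlace.mk (D.φ.comp (D.gk k : K →+* K))

lemma pl_apply (k : Fin 3) (x : K) : D.pl k x = ‖D.φ (D.gk k x)‖ := rfl

/-- The continuous quadratic functional. -/
noncomputable def Θ (x : (mixedEmbedding.mixedSpace K)ˣ) : ℝ :=
  ∑ k, D.w k * (D.εk k * logAt (D.pl k) x)

lemma continuous_Θ : Continuous D.Θ := by
  unfold Θ
  refine continuous_finsetSum _ fun k _ => ?_
  exact continuous_const.mul (continuous_const.mul (continuous_logAt _))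

lemma Θ_iota (e : Matrix (Fin 3) (Fin 3) ℤ) : D.Θ (iota K (D.H e)) = D.Q e := by
  unfold Θ Q
  refine Finset.sum_congr rfl fun k _ => ?_
  rw [logAt_iota, pl_apply, log_gk, ← mul_assoc (D.εk k), εk_sq, one_mul]

lemma Θ_pow (x : (mixedEmbedding.mixedSpace K)ˣ) (n : ℕ) : D.Θ (x ^ n) = n * D.Θ x := by
  unfold Θ
  rw [Finset.mul_sum]
  refine Finset.sum_congr rfl fun k _ => ?_
  rw [logAt_pow]
  ring

variable [IsGalois ℚ K]

/-- Bound for all places. -/
lemma exists_bound : ∃ C : ℝ, 0 ≤ C ∧ ∀ (e : Matrix (Fin 3) (Fin 3) ℤ) (M : ℝ),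
    (∀ k, |D.W e k| ≤ M) → ∀ v : InfinitePlace K, |Real.log (v (D.H e : K))| ≤ C * M := by
  classical
  refine ⟨∑ g : K ≃ₐ[ℚ] K, ∑ k, |(D.P g k 0 : ℝ)|, by positivity, ?_⟩
  intro e M hM v
  have hM0 : 0 ≤ M := (abs_nonneg _).trans (hM 0)
  obtain ⟨σ, hσ⟩ := ComplexEmbedding.exists_comp_symm_eq_of_comp_eq (k := ℚ) D.φ v.embedding
    (Subsingleton.elim _ _)
  have h1 : v (D.H e : K) = ‖D.φ (σ.symm (D.H e : K))‖ := by
    rw [← InfinitePlace.norm_embedding_eq, ← hσ]
    rfl
  rw [h1, log_gal_H]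
  calc |∑ k, D.W e k * (D.P σ.symm k 0 : ℝ)| ≤ ∑ k, |D.W e k * (D.P σ.symm k 0 : ℝ)| :=
        Finset.abs_sum_le_sum_abs _ _
    _ ≤ ∑ k, |(D.P σ.symm k 0 : ℝ)| * M := by
        refine Finset.sum_le_sum fun k _ => ?_
        rw [abs_mul, mul_comm]
        exact mul_le_mul_of_nonneg_left (hM k) (abs_nonneg _)
    _ = (∑ k, |(D.P σ.symm k 0 : ℝ)|) * M := by rw [Finset.sum_mul]
    _ ≤ _ := by
        refine mul_le_mul_of_nonneg_right ?_ hM0
        exact Finset.single_le_sum (f := fun g : K ≃ₐ[ℚ] K => ∑ k, |(D.P g k 0 : ℝ)|)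
          (fun g _ => Finset.sum_nonneg fun k _ => abs_nonneg _) (Finset.mem_univ _)

open scoped Classical in
omit [IsGalois ℚ K] in
lemma norm_le_of_log (x : Kˣ) (B : ℝ) (h : ∀ v : InfinitePlace K, |Real.log (v (x : K))| ≤ B) :
    ‖((iota K x : (mixedEmbedding.mixedSpace K)ˣ) : mixedEmbedding.mixedSpace K)‖ ≤ Real.exp B ∧
    ‖(((iota K x)⁻¹ : (mixedEmbedding.mixedSpace K)ˣ) : mixedEmbedding.mixedSpace K)‖
      ≤ Real.exp B := by
  constructor
  · rw [mixedEmbedding.norm_eq_sup'_normAtPlace]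
    refine Finset.sup'_le _ _ fun v _ => ?_
    rw [iota_val, mixedEmbedding.normAtPlace_apply]
    have hpos : 0 < v (x : K) := InfinitePlace.pos_iff.2 x.ne_zero
    rw [← Real.exp_log hpos]
    exact Real.exp_le_exp.2 ((le_abs_self _).trans (h v))
  · rw [mixedEmbedding.norm_eq_sup'_normAtPlace]
    refine Finset.sup'_le _ _ fun v _ => ?_
    rw [← map_inv, iota_val, mixedEmbedding.normAtPlace_apply, Units.val_inv_eq_inv_val,
      map_inv₀]
    have hpos : 0 < v (x : K) := InfinitePlace.pos_iff.2 x.ne_zero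
    rw [← Real.exp_log hpos, ← Real.exp_neg]
    exact Real.exp_le_exp.2 ((neg_le_abs _).trans (h v))

/-- The closure of `L` in `(K ⊗ ℝ)ˣ`. -/
noncomputable def Lbar : Subgroup (mixedEmbedding.mixedSpace K)ˣ :=
  (D.L.map (iota K)).topologicalClosure

omit [IsGalois ℚ K] in
lemma iota_H_mem (n : Fin 3 → ℤ) : iota K (D.H (J n)) ∈ D.Lbar := by
  apply Subgroup.le_topologicalClosure
  exact ⟨D.H (J n), ⟨Multiplicative.ofAdd n, rfl⟩, rfl⟩

omit [IsGalois ℚ K] in
lemma Θ_Lbar (x : (mixedEmbedding.mixedSpace K)ˣ) (hx : x ∈ D.Lbar) : D.Θ x = 0 := by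
  have hcl : IsClosed {x | D.Θ x = 0} := isClosed_eq D.continuous_Θ continuous_const
  have hsub : ((D.L.map (iota K) : Subgroup (mixedEmbedding.mixedSpace K)ˣ) :
      Set (mixedEmbedding.mixedSpace K)ˣ) ⊆ {x | D.Θ x = 0} := by
    rintro _ ⟨_, ⟨n, rfl⟩, rfl⟩
    change D.Θ (iota K (D.H (J _))) = 0
    rw [Θ_iota, Q_J]
  exact closure_minimal hsub hcl hx

/-- The identity component of the closure, as a subgroup of the ambient group. -/
noncomputable def comp (D : Setup K) : Subgroup (mixedEmbedding.mixedSpace K)ˣ :=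
  (Subgroup.connectedComponentOfOne ↥D.Lbar).map D.Lbar.subtype

omit [IsGalois ℚ K] in
lemma mem_comp_of (x : (mixedEmbedding.mixedSpace K)ˣ)
    (hx : x ∈ connectedComponentIn (D.Lbar : Set (mixedEmbedding.mixedSpace K)ˣ) 1) :
    x ∈ D.comp := by
  rw [connectedComponentIn_eq_image (show (1 : (mixedEmbedding.mixedSpace K)ˣ) ∈
    (D.Lbar : Set (mixedEmbedding.mixedSpace K)ˣ) from D.Lbar.one_mem)] at hx
  obtain ⟨y, hy, rfl⟩ := hx
  exact ⟨y, hy, rfl⟩

/-- The integer vectors `n` with `H (J n)` in the identity component. -/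
noncomputable def S : AddSubgroup (Fin 3 → ℤ) where
  carrier := {n | iota K (D.H (J n)) ∈ D.comp}
  add_mem' := fun {a b} ha hb => by
    change iota K (D.H (J (a + b))) ∈ D.comp
    rw [J_add, H_add, map_mul]
    exact D.comp.mul_mem ha hb
  zero_mem' := by
    change iota K (D.H (J 0)) ∈ D.comp
    rw [J_zero, H_zero, map_one]
    exact D.comp.one_mem
  neg_mem' := fun {a} ha => by
    change iota K (D.H (J (-a))) ∈ D.comp
    rw [J_neg, H_neg, map_inv]
    exact D.comp.inv_mem ha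

/-- `S` is not contained in a line. -/
theorem S_large (v : Fin 3 → ℤ) (hv : ∀ n ∈ D.S, (J n).mulVec v = 0) : v = 0 := by
  classical
  obtain ⟨C, hC, hbound⟩ := D.exists_bound
  set x : ℕ → (mixedEmbedding.mixedSpace K)ˣ := fun t => iota K (D.H (J (D.nt t))) with hx
  have hxR : ∀ t, ‖(x t : mixedEmbedding.mixedSpace K)‖ ≤ Real.exp (C * ∑ s, |D.w s|) ∧
      ‖(((x t)⁻¹ : (mixedEmbedding.mixedSpace K)ˣ) : mixedEmbedding.mixedSpace K)‖ ≤
        Real.exp (C * ∑ s, |D.w s|) := fun t =>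
    norm_le_of_log _ _ (fun v => hbound _ _ (fun k => D.W_nt t k) v)
  obtain ⟨φ, hφ, k₀, hk₀⟩ := exists_subseq D.Lbar
    (Subgroup.isClosed_topologicalClosure _) _ x (fun t => D.iota_H_mem _) hxR
  have hmem : ∀ k ≥ k₀, D.nt (φ k) - D.nt (φ k₀) ∈ D.S := by
    intro k hk
    change iota K (D.H (J (D.nt (φ k) - D.nt (φ k₀)))) ∈ D.comp
    rw [sub_eq_add_neg, J_add, H_add, J_neg, H_neg, map_mul, map_inv]
    exact D.mem_comp_of _ (hk₀ k hk k₀ le_rfl)
  -- components
  have hcross : ∀ k ≥ k₀, ∀ i j : Fin 3,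
      ((D.nt (φ k) i - D.nt (φ k₀) i : ℤ) : ℝ) * v j =
      ((D.nt (φ k) j - D.nt (φ k₀) j : ℤ) : ℝ) * v i := by
    intro k hk
    have h := hv _ (hmem k hk)
    set d := D.nt (φ k) - D.nt (φ k₀) with hd
    have h0 := congrFun h 0
    have h1 := congrFun h 1
    have h2 := congrFun h 2
    simp [J, Matrix.mulVec, dotProduct, Fin.sum_univ_three] at h0 h1 h2
    have hd' : ∀ i, D.nt (φ k) i - D.nt (φ k₀) i = d i := fun i => by rw [hd, Pi.sub_apply]
    have e12 : d 1 * v 2 = d 2 * v 1 := by linarith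
    have e20 : d 2 * v 0 = d 0 * v 2 := by linarith
    have e01 : d 0 * v 1 = d 1 * v 0 := by linarith
    intro i j
    rw [hd', hd']
    have hz : d i * v j = d j * v i := by
      fin_cases i <;> fin_cases j <;> simp <;> linarith
    exact_mod_cast hz
  have hwv : ∀ i j : Fin 3, D.w i * v j = D.w j * v i := by
    intro i j
    by_contra hne
    set δ := |D.w i * v j - D.w j * v i| with hδ
    have hδpos : 0 < δ := abs_pos.2 (sub_ne_zero.2 hne)
    obtain ⟨N, hN⟩ := exists_nat_gt ((|(v j : ℝ)| + |(v i : ℝ)|) / δ)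
    set k := max k₀ (φ k₀ + N) with hk
    have hkφ : φ k₀ + N ≤ φ k := (le_max_right _ _).trans (hφ.id_le k)
    have h := hcross k (le_max_left _ _) i j
    have hr : ∀ t s, |((D.nt t s : ℤ) : ℝ) - t * D.w s| ≤ 1 / 2 := by
      intro t s
      rw [abs_sub_comm]
      exact abs_sub_round _
    have e1 := hr (φ k) i
    have e2 := hr (φ k₀) i
    have e3 := hr (φ k) j
    have e4 := hr (φ k₀) j
    push_cast at h
    have hT : (N : ℝ) ≤ (φ k : ℝ) - φ k₀ := by
      have : ((φ k₀ + N : ℕ) : ℝ) ≤ (φ k : ℝ) := by exact_mod_cast hkφ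
      push_cast at this
      linarith
    have h2 : ((φ k : ℝ) - φ k₀) * (D.w i * v j - D.w j * v i) =
        -((((D.nt (φ k) i : ℤ) : ℝ) - φ k * D.w i) - (((D.nt (φ k₀) i : ℤ) : ℝ) - φ k₀ * D.w i))
          * v j +
        ((((D.nt (φ k) j : ℤ) : ℝ) - φ k * D.w j) - (((D.nt (φ k₀) j : ℤ) : ℝ) - φ k₀ * D.w j))
          * v i := by
      linear_combination h
    have h3 : |((φ k : ℝ) - φ k₀) * (D.w i * v j - D.w j * v i)| ≤
        |(v j : ℝ)| + |(v i : ℝ)| := by
      rw [h2]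
      refine (abs_add_le _ _).trans ?_
      rw [abs_mul, abs_mul, abs_neg]
      have e5 : |(((D.nt (φ k) i : ℤ) : ℝ) - φ k * D.w i) -
          (((D.nt (φ k₀) i : ℤ) : ℝ) - φ k₀ * D.w i)| ≤ 1 := by
        refine (abs_sub _ _).trans ?_
        linarith
      have e6 : |(((D.nt (φ k) j : ℤ) : ℝ) - φ k * D.w j) -
          (((D.nt (φ k₀) j : ℤ) : ℝ) - φ k₀ * D.w j)| ≤ 1 := by
        refine (abs_sub _ _).trans ?_
        linarith
      have e7 := mul_le_mul_of_nonneg_right e5 (abs_nonneg (v j : ℝ))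
      have e8 := mul_le_mul_of_nonneg_right e6 (abs_nonneg (v i : ℝ))
      linarith
    have h4 : (N : ℝ) * δ ≤ |((φ k : ℝ) - φ k₀) * (D.w i * v j - D.w j * v i)| := by
      rw [abs_mul]
      have : |(φ k : ℝ) - φ k₀| = (φ k : ℝ) - φ k₀ :=
        abs_of_nonneg (le_trans (Nat.cast_nonneg N) hT)
      rw [this]
      exact mul_le_mul_of_nonneg_right hT hδpos.le
    rw [div_lt_iff₀ hδpos] at hN
    linarith
  -- conclude by linear independence
  funext j
  obtain ⟨i, hi⟩ : ∃ i : Fin 3, i ≠ j := by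
    revert j; decide
  have h := hwv i j
  have h1 : ∑ s, (((Pi.single i (v j) - Pi.single j (v i) : Fin 3 → ℤ) s : ℤ) : ℝ) * D.w s = 0 := by
    have : ∀ s, (((Pi.single i (v j) - Pi.single j (v i) : Fin 3 → ℤ) s : ℤ) : ℝ) * D.w s =
        (if s = i then (v j : ℝ) * D.w i else 0) - (if s = j then (v i : ℝ) * D.w j else 0) := by
      intro s
      rw [Pi.sub_apply, Pi.single_apply, Pi.single_apply]
      push_cast
      split_ifs with h1 h2 h2
      · exact absurd (h1.symm.trans h2) hi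
      · subst h1; ring
      · subst h2; ring
      · ring
    rw [Finset.sum_congr rfl fun s _ => this s, Finset.sum_sub_distrib]
    simp only [Finset.sum_ite_eq', Finset.mem_univ, if_true]
    linarith
  have h2 := congrFun (D.w_indep _ h1) i
  rw [Pi.sub_apply, Pi.single_eq_same, Pi.single_eq_of_ne hi, sub_zero] at h2
  simpa using h2

/-- Main conclusion for the setup. -/
theorem main (S' : Set (MvPolynomial (Module.Free.ChooseBasisIndex ℤ (𝓞 K)) ℚ))
    (B : Subgroup (mixedEmbedding.mixedSpace K)ˣ)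
    (hB : ∀ x : (mixedEmbedding.mixedSpace K)ˣ, x ∈ B ↔ ∀ f ∈ S',
      MvPolynomial.aeval (fun i => (mixedEmbedding.latticeBasis K).repr
        (x : mixedEmbedding.mixedSpace K) i) f = (0 : ℝ))
    (hle : D.comp ≤ B) : D.comp.relIndex B = 0 := by
  by_contra hne
  have hiff : ∀ z : Kˣ, ∀ f : MvPolynomial (Module.Free.ChooseBasisIndex ℤ (𝓞 K)) ℚ,
      MvPolynomial.aeval (fun i => (mixedEmbedding.latticeBasis K).repr
        ((iota K z : (mixedEmbedding.mixedSpace K)ˣ) : mixedEmbedding.mixedSpace K) i) f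
        = (0 : ℝ) ↔
      MvPolynomial.aeval (fun i => (integralBasis K).coord i (z : K)) f = (0 : ℚ) := by
    intro z f
    have h1 : (fun i => (mixedEmbedding.latticeBasis K).repr
        ((iota K z : (mixedEmbedding.mixedSpace K)ˣ) : mixedEmbedding.mixedSpace K) i) =
        fun i => algebraMap ℚ ℝ ((integralBasis K).coord i (z : K)) := by
      funext i
      rw [iota_val, mixedEmbedding.latticeBasis_repr_apply]
      rfl
    have h2 := MvPolynomial.aeval_algebraMap_apply ℝ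
      (fun i => (integralBasis K).coord i (z : K)) f
    rw [h1]
    change (MvPolynomial.aeval (⇑(algebraMap ℚ ℝ) ∘ fun i => (integralBasis K).coord i (z : K))) f
      = 0 ↔ _
    rw [h2]
    constructor
    · intro h
      exact (algebraMap ℚ ℝ).injective (by rw [h, map_zero])
    · intro h
      rw [h, map_zero]
  have hmem : iota K (D.H E00) ∈ B := by
    rw [hB]
    intro f hf
    rw [hiff]
    refine D.key D.S D.S_large (fun i => (integralBasis K).coord i) f ?_ E00
    intro n hn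
    rw [← hiff]
    have h1 : iota K (D.H (J n)) ∈ B := hle hn
    exact (hB _).1 h1 f hf
  obtain ⟨n, hn, -, hpow⟩ := Subgroup.exists_pow_mem_of_relIndex_ne_zero hne hmem
  obtain ⟨y, -, hy⟩ := hpow.1
  have h1 : D.Θ (iota K (D.H E00) ^ n) = 0 := by
    apply D.Θ_Lbar
    rw [← hy]
    exact y.2
  rw [Θ_pow, Θ_iota, Q_E00] at h1
  have h2 := D.w_ne 0
  have h3 : (n : ℝ) ≠ 0 := by exact_mod_cast hn.ne'
  exact absurd h1 (mul_ne_zero h3 (mul_ne_zero h2 h2))

end Setup

end Pool.Agent.Work.MP_7de521_nt
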