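import Mathlib

/-!
Closed subgroups of finite dimensional real normed spaces, and closed subgroups of the unit
group of a finite dimensional commutative real Banach algebra: the identity component is open.
-/

open Filter Topology

namespace Pool.Agent.Work.MP_7de521_nt

section vector

variable {E : Type*} [NormedAddCommGroup E] [NormedSpace ℝ E]

/-- If `u k ≠ 0` are elements of a closed subgroup `Γ`, tending to `0`, and the directions
`u k / ‖u k‖` tend to `u`, then the line `ℝ u` lies in `Γ`. -/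
lemma line_mem_of_tendsto (Γ : AddSubgroup E) (hΓ : IsClosed (Γ : Set E))
    (u : ℕ → E) (hu : ∀ k, u k ∈ Γ) (h0 : Tendsto u atTop (𝓝 0)) (hne : ∀ k, u k ≠ 0)
    (v : E) (hv : Tendsto (fun k => (‖u k‖)⁻¹ • u k) atTop (𝓝 v)) (t : ℝ) :
    t • v ∈ Γ := by
  have h1 : Tendsto (fun k => ((⌊t / ‖u k‖⌋ : ℤ) : ℝ) * ‖u k‖) atTop (𝓝 t) := by
    have hn : Tendsto (fun k => ‖u k‖) atTop (𝓝 0) := by
      simpa using h0.norm
    rw [tendsto_iff_norm_sub_tendsto_zero]
    refine squeeze_zero (fun k => norm_nonneg _) (fun k => ?_) hn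
    have hpos : 0 < ‖u k‖ := norm_pos_iff.mpr (hne k)
    have h2 : ((⌊t / ‖u k‖⌋ : ℤ) : ℝ) ≤ t / ‖u k‖ := Int.floor_le _
    have h3 : t / ‖u k‖ < ((⌊t / ‖u k‖⌋ : ℤ) : ℝ) + 1 := Int.lt_floor_add_one _
    rw [le_div_iff₀ hpos] at h2
    rw [div_lt_iff₀ hpos] at h3
    rw [Real.norm_eq_abs, abs_le]
    constructor <;> nlinarith
  have h2 : Tendsto (fun k => (⌊t / ‖u k‖⌋ : ℤ) • u k) atTop (𝓝 (t • v)) := by
    have := h1.smul hv
    refine this.congr (fun k => ?_)
    have hpos : 0 < ‖u k‖ := norm_pos_iff.mpr (hne k)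
    rw [smul_smul, mul_assoc, mul_inv_cancel₀ hpos.ne', mul_one, Int.cast_smul_eq_zsmul]
  exact hΓ.mem_of_tendsto h2 (Eventually.of_forall fun k => Γ.zsmul_mem (hu k) _)

/-- A closed subgroup of a finite dimensional real vector space contains, near `0`, only elements
which lie on a line contained in the subgroup. -/
theorem exists_ball_of_isClosed [FiniteDimensional ℝ E] (Γ : AddSubgroup E)
    (hΓ : IsClosed (Γ : Set E)) :
    ∃ ε > 0, ∀ z ∈ Γ, ‖z‖ < ε → ∀ t : ℝ, t • z ∈ Γ := by
  classical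
  let V : Submodule ℝ E :=
    { carrier := {z | ∀ t : ℝ, t • z ∈ Γ}
      add_mem' := fun {a b} ha hb t => by
        rw [smul_add]; exact Γ.add_mem (ha t) (hb t)
      zero_mem' := fun t => by rw [smul_zero]; exact Γ.zero_mem
      smul_mem' := fun c x hx t => by rw [smul_smul]; exact hx _ }
  obtain ⟨W, hVW⟩ := Submodule.exists_isCompl V
  -- projection onto `W` along `V`
  let p : E →ₗ[ℝ] E := W.subtype ∘ₗ (Submodule.projectionOnto W V hVW.symm)
  have hpW : ∀ z, p z ∈ W := fun z => (Submodule.projectionOnto W V hVW.symm z).2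
  have hpV : ∀ z, z - p z ∈ V := by
    intro z
    have : Submodule.projectionOnto W V hVW.symm (z - p z) = 0 := by
      rw [map_sub, sub_eq_zero]
      exact (Submodule.projectionOnto_apply_left hVW.symm
        (Submodule.projectionOnto W V hVW.symm z)).symm
    exact (Submodule.projectionOnto_apply_eq_zero_iff hVW.symm).1 this
  have hVΓ : ∀ z ∈ V, z ∈ Γ := fun z hz => by simpa using hz 1
  have hpΓ : ∀ z ∈ Γ, p z ∈ Γ := by
    intro z hz
    have := Γ.sub_mem hz (hVΓ _ (hpV z))
    simpa using this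
  have hp0 : ∀ z, p z = 0 → z ∈ V := by
    intro z hz
    have := hpV z
    rwa [hz, sub_zero] at this
  by_contra hcon
  push Not at hcon
  have hseq : ∀ k : ℕ, ∃ z ∈ Γ, ‖z‖ < 1 / ((k : ℝ) + 1) ∧ z ∉ V := by
    intro k
    obtain ⟨z, hz, hzn, t, ht⟩ := hcon (1 / ((k : ℝ) + 1)) (by positivity)
    exact ⟨z, hz, hzn, fun h => ht (h t)⟩
  choose z hzΓ hzn hzV using hseq
  have hz0 : Tendsto z atTop (𝓝 0) := by
    rw [tendsto_zero_iff_norm_tendsto_zero]
    exact squeeze_zero (fun k => norm_nonneg _) (fun k => (hzn k).le)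
      tendsto_one_div_add_atTop_nhds_zero_nat
  have hpc : Continuous p := p.continuous_of_finiteDimensional
  have hu0 : Tendsto (fun k => p (z k)) atTop (𝓝 0) := by
    have h := (hpc.tendsto 0).comp hz0
    rw [map_zero] at h
    exact h
  have hune : ∀ k, p (z k) ≠ 0 := fun k h => hzV k (hp0 _ h)
  have hsph : ∀ k, (‖p (z k)‖)⁻¹ • p (z k) ∈ Metric.sphere (0 : E) 1 := by
    intro k
    have hpos : 0 < ‖p (z k)‖ := norm_pos_iff.mpr (hune k)
    rw [mem_sphere_zero_iff_norm, norm_smul, norm_inv, norm_norm, inv_mul_cancel₀ hpos.ne']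
  have : ProperSpace E := FiniteDimensional.proper ℝ E
  obtain ⟨u, hu, φ, hφ, hlim⟩ := (isCompact_sphere (0 : E) 1).tendsto_subseq hsph
  have huV : u ∈ V := by
    intro t
    exact line_mem_of_tendsto Γ hΓ (fun k => p (z (φ k))) (fun k => hpΓ _ (hzΓ _))
      (hu0.comp hφ.tendsto_atTop) (fun k => hune _) u hlim t
  have huW : u ∈ W := by
    have hWc : IsClosed (W : Set E) := W.closed_of_finiteDimensional
    refine hWc.mem_of_tendsto hlim (Eventually.of_forall fun k => ?_)
    exact W.smul_mem _ (hpW _)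
  have hu0' : u = 0 := by
    have : u ∈ V ⊓ W := ⟨huV, huW⟩
    rw [hVW.inf_eq_bot] at this
    simpa using this
  rw [mem_sphere_zero_iff_norm, hu0', norm_zero] at hu
  exact zero_ne_one hu

end vector

section algebra

variable {A : Type*} [NormedCommRing A] [NormedAlgebra ℝ A] [CompleteSpace A]

/-- The exponential as a map to the units. -/
noncomputable def expUnit (z : A) : Aˣ :=
  letI : NormedAlgebra ℚ A := NormedAlgebra.restrictScalars ℚ ℝ A
  (NormedSpace.isUnit_exp z).unit

lemma expUnit_val (z : A) : (expUnit z : A) = NormedSpace.exp z := rfl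

lemma expUnit_add (z w : A) : expUnit (z + w) = expUnit z * expUnit w := by
  letI : NormedAlgebra ℚ A := NormedAlgebra.restrictScalars ℚ ℝ A
  ext
  rw [Units.val_mul, expUnit_val, expUnit_val, expUnit_val, NormedSpace.exp_add]

lemma expUnit_zero : expUnit (0 : A) = 1 := by
  ext
  rw [expUnit_val, NormedSpace.exp_zero, Units.val_one]

lemma expUnit_neg (z : A) : expUnit (-z) = (expUnit z)⁻¹ := by
  rw [eq_inv_iff_mul_eq_one, ← expUnit_add, neg_add_cancel, expUnit_zero]

lemma continuous_expUnit : Continuous (expUnit : A → Aˣ) := by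
  letI : NormedAlgebra ℚ A := NormedAlgebra.restrictScalars ℚ ℝ A
  rw [Units.continuous_iff]
  constructor
  · exact NormedSpace.exp_continuous
  · have : (fun z : A => ((expUnit z)⁻¹ : Aˣ).val) = fun z => NormedSpace.exp (-z) := by
      funext z
      rw [← expUnit_neg, expUnit_val]
    rw [this]
    exact NormedSpace.exp_continuous.comp continuous_neg

variable [FiniteDimensional ℝ A]

/-- For a closed subgroup `Λ` of the units of a finite dimensional commutative real Banach
algebra there is a neighbourhood `O` of `1` such that every point of `Λ` in `O` lies in the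
connected component of `1` in `Λ`. -/
theorem exists_nhds_component (Λ : Subgroup Aˣ) (hΛ : IsClosed (Λ : Set Aˣ)) :
    ∃ O ∈ 𝓝 (1 : Aˣ), ∀ x ∈ Λ, x ∈ O → x ∈ connectedComponentIn (Λ : Set Aˣ) 1 := by
  let Γ : AddSubgroup A :=
    { carrier := {z | expUnit z ∈ Λ}
      add_mem' := fun {a b} ha hb => by
        change expUnit (a + b) ∈ Λ
        rw [expUnit_add]; exact Λ.mul_mem ha hb
      zero_mem' := by
        change expUnit 0 ∈ Λ
        rw [expUnit_zero]; exact Λ.one_mem
      neg_mem' := fun {a} ha => by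
        change expUnit (-a) ∈ Λ
        rw [expUnit_neg]; exact Λ.inv_mem ha }
  have hΓ : IsClosed (Γ : Set A) := hΛ.preimage continuous_expUnit
  obtain ⟨ε, hε, hball⟩ := exists_ball_of_isClosed Γ hΓ
  have hexp : HasStrictFDerivAt (NormedSpace.exp : A → A)
      ((ContinuousLinearEquiv.refl ℝ A : A ≃L[ℝ] A) : A →L[ℝ] A) 0 := by
    have := hasStrictFDerivAt_exp_zero (𝕂 := ℝ) (𝔸 := A)
    exact this
  have hmap := hexp.map_nhds_eq_of_equiv
  rw [NormedSpace.exp_zero] at hmap
  have himg : NormedSpace.exp '' (Metric.ball (0 : A) ε) ∈ 𝓝 (1 : A) := by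
    rw [← hmap]
    exact image_mem_map (Metric.ball_mem_nhds _ hε)
  refine ⟨(fun x : Aˣ => (x : A)) ⁻¹' (NormedSpace.exp '' (Metric.ball (0 : A) ε)), ?_, ?_⟩
  · apply (Units.continuous_val (M := A)).continuousAt.preimage_mem_nhds
    rw [Units.val_one]
    exact himg
  · rintro x hx ⟨z, hz, hzx⟩
    have hxz : expUnit z = x := by ext; exact hzx
    have hzΓ : z ∈ Γ := by
      change expUnit z ∈ Λ
      rw [hxz]; exact hx
    have hline := hball z hzΓ (by simpa using hz)
    -- the path
    have hpath : IsPreconnected (Set.range (fun t : ℝ => expUnit (t • z))) := by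
      apply isPreconnected_range
      exact continuous_expUnit.comp (continuous_id.smul continuous_const)
    have hsub : Set.range (fun t : ℝ => expUnit (t • z)) ⊆ (Λ : Set Aˣ) := by
      rintro _ ⟨t, rfl⟩
      exact hline t
    have h1 : (1 : Aˣ) ∈ Set.range (fun t : ℝ => expUnit (t • z)) :=
      ⟨0, by simp [expUnit_zero]⟩
    have hx' : x ∈ Set.range (fun t : ℝ => expUnit (t • z)) := ⟨1, by simp [hxz]⟩
    exact hpath.subset_connectedComponentIn h1 hsub hx'

omit [CompleteSpace A] in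
/-- Units bounded together with their inverses form a compact set. -/
lemma isCompact_units_ball (R : ℝ) :
    IsCompact {x : Aˣ | ‖(x : A)‖ ≤ R ∧ ‖((x⁻¹ : Aˣ) : A)‖ ≤ R} := by
  have hA : ProperSpace A := FiniteDimensional.proper ℝ A
  have h1 : IsCompact (Metric.closedBall (0 : A) R ×ˢ
      (MulOpposite.unop ⁻¹' (Metric.closedBall (0 : A) R))) := by
    refine (isCompact_closedBall _ _).prod ?_
    have h := (isCompact_closedBall (0 : A) R).image (MulOpposite.continuous_op (M := A))
    convert h using 1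
    ext x
    constructor
    · intro hx
      exact ⟨MulOpposite.unop x, hx, MulOpposite.op_unop x⟩
    · rintro ⟨y, hy, rfl⟩
      exact hy
  have h2 := (Units.isClosedEmbedding_embedProduct (α := A)).isCompact_preimage h1
  convert h2 using 1
  ext x
  simp [Units.embedProduct]

/-- A sequence in a closed subgroup `Λ`, bounded together with its inverses, has a subsequence
whose quotients eventually lie in the component of `1` in `Λ`. -/
theorem exists_subseq (Λ : Subgroup Aˣ) (hΛ : IsClosed (Λ : Set Aˣ)) (R : ℝ) (x : ℕ → Aˣ)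
    (hx : ∀ n, x n ∈ Λ) (hR : ∀ n, ‖(x n : A)‖ ≤ R ∧ ‖(((x n)⁻¹ : Aˣ) : A)‖ ≤ R) :
    ∃ φ : ℕ → ℕ, StrictMono φ ∧ ∃ k₀, ∀ k ≥ k₀, ∀ l ≥ k₀,
      x (φ k) * (x (φ l))⁻¹ ∈ connectedComponentIn (Λ : Set Aˣ) 1 := by
  obtain ⟨O, hO, hOΛ⟩ := exists_nhds_component Λ hΛ
  have hfc : FirstCountableTopology Aˣ :=
    (Units.isEmbedding_embedProduct (M := A)).firstCountableTopology
  obtain ⟨g, -, φ, hφ, hlim⟩ := (isCompact_units_ball (A := A) R).tendsto_subseq
    (x := x) (fun n => hR n)
  have h1 : Tendsto (fun p : ℕ × ℕ => x (φ p.1) * (x (φ p.2))⁻¹) (atTop ×ˢ atTop)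
      (𝓝 (g * g⁻¹)) := by
    exact (hlim.comp tendsto_fst).mul (hlim.comp tendsto_snd).inv
  rw [mul_inv_cancel, prod_atTop_atTop_eq] at h1
  have h2 := h1.eventually hO
  rw [eventually_atTop] at h2
  obtain ⟨⟨a, b⟩, hab⟩ := h2
  refine ⟨φ, hφ, max a b, fun k hk l hl => ?_⟩
  refine hOΛ _ (Λ.mul_mem (hx _) (Λ.inv_mem (hx _))) ?_
  exact hab (k, l) ⟨(le_max_left _ _).trans hk, (le_max_right _ _).trans hl⟩

end algebra

end Pool.Agent.Work.MP_7de521_nt
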