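import Pool.Agent.Work.MP_7de521_nt.Algebra

/-!
Multiplicative independence of the nine units `u s k`.
-/

open NumberField IsDedekindDomain

namespace Pool.Agent.Work.MP_7de521_nt

namespace Setup

variable {K : Type} [Field K] [NumberField K] (D : Setup K)

/-- `y k` as an algebraic integer. -/
noncomputable def Y (k : Fin 3) : 𝓞 K := ⟨D.y k, D.y_int k⟩

lemma Y_coe (k : Fin 3) : ((D.Y k : 𝓞 K) : K) = D.y k := rfl

/-- `s + 1` as an algebraic integer. -/
def A (K : Type) [Field K] [NumberField K] (s : Fin 3) : 𝓞 K := ((s : ℕ) : 𝓞 K) + 1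

lemma A_coe (s : Fin 3) : ((A K s : 𝓞 K) : K) = a s := by
  unfold A a
  simp

lemma add_coe (s k : Fin 3) : ((A K s + D.Y k : 𝓞 K) : K) = a s + D.y k := by
  rw [← A_coe, ← Y_coe]
  exact map_add (algebraMap (𝓞 K) K) _ _

lemma sub_coe (s k : Fin 3) : ((A K s - D.Y k : 𝓞 K) : K) = a s - D.y k := by
  rw [← A_coe, ← Y_coe]
  exact map_sub (algebraMap (𝓞 K) K) _ _

/-- The value of the sextic at `s + 1`. -/
def N (s : Fin 3) : ℤ := ((s : ℕ) + 1) ^ 6 - 5 * ((s : ℕ) + 1) ^ 2 - 1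

lemma N_coe (s : Fin 3) : ((N s : ℤ) : K) = (a s) ^ 6 - 5 * (a s) ^ 2 - 1 := by
  unfold N a
  push_cast
  ring

lemma N_eq (s : Fin 3) : ((N s : ℤ) : 𝓞 K) =
    ((A K s + D.Y 0) * (A K s - D.Y 0)) * ((A K s + D.Y 1) * (A K s - D.Y 1)) *
    ((A K s + D.Y 2) * (A K s - D.Y 2)) := by
  apply RingOfIntegers.ext
  simp only [map_mul, map_add, map_sub, A_coe, Y_coe, map_intCast]
  rw [N_coe, ← D.prod_eq]
  ring

lemma isUnit_conj (s : Fin 3) (h : IsUnit (A K s + D.Y 0)) (k : Fin 3) :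
    IsUnit (A K s + D.Y k) ∧ IsUnit (A K s - D.Y k) := by
  obtain ⟨⟨g, hg⟩, ⟨g', hg'⟩⟩ := D.exists_conj k
  constructor
  · have h1 := h.map (RingOfIntegers.mapRingEquiv g.toRingEquiv)
    have h2 : RingOfIntegers.mapRingEquiv g.toRingEquiv (A K s + D.Y 0) = A K s + D.Y k := by
      apply RingOfIntegers.ext
      rw [RingOfIntegers.mapRingEquiv_apply, add_coe, add_coe]
      change g (a s + D.y 0) = _
      rw [map_add, hg, gal_a]
    rwa [h2] at h1
  · have h1 := h.map (RingOfIntegers.mapRingEquiv g'.toRingEquiv)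
    have h2 : RingOfIntegers.mapRingEquiv g'.toRingEquiv (A K s + D.Y 0) = A K s - D.Y k := by
      apply RingOfIntegers.ext
      rw [RingOfIntegers.mapRingEquiv_apply, add_coe, sub_coe]
      change g' (a s + D.y 0) = _
      rw [map_add, hg', gal_a]
      ring
    rwa [h2] at h1

lemma N_ne_one (s : Fin 3) : ¬ IsUnit (N s) := by
  rw [Int.isUnit_iff]
  revert s
  decide

lemma isUnit_int (n : ℤ) (h : IsUnit ((n : ℤ) : 𝓞 K)) : IsUnit n := by
  obtain ⟨v, hv⟩ := h.exists_right_inv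
  have hv' : (n : K) * (v : K) = 1 := by
    have := congrArg (fun x : 𝓞 K => (x : K)) hv
    simpa using this
  have hn : (n : K) ≠ 0 := left_ne_zero_of_mul_eq_one hv'
  have hvq : (v : K) = algebraMap ℚ K ((n : ℚ)⁻¹) := by
    rw [map_inv₀, map_intCast]
    exact eq_inv_of_mul_eq_one_right hv'
  have hint : IsIntegral ℤ ((n : ℚ)⁻¹) := by
    have h1 : IsIntegral ℤ (v : K) := RingOfIntegers.isIntegral_coe v
    rw [hvq] at h1
    exact (isIntegral_algebraMap_iff (algebraMap ℚ K).injective).1 h1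
  obtain ⟨m, hm⟩ := IsIntegrallyClosed.isIntegral_iff.1 hint
  have hn' : (n : ℚ) ≠ 0 := by
    intro h0
    apply hn
    have : n = 0 := by exact_mod_cast h0
    rw [this]; simp
  have : (n : ℚ) * (m : ℚ) = 1 := by
    have hm' : (m : ℚ) = (n : ℚ)⁻¹ := by simpa using hm
    rw [hm', mul_inv_cancel₀ hn']
  have h2 : n * m = 1 := by exact_mod_cast this
  exact IsUnit.of_mul_eq_one m h2

lemma not_isUnit (s : Fin 3) : ¬ IsUnit (A K s + D.Y 0) := by
  intro h
  have h0 := D.isUnit_conj s h 0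
  have h1 := D.isUnit_conj s h 1
  have h2 := D.isUnit_conj s h 2
  have : IsUnit ((N s : ℤ) : 𝓞 K) := by
    rw [D.N_eq s]
    exact ((h0.1.mul h0.2).mul (h1.1.mul h1.2)).mul (h2.1.mul h2.2)
  exact N_ne_one s (isUnit_int _ this)

lemma not_mem_of_coprime (s : Fin 3) (I : Ideal (𝓞 K)) (hI : I ≠ ⊤) (hs : A K s + D.Y 0 ∈ I)
    (d : ℤ) (hd : IsCoprime d (N s)) : ((d : ℤ) : 𝓞 K) ∉ I := by
  intro h
  obtain ⟨p, q, hpq⟩ := hd
  apply hI
  rw [Ideal.eq_top_iff_one]
  have hN : ((N s : ℤ) : 𝓞 K) ∈ I := by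
    rw [D.N_eq s]
    have : (A K s + D.Y 0) * (A K s - D.Y 0) * ((A K s + D.Y 1) * (A K s - D.Y 1)) *
      ((A K s + D.Y 2) * (A K s - D.Y 2)) = ((A K s - D.Y 0) * ((A K s + D.Y 1) * (A K s - D.Y 1)) *
      ((A K s + D.Y 2) * (A K s - D.Y 2))) * (A K s + D.Y 0) := by ring
    rw [this]
    exact I.mul_mem_left _ hs
  have h1 : (1 : 𝓞 K) = (p : 𝓞 K) * ((d : ℤ) : 𝓞 K) + (q : 𝓞 K) * ((N s : ℤ) : 𝓞 K) := by
    exact_mod_cast (congrArg (fun z : ℤ => (z : 𝓞 K)) hpq).symm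
  rw [h1]
  exact I.add_mem (I.mul_mem_left _ h) (I.mul_mem_left _ hN)

lemma coprime_add (s t : Fin 3) :
    IsCoprime ((((s : ℕ) : ℤ) + 1) + (((t : ℕ) : ℤ) + 1)) (N s) := by
  rw [Int.isCoprime_iff_gcd_eq_one]
  revert s t
  decide

lemma coprime_sub (s t : Fin 3) (h : s ≠ t) :
    IsCoprime ((((s : ℕ) : ℤ) + 1) - (((t : ℕ) : ℤ) + 1)) (N s) := by
  rw [Int.isCoprime_iff_gcd_eq_one]
  revert s t
  decide

lemma sub_notMem (s t : Fin 3) (I : Ideal (𝓞 K)) (hI : I ≠ ⊤) (hs : A K s + D.Y 0 ∈ I) :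
    A K t - D.Y 0 ∉ I := by
  intro h
  have h1 := I.add_mem hs h
  apply D.not_mem_of_coprime s I hI hs _ (coprime_add s t)
  convert h1 using 1
  unfold A
  push_cast
  ring

lemma add_notMem (s t : Fin 3) (hst : s ≠ t) (I : Ideal (𝓞 K)) (hI : I ≠ ⊤)
    (hs : A K s + D.Y 0 ∈ I) : A K t + D.Y 0 ∉ I := by
  intro h
  have h1 := I.sub_mem hs h
  apply D.not_mem_of_coprime s I hI hs _ (coprime_sub s t hst)
  convert h1 using 1
  unfold A
  push_cast
  ring

lemma exists_valuation (s : Fin 3) : ∃ v : Valuation K (WithZero (Multiplicative ℤ)),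
    v (D.u s 0) < 1 ∧ ∀ t, t ≠ s → v (D.u t 0) = 1 := by
  obtain ⟨I, hImax, hI⟩ := exists_max_ideal_of_mem_nonunits (D.not_isUnit s)
  have hItop : I ≠ ⊤ := hImax.ne_top
  have hbot : I ≠ ⊥ := by
    rintro rfl
    rw [Ideal.mem_bot] at hI
    apply D.add_ne s 0
    have := congrArg (fun x : 𝓞 K => (x : K)) hI
    simpa [A_coe, Y_coe] using this
  let v : HeightOneSpectrum (𝓞 K) := ⟨I, hImax.isPrime, hbot⟩
  have hval : ∀ t : Fin 3, v.valuation K (D.u t 0) =
      v.valuation K (algebraMap (𝓞 K) K (A K t + D.Y 0)) /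
      v.valuation K (algebraMap (𝓞 K) K (A K t - D.Y 0)) := by
    intro t
    have h1 := D.add_coe t 0
    have h2 := D.sub_coe t 0
    rw [u_val, map_div₀, ← h1, ← h2]
  have hsub : ∀ t : Fin 3, v.valuation K (algebraMap (𝓞 K) K (A K t - D.Y 0)) = 1 := by
    intro t
    rw [HeightOneSpectrum.valuation_eq_one_iff_notMem]
    exact D.sub_notMem s t I hItop hI
  refine ⟨v.valuation K, ?_, ?_⟩
  · rw [hval, hsub, div_one]
    rw [HeightOneSpectrum.valuation_lt_one_iff_mem]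
    exact hI
  · intro t ht
    rw [hval, hsub, div_one]
    rw [HeightOneSpectrum.valuation_eq_one_iff_notMem]
    exact D.add_notMem s t ht.symm I hItop hI

/-- Multiplicative independence of the three units `u s 0`. -/
lemma indep_zero (n : Fin 3 → ℤ) (h : ∏ s, D.u s 0 ^ n s = 1) : n = 0 := by
  funext s
  obtain ⟨v, hv, hv'⟩ := D.exists_valuation s
  have h1 : v ((∏ s, D.u s 0 ^ n s : Kˣ) : K) = 1 := by rw [h]; simp
  rw [Units.coe_prod, map_prod, Finset.prod_eq_single s] at h1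
  · rw [Units.val_zpow_eq_zpow_val, map_zpow₀] at h1
    have h0 : v (D.u s 0 : K) ≠ 0 := by
      rw [Valuation.ne_zero_iff]; exact (D.u s 0).ne_zero
    rcases lt_trichotomy (n s) 0 with hlt | heq | hgt
    · have := one_lt_zpow_of_neg₀ (zero_lt_iff.2 h0) hv hlt
      rw [h1] at this
      exact absurd this (lt_irrefl _)
    · exact heq
    · have := zpow_lt_one₀ (zero_lt_iff.2 h0) hv hgt
      rw [h1] at this
      exact absurd this (lt_irrefl _)
  · intro t _ ht
    rw [Units.val_zpow_eq_zpow_val, map_zpow₀, hv' t ht, one_zpow]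
  · intro h; exact absurd (Finset.mem_univ _) h

/-- Multiplicative independence of the nine units `u s k`. -/
theorem H_injective (e : Matrix (Fin 3) (Fin 3) ℤ) (h : D.H e = 1) : e = 0 := by
  ext s k
  obtain ⟨τ, hτk, hτ⟩ := D.exists_tau k
  obtain ⟨g, hg⟩ := D.trans k
  have hu : ∀ s j, gal τ (D.u s j) * D.u s j = if j = k then D.u s k ^ (2 : ℤ) else 1 := by
    intro s j
    split_ifs with hj
    · rw [hj, D.gal_u_pos τ s k k hτk, zpow_two]
    · rw [D.gal_u_neg τ s j j (hτ j hj), inv_mul_cancel]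
  have h1 : gal τ (D.H e) * D.H e = ∏ s, D.u s k ^ (2 * e s k) := by
    simp only [H, map_prod, map_zpow]
    rw [← Finset.prod_mul_distrib]
    refine Finset.prod_congr rfl fun s _ => ?_
    rw [← Finset.prod_mul_distrib, Finset.prod_eq_single k]
    · rw [← mul_zpow, hu, if_pos rfl, zpow_mul]
    · intro j _ hj
      rw [← mul_zpow, hu, if_neg hj, one_zpow]
    · intro h; exact absurd (Finset.mem_univ _) h
  rw [h, map_one, one_mul] at h1
  have h2 := congrArg (gal g) h1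
  rw [map_one, map_prod] at h2
  rcases hg with hg | hg
  · have h3 : ∏ s, D.u s 0 ^ (2 * e s k) = 1 := by
      rw [h2]
      exact Finset.prod_congr rfl fun s _ => by rw [map_zpow, D.gal_u_pos g s k 0 hg]
    have := congrFun (D.indep_zero _ h3) s
    simpa using this
  · have h3 : ∏ s, D.u s 0 ^ (-(2 * e s k)) = 1 := by
      rw [h2]
      exact Finset.prod_congr rfl fun s _ => by
        rw [map_zpow, D.gal_u_neg g s k 0 hg, inv_zpow, zpow_neg]
    have := congrFun (D.indep_zero _ h3) s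
    simpa using this

end Setup

end Pool.Agent.Work.MP_7de521_nt
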