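import Pool.Agent.Work.MP_7de521_nt.Independence

/-!
Rational polynomials vanishing on the group generated by two independent elements of `L`
vanish on all the `H e`.
-/

open NumberField

namespace Pool.Agent.Work.MP_7de521_nt

/-- The skew-symmetric matrix (cross product matrix) attached to a vector. -/
def J (n : Fin 3 → ℤ) : Matrix (Fin 3) (Fin 3) ℤ :=
  !![0, - n 2, n 1; n 2, 0, - n 0; - n 1, n 0, 0]

lemma J_add (n m : Fin 3 → ℤ) : J (n + m) = J n + J m := by
  ext i j
  fin_cases i <;> fin_cases j <;> simp [J] <;> ring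

lemma J_zero : J 0 = 0 := by
  ext i j
  fin_cases i <;> fin_cases j <;> simp [J]

lemma J_neg (n : Fin 3 → ℤ) : J (-n) = - J n := by
  ext i j
  fin_cases i <;> fin_cases j <;> simp [J]

namespace Setup

variable {K : Type} [Field K] [NumberField K] (D : Setup K)

lemma H_neg (e : Matrix (Fin 3) (Fin 3) ℤ) : D.H (-e) = (D.H e)⁻¹ := by
  rw [eq_inv_iff_mul_eq_one, ← H_add, neg_add_cancel, H_zero]

/-- The character `e ↦ H (e * M)`. -/
noncomputable def χ (M : Matrix (Fin 3) (Fin 3) ℤ) : Matrix (Fin 3) (Fin 3) ℤ → K :=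
  fun e => (D.H (e * M) : K)

/-- `χ` as a monoid homomorphism. -/
noncomputable def chi : Multiplicative (Matrix (Fin 3) (Fin 3) ℤ) →*
    (Matrix (Fin 3) (Fin 3) ℤ → K) where
  toFun M := D.χ (Multiplicative.toAdd M)
  map_one' := by
    funext e
    simp [χ, H_zero]
  map_mul' M M' := by
    funext e
    simp only [χ, toAdd_mul, mul_add, H_add, Units.val_mul, Pi.mul_apply]

lemma range_chi : (Set.range D.χ : Set (Matrix (Fin 3) (Fin 3) ℤ → K)) =
    (MonoidHom.mrange D.chi : Set (Matrix (Fin 3) (Fin 3) ℤ → K)) := by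
  ext x
  constructor
  · rintro ⟨M, rfl⟩
    exact ⟨Multiplicative.ofAdd M, rfl⟩
  · rintro ⟨M, rfl⟩
    exact ⟨Multiplicative.toAdd M, rfl⟩

/-- The algebra of functions spanned by the characters. -/
noncomputable def alg : Subalgebra K (Matrix (Fin 3) (Fin 3) ℤ → K) :=
  Algebra.adjoin K (Set.range D.χ)

lemma mem_alg_iff (F : Matrix (Fin 3) (Fin 3) ℤ → K) :
    F ∈ D.alg ↔ F ∈ Submodule.span K (Set.range D.χ) := by
  rw [alg, ← Subalgebra.mem_toSubmodule, Algebra.adjoin_eq_span, range_chi,
    Submonoid.closure_eq]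

lemma χ_mem (M : Matrix (Fin 3) (Fin 3) ℤ) : D.χ M ∈ D.alg :=
  Algebra.subset_adjoin ⟨M, rfl⟩

variable [IsGalois ℚ K]

/-- A rational linear functional, evaluated on `H e`, lies in the algebra. -/
lemma linear_mem (l : K →ₗ[ℚ] ℚ) : (fun e => algebraMap ℚ K (l (D.H e))) ∈ D.alg := by
  have hnd := traceForm_nondegenerate ℚ K
  obtain ⟨d, hd⟩ := (LinearMap.BilinForm.toDual _ hnd).surjective l
  have h1 : ∀ x : K, algebraMap ℚ K (l x) = ∑ g : K ≃ₐ[ℚ] K, g d * g x := by
    intro x
    rw [← hd, LinearMap.BilinForm.toDual_def, Algebra.traceForm_apply,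
      trace_eq_sum_automorphisms]
    exact Finset.sum_congr rfl fun g _ => map_mul g d x
  have h2 : (fun e => algebraMap ℚ K (l (D.H e))) =
      ∑ g : K ≃ₐ[ℚ] K, (g d) • D.χ (D.P g) := by
    funext e
    rw [h1, Finset.sum_apply]
    refine Finset.sum_congr rfl fun g _ => ?_
    rw [Pi.smul_apply, smul_eq_mul, χ, ← gal_H, gal_val]
  rw [h2]
  exact Subalgebra.sum_mem _ fun g _ => Subalgebra.smul_mem _ (D.χ_mem _) _

/-- A rational polynomial in the coordinates, evaluated on `H e`, lies in the algebra. -/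
lemma poly_mem {ι : Type*} (b : ι → (K →ₗ[ℚ] ℚ)) (f : MvPolynomial ι ℚ) :
    (fun e => algebraMap ℚ K (MvPolynomial.aeval (fun i => b i (D.H e)) f)) ∈ D.alg := by
  induction f using MvPolynomial.induction_on with
  | C a =>
    simp only [MvPolynomial.algHom_C]
    exact D.alg.algebraMap_mem (algebraMap ℚ K a)
  | add p q hp hq =>
    simp only [map_add]
    exact D.alg.add_mem hp hq
  | mul_X p i hp =>
    simp only [map_mul, MvPolynomial.aeval_X]
    exact D.alg.mul_mem hp (D.linear_mem (b i))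

omit [IsGalois ℚ K] in
/-- Distinct characters stay distinct on the subgroup `J S` when `S` is not contained in
a line. -/
lemma mat_eq_zero (S : AddSubgroup (Fin 3 → ℤ))
    (hS : ∀ v : Fin 3 → ℤ, (∀ n ∈ S, (J n).mulVec v = 0) → v = 0)
    (M : Matrix (Fin 3) (Fin 3) ℤ) (hM : ∀ n ∈ S, D.H (J n * M) = 1) : M = 0 := by
  ext i j
  have : (fun i => M i j) = 0 := by
    apply hS
    intro n hn
    have h := D.H_injective _ (hM n hn)
    funext k
    have := congrFun (congrFun h k) j
    rwa [Matrix.mul_apply] at this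
  exact congrFun this i

/-- Key algebraic statement. -/
theorem key (S : AddSubgroup (Fin 3 → ℤ))
    (hS : ∀ v : Fin 3 → ℤ, (∀ n ∈ S, (J n).mulVec v = 0) → v = 0)
    {ι : Type*} (b : ι → (K →ₗ[ℚ] ℚ)) (f : MvPolynomial ι ℚ)
    (hf : ∀ n ∈ S, MvPolynomial.aeval (fun i => b i (D.H (J n))) f = 0)
    (e : Matrix (Fin 3) (Fin 3) ℤ) :
    MvPolynomial.aeval (fun i => b i (D.H e)) f = 0 := by
  have hmem := (D.mem_alg_iff _).1 (D.poly_mem b f)
  rw [Finsupp.mem_span_range_iff_exists_finsupp] at hmem
  obtain ⟨c, hc⟩ := hmem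
  -- characters of the group `Multiplicative S`
  let ψ : Matrix (Fin 3) (Fin 3) ℤ → (Multiplicative S →* K) := fun M =>
    { toFun := fun n => (D.H (J (Multiplicative.toAdd n : S) * M) : K)
      map_one' := by simp [J_zero, H_zero]
      map_mul' := fun n m => by
        simp only [toAdd_mul, AddSubgroup.coe_add, J_add, add_mul, H_add, Units.val_mul] }
  have hψ : Function.Injective ψ := by
    intro M M' h
    rw [← sub_eq_zero]
    apply D.mat_eq_zero S hS
    intro n hn
    have h1 := DFunLike.congr_fun h (Multiplicative.ofAdd (⟨n, hn⟩ : S))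
    have h2 : D.H (J n * M) = D.H (J n * M') := Units.ext h1
    rw [mul_sub, sub_eq_add_neg, H_add, H_neg, h2, mul_inv_cancel]
  have hli : LinearIndependent K (fun M => ((ψ M : Multiplicative S →* K) :
      Multiplicative S → K)) :=
    (linearIndependent_monoidHom (Multiplicative S) K).comp ψ hψ
  have hc0 : c = 0 := by
    rw [linearIndependent_iff] at hli
    apply hli
    rw [Finsupp.linearCombination_apply]
    funext n
    have h1 := congrFun hc (J (Multiplicative.toAdd n : S))
    simp only [Finsupp.sum, Finset.sum_apply, Pi.smul_apply] at h1 ⊢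
    have h2 : algebraMap ℚ K (MvPolynomial.aeval
        (fun i => b i (D.H (J (Multiplicative.toAdd n : S)))) f) = 0 := by
      rw [hf _ (Multiplicative.toAdd n : S).2, map_zero]
    rw [h2] at h1
    exact h1
  have h1 := congrFun hc e
  rw [hc0, Finsupp.sum_zero_index, Pi.zero_apply] at h1
  exact (algebraMap ℚ K).injective (by rw [← h1, map_zero])

end Setup

end Pool.Agent.Work.MP_7de521_nt
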