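import Mathlib

/-!
A group which embeds with bounded image in a `ℚ_[p]`-vector space of dimension `< n` has no
finite-index subgroup isomorphic to a finite-index subgroup of `ℤ_[p] ^ n`.
-/

set_option autoImplicit false

namespace Pool.Agent.Work.MP_7de521_nt.Padic

variable {p : ℕ} [hp : Fact p.Prime]

/-- a bounded additive map out of a `ℤ_[p]`-module is `ℤ_[p]`-linear -/
theorem map_smul_of_bounded {M V : Type*} [AddCommGroup M] [Module ℤ_[p] M]
    [NormedAddCommGroup V] [NormedSpace ℚ_[p] V] (f : M →+ V) (C : ℝ) (hC : ∀ x, ‖f x‖ ≤ C)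
    (c : ℤ_[p]) (x : M) : f (c • x) = (c : ℚ_[p]) • f x := by
  have hC0 : 0 ≤ C := (norm_nonneg _).trans (hC 0)
  rw [← sub_eq_zero, ← norm_le_zero_iff]
  have hbound : ∀ n : ℕ, ‖f (c • x) - (c : ℚ_[p]) • f x‖ ≤ (p : ℝ)⁻¹ ^ n * (2 * C) := by
    intro n
    obtain ⟨d, hd⟩ := Ideal.mem_span_singleton'.1 (PadicInt.appr_spec n c)
    have hc : c = (c.appr n : ℤ_[p]) + d * (p : ℤ_[p]) ^ n := by rw [hd]; ring
    have h1 : f (c • x) = (c.appr n : ℕ) • f x + (p ^ n : ℕ) • f (d • x) := by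
      conv_lhs => rw [hc]
      rw [add_smul, map_add]
      congr 1
      · rw [← map_nsmul]
        congr 1
        rw [Nat.cast_smul_eq_nsmul]
      · rw [← map_nsmul]
        congr 1
        rw [mul_comm, mul_smul, ← Nat.cast_smul_eq_nsmul ℤ_[p], Nat.cast_pow]
    have h2 : (c : ℚ_[p]) • f x = (c.appr n : ℕ) • f x + (p ^ n : ℕ) • ((d : ℚ_[p]) • f x) := by
      conv_lhs => rw [hc]
      rw [PadicInt.coe_add, add_smul]
      congr 1
      · rw [PadicInt.coe_natCast, Nat.cast_smul_eq_nsmul]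
      · rw [PadicInt.coe_mul, PadicInt.coe_pow, PadicInt.coe_natCast, mul_comm, mul_smul,
          ← Nat.cast_smul_eq_nsmul ℚ_[p] (p ^ n), Nat.cast_pow]
    have h3 : f (c • x) - (c : ℚ_[p]) • f x = ((p : ℚ_[p]) ^ n) • (f (d • x) - (d : ℚ_[p]) • f x) := by
      rw [h1, h2, add_sub_add_left_eq_sub, ← smul_sub, ← Nat.cast_smul_eq_nsmul ℚ_[p] (p ^ n),
        Nat.cast_pow]
    rw [h3, norm_smul, norm_pow, Padic.norm_p]
    have h4 : ‖f (d • x) - (d : ℚ_[p]) • f x‖ ≤ 2 * C := by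
      refine (norm_sub_le _ _).trans ?_
      have : ‖(d : ℚ_[p]) • f x‖ ≤ C := by
        rw [norm_smul]
        have hd1 : ‖(d : ℚ_[p])‖ ≤ 1 := PadicInt.norm_le_one d
        calc ‖(d : ℚ_[p])‖ * ‖f x‖ ≤ 1 * C := by gcongr; exact hC x
          _ = C := one_mul C
      linarith [hC (d • x)]
    gcongr
  have hlim : Filter.Tendsto (fun n : ℕ => (p : ℝ)⁻¹ ^ n * (2 * C)) Filter.atTop (nhds (0 * (2 * C))) := by
    refine Filter.Tendsto.mul_const _ ?_
    refine tendsto_pow_atTop_nhds_zero_of_lt_one (by positivity) ?_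
    exact inv_lt_one_of_one_lt₀ (by exact_mod_cast hp.1.one_lt)
  rw [zero_mul] at hlim
  exact ge_of_tendsto' hlim hbound

/-- scaling a family of `p`-adic numbers into `ℤ_[p]` -/
theorem exists_scale {ι : Type*} [Fintype ι] (g : ι → ℚ_[p]) :
    ∃ (k : ℕ) (c : ι → ℤ_[p]), ∀ i, (c i : ℚ_[p]) = (p : ℚ_[p]) ^ k * g i := by
  have h1 : ∀ i, ∃ k : ℕ, ∀ j, k ≤ j → ‖(p : ℚ_[p]) ^ j * g i‖ ≤ 1 := by
    intro i
    have hlim : Filter.Tendsto (fun n : ℕ => (p : ℝ)⁻¹ ^ n * ‖g i‖) Filter.atTop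
        (nhds (0 * ‖g i‖)) := by
      refine Filter.Tendsto.mul_const _ ?_
      refine tendsto_pow_atTop_nhds_zero_of_lt_one (by positivity) ?_
      exact inv_lt_one_of_one_lt₀ (by exact_mod_cast hp.1.one_lt)
    rw [zero_mul] at hlim
    have := hlim.eventually (gt_mem_nhds zero_lt_one)
    obtain ⟨k, hk⟩ := Filter.eventually_atTop.1 this
    refine ⟨k, fun j hj => ?_⟩
    rw [norm_mul, norm_pow, Padic.norm_p]
    exact (hk j hj).le
  choose k hk using h1
  refine ⟨Finset.univ.sup k, fun i => ⟨(p : ℚ_[p]) ^ (Finset.univ.sup k) * g i,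
    hk i _ (Finset.le_sup (Finset.mem_univ i))⟩, fun i => rfl⟩

/-- No finite-index subgroup of a group that embeds with bounded image into a `ℚ_[p]`-vector space
of dimension `< n` is isomorphic to a finite-index subgroup of `ℤ_[p] ^ n`. -/
theorem not_commensurable {n : ℕ} {G : Type*} [Group G] {V : Type*} [NormedAddCommGroup V]
    [NormedSpace ℚ_[p] V] (W : Submodule ℚ_[p] V) [FiniteDimensional ℚ_[p] W]
    (hW : Module.finrank ℚ_[p] W < n) (ℓ : G →* Multiplicative V)
    (hinj : Function.Injective ℓ) (hmem : ∀ g, Multiplicative.toAdd (ℓ g) ∈ W)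
    (C : ℝ) (hbd : ∀ g, ‖Multiplicative.toAdd (ℓ g)‖ ≤ C) (H₁ : Subgroup G)
    (H₂ : AddSubgroup (Fin n → ℤ_[p])) (hfin : H₂.FiniteIndex) :
    IsEmpty (H₁ ≃* Multiplicative H₂) := by
  refine ⟨fun e => ?_⟩
  have hN : H₂.index ≠ 0 := hfin.index_ne_zero
  have hmemH : ∀ x : Fin n → ℤ_[p], H₂.index • x ∈ H₂ := fun x =>
    AddSubgroup.nsmul_index_mem H₂ x
  let f : (Fin n → ℤ_[p]) →+ V :=
    { toFun := fun x => Multiplicative.toAdd
        (ℓ ((e.symm (Multiplicative.ofAdd (⟨H₂.index • x, hmemH x⟩ : H₂)) : H₁) : G))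
      map_zero' := by
        have : (⟨H₂.index • (0 : Fin n → ℤ_[p]), hmemH 0⟩ : H₂) = 0 := by
          ext; simp
        rw [this]
        simp
      map_add' := fun x y => by
        have : (⟨H₂.index • (x + y), hmemH (x + y)⟩ : H₂) =
            ⟨H₂.index • x, hmemH x⟩ + ⟨H₂.index • y, hmemH y⟩ := by
          ext; simp [smul_add]
        rw [this, ofAdd_add, map_mul, Subgroup.coe_mul, map_mul, toAdd_mul] }
  have hfinj : Function.Injective f := by
    intro x y hxy
    have h1 := Subtype.ext (hinj (Multiplicative.toAdd.injective hxy))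
    have h2 := e.symm.injective h1
    have h3 := congrArg Subtype.val (Multiplicative.ofAdd.injective h2)
    have h4 : H₂.index • x = H₂.index • y := h3
    funext i
    have h5 := congrFun h4 i
    simp only [Pi.smul_apply, nsmul_eq_mul] at h5
    exact mul_left_cancel₀ (Nat.cast_ne_zero.2 hN) h5
  have hlin : ∀ (c : ℤ_[p]) (x : Fin n → ℤ_[p]), f (c • x) = (c : ℚ_[p]) • f x :=
    fun c x => map_smul_of_bounded f C (fun x => hbd _) c x
  have hmemf : ∀ x, f x ∈ W := fun x => hmem _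
  -- a linear relation
  let w : Fin n → W := fun i => ⟨f (Pi.single i 1), hmemf _⟩
  have hnot : ¬ LinearIndependent ℚ_[p] w := by
    intro hli
    have := hli.fintype_card_le_finrank
    rw [Fintype.card_fin] at this
    omega
  rw [Fintype.not_linearIndependent_iff] at hnot
  obtain ⟨g, hg, i, hi⟩ := hnot
  obtain ⟨k, c, hc⟩ := exists_scale g
  have hfc : f c = 0 := by
    have h1 : c = ∑ i, c i • (Pi.single i 1 : Fin n → ℤ_[p]) := by
      funext j
      rw [Finset.sum_apply, Finset.sum_eq_single j]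
      · simp
      · intro i _ hij
        simp [Pi.single_apply, hij.symm]
      · intro h; exact absurd (Finset.mem_univ _) h
    rw [h1, map_sum]
    have h2 : ∑ i, f (c i • (Pi.single i 1 : Fin n → ℤ_[p])) =
        (p : ℚ_[p]) ^ k • ∑ i, g i • ((w i : W) : V) := by
      rw [Finset.smul_sum]
      refine Finset.sum_congr rfl fun i _ => ?_
      rw [hlin, hc, mul_smul]
    rw [h2]
    have h3 : ∑ i, g i • ((w i : W) : V) = ((∑ i, g i • w i : W) : V) := by simp
    rw [h3, hg]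
    simp
  have hc0 : c = 0 := hfinj (by rw [hfc, map_zero])
  apply hi
  have h1 := hc i
  rw [hc0] at h1
  have hpk : (p : ℚ_[p]) ^ k ≠ 0 := pow_ne_zero _ (Nat.cast_ne_zero.2 hp.1.ne_zero)
  have h2 : (p : ℚ_[p]) ^ k * g i = 0 := by rw [← h1]; simp
  exact (mul_eq_zero.1 h2).resolve_left hpk

end Pool.Agent.Work.MP_7de521_nt.Padic
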