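import Pool.Agent.Work.MP_7de521_nt.PLog

/-!
For the roots `z` of `F = X ^ 6 - 5 X ^ 2 - 1` in `ℂ_[p]` the logarithm of
`(1 + m z) / (1 - m z)` is `α z + β z ^ 3 + γ z ^ 5` with `α, β, γ ∈ ℚ_[p]` independent of `z`.
-/

set_option autoImplicit false

open Filter Topology Polynomial Pool.Agent.Work.MP7de.PLog

namespace Pool.Agent.Work.MP_7de521_nt.Padic

variable {p : ℕ} [hp : Fact p.Prime]

/-- The set of roots of `F` in `ℂ_[p]`. -/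
abbrev Roots (p : ℕ) [Fact p.Prime] : Type := {z : ℂ_[p] // z ^ 6 - 5 * z ^ 2 - 1 = 0}

theorem norm_intCast_le_one (n : ℤ) : ‖(n : ℂ_[p])‖ ≤ 1 := by
  have h := norm_natCast_le_one p (E := ℂ_[p]) n.natAbs
  rcases Int.natAbs_eq n with h1 | h1
  · rw [h1, Int.cast_natCast]; exact h
  · rw [h1, Int.cast_neg, norm_neg, Int.cast_natCast]; exact h

theorem norm_root_le_one (z : Roots p) : ‖(z : ℂ_[p])‖ ≤ 1 := by
  by_contra hlt
  push Not at hlt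
  have h := z.2
  have h1 : (z : ℂ_[p]) ^ 6 = 5 * (z : ℂ_[p]) ^ 2 + 1 := by linear_combination h
  have h2 : ‖5 * (z : ℂ_[p]) ^ 2 + 1‖ ≤ ‖(z : ℂ_[p])‖ ^ 2 := by
    refine (IsUltrametricDist.norm_add_le_max _ _).trans (max_le ?_ ?_)
    · rw [norm_mul, norm_pow]
      have h5 : ‖(5 : ℂ_[p])‖ ≤ 1 := by
        have := norm_natCast_le_one p (E := ℂ_[p]) 5
        simpa using this
      calc ‖(5 : ℂ_[p])‖ * ‖(z : ℂ_[p])‖ ^ 2 ≤ 1 * ‖(z : ℂ_[p])‖ ^ 2 := by gcongr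
        _ = _ := one_mul _
    · rw [norm_one]
      exact one_le_pow₀ hlt.le
  rw [← h1, norm_pow] at h2
  have h3 : ‖(z : ℂ_[p])‖ ^ 2 < ‖(z : ℂ_[p])‖ ^ 6 := by
    apply pow_lt_pow_right₀ hlt; norm_num
  linarith

/-- the element `(1 + m z) / (1 - m z)` -/
noncomputable def hh (m : ℤ) (z : ℂ_[p]) : ℂ_[p] := (1 + m * z) / (1 - m * z)

theorem norm_mul_root_lt (m : ℤ) (hm : (2 * p : ℤ) ∣ m) (z : Roots p) :
    ‖(m : ℂ_[p]) * z‖ ≤ ‖(2 : ℂ_[p])‖ * ‖(p : ℂ_[p])‖ := by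
  obtain ⟨c, rfl⟩ := hm
  push_cast
  rw [norm_mul, norm_mul, norm_mul]
  calc ‖(2 : ℂ_[p])‖ * ‖(p : ℂ_[p])‖ * ‖(c : ℂ_[p])‖ * ‖(z : ℂ_[p])‖
      ≤ ‖(2 : ℂ_[p])‖ * ‖(p : ℂ_[p])‖ * 1 * 1 := by
        gcongr
        · exact norm_intCast_le_one c
        · exact norm_root_le_one z
    _ = _ := by ring

theorem norm_one_sub (m : ℤ) (hm : (2 * p : ℤ) ∣ m) (z : Roots p) :
    ‖1 - (m : ℂ_[p]) * z‖ = 1 := by
  have h1 := norm_mul_root_lt m hm z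
  have h2 : ‖(m : ℂ_[p]) * z‖ < 1 := by
    refine h1.trans_lt ?_
    have h2le : ‖(2 : ℂ_[p])‖ ≤ 1 := by
      have := norm_natCast_le_one p (E := ℂ_[p]) 2
      simpa using this
    calc ‖(2 : ℂ_[p])‖ * ‖(p : ℂ_[p])‖ ≤ 1 * ‖(p : ℂ_[p])‖ := by gcongr
      _ = ‖(p : ℂ_[p])‖ := one_mul _
      _ < 1 := norm_p_lt_one
  have h3 : ‖(1 : ℂ_[p])‖ ≠ ‖-((m : ℂ_[p]) * z)‖ := by
    rw [norm_neg, norm_one]; exact h2.ne'
  rw [sub_eq_add_neg, IsUltrametricDist.norm_add_eq_max_of_norm_ne_norm h3, norm_neg, norm_one,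
    max_eq_left h2.le]

theorem one_sub_ne (m : ℤ) (hm : (2 * p : ℤ) ∣ m) (z : Roots p) :
    1 - (m : ℂ_[p]) * z ≠ 0 := by
  rw [← norm_pos_iff, norm_one_sub m hm z]; exact one_pos

theorem norm_hh_sub_one (m : ℤ) (hm : (2 * p : ℤ) ∣ m) (z : Roots p) :
    ‖hh m (z : ℂ_[p]) - 1‖ ≤ ‖(2 : ℂ_[p])‖ * ‖(p : ℂ_[p])‖ := by
  have h1 : hh m (z : ℂ_[p]) - 1 = 2 * ((m : ℂ_[p]) * z) / (1 - m * z) := by
    rw [hh]
    have := one_sub_ne m hm z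
    field_simp
    ring
  rw [h1, norm_div, norm_one_sub m hm z, div_one, norm_mul]
  have h2le : ‖(2 : ℂ_[p])‖ ≤ 1 := by
    have := norm_natCast_le_one p (E := ℂ_[p]) 2
    simpa using this
  calc ‖(2 : ℂ_[p])‖ * ‖(m : ℂ_[p]) * z‖ ≤ 1 * (‖(2 : ℂ_[p])‖ * ‖(p : ℂ_[p])‖) := by
        gcongr
        exact norm_mul_root_lt m hm z
    _ = _ := one_mul _

/-- the identity function on the roots -/
noncomputable def idf (p : ℕ) [Fact p.Prime] : Roots p → ℂ_[p] := fun z => (z : ℂ_[p])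

/-- The algebra of functions on the roots generated over `ℚ_[p]` by the identity. -/
noncomputable def RA (p : ℕ) [Fact p.Prime] : Subalgebra ℚ_[p] (Roots p → ℂ_[p]) :=
  Algebra.adjoin ℚ_[p] {idf p}

theorem isIntegral_id : IsIntegral ℚ_[p] (idf p) := by
  refine ⟨X ^ 6 - C 5 * X ^ 2 - C 1, by monicity!, ?_⟩
  rw [← aeval_def]
  funext z
  have h := z.2
  simpa [idf, map_ofNat (algebraMap ℚ_[p] ℂ_[p]) 5] using h

instance : FiniteDimensional ℚ_[p] (Subalgebra.toSubmodule (RA p)) :=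
  Module.Finite.iff_fg.2 (isIntegral_id (p := p)).fg_adjoin_singleton

theorem mem_RA_iff (f : Roots p → ℂ_[p]) (hf : f ∈ RA p) :
    ∃ c : Fin 6 → ℚ_[p], ∀ z : Roots p, f z = ∑ i, (c i) • (z : ℂ_[p]) ^ (i : ℕ) := by
  rw [RA, Algebra.adjoin_singleton_eq_range_aeval] at hf
  obtain ⟨P, rfl⟩ := hf
  let F : ℚ_[p][X] := X ^ 6 - C 5 * X ^ 2 - C 1
  have hF : F.Monic := by
    change (X ^ 6 - C 5 * X ^ 2 - C 1 : ℚ_[p][X]).Monic
    monicity!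
  have hdeg : F.natDegree = 6 := by
    change (X ^ 6 - C 5 * X ^ 2 - C 1 : ℚ_[p][X]).natDegree = 6
    compute_degree!
  refine ⟨fun i => (P %ₘ F).coeff i, fun z => ?_⟩
  have h1 : aeval (z : ℂ_[p]) P = aeval (z : ℂ_[p]) (P %ₘ F) := by
    conv_lhs => rw [← Polynomial.modByMonic_add_div P F]
    rw [map_add, map_mul]
    have h2 : aeval (z : ℂ_[p]) F = 0 := by
      have h := z.2
      simpa [F, map_ofNat (algebraMap ℚ_[p] ℂ_[p]) 5] using h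
    rw [h2, zero_mul, add_zero]
  have h3 : (aeval (idf p) P) z = aeval (z : ℂ_[p]) P := by
    have := Polynomial.aeval_algHom_apply (Pi.evalAlgHom ℚ_[p] (fun _ : Roots p => ℂ_[p]) z)
      (idf p) P
    rw [Pi.evalAlgHom_apply, Pi.evalAlgHom_apply] at this
    exact this.symm
  change (aeval (idf p) P) z = _
  rw [h3, h1, aeval_eq_sum_range' (n := 6)]
  · rw [Finset.sum_range]
  · rw [← hdeg]
    exact Polynomial.natDegree_modByMonic_lt P hF (by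
      intro h
      have := congrArg Polynomial.natDegree h
      rw [hdeg, natDegree_one] at this
      norm_num at this)

/-- an explicit inverse of `1 - m z` -/
theorem inv_mem (m : ℤ) (hm : (2 * p : ℤ) ∣ m) :
    (fun z : Roots p => (1 - (m : ℂ_[p]) * z)⁻¹) ∈ RA p := by
  set N : ℤ := 1 - 5 * m ^ 4 - m ^ 6 with hN
  have hN0 : N ≠ 0 := by
    intro h0
    obtain ⟨c, hc⟩ := hm
    have : (2 : ℤ) ∣ 1 := by
      have h1 : (1 : ℤ) = 5 * m ^ 4 + m ^ 6 := by linarith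
      rw [h1, hc]
      exact ⟨p * c * (5 * (2 * p * c) ^ 3 + (2 * p * c) ^ 5), by ring⟩
    norm_num at this
  have hN1 : (N : ℂ_[p]) ≠ 0 := Int.cast_ne_zero.2 hN0
  have hid : idf p ∈ RA p := Algebra.subset_adjoin rfl
  have key : (fun z : Roots p => (1 - (m : ℂ_[p]) * z)⁻¹) =
      (N : ℚ_[p])⁻¹ • ((1 - 5 * m ^ 4 : ℚ_[p]) • (1 : Roots p → ℂ_[p])
        + (m - 5 * m ^ 5 : ℚ_[p]) • idf p
        + (m ^ 2 : ℚ_[p]) • idf p ^ 2
        + (m ^ 3 : ℚ_[p]) • idf p ^ 3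
        + (m ^ 4 : ℚ_[p]) • idf p ^ 4
        + (m ^ 5 : ℚ_[p]) • idf p ^ 5) := by
    funext z
    have h1 := one_sub_ne m hm z
    have hz := z.2
    simp only [Pi.smul_apply, Pi.add_apply,
      Algebra.smul_def, map_inv₀, map_sub, map_mul, map_pow, map_intCast, map_ofNat, map_one]
    apply inv_eq_of_mul_eq_one_right
    rw [← mul_right_inj' hN1]
    have h2 : (N : ℂ_[p]) = 1 - 5 * (m : ℂ_[p]) ^ 4 - (m : ℂ_[p]) ^ 6 := by
      rw [hN]; push_cast; ring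
    have h3 : (1 - (m : ℂ_[p]) * z) * ((1 - 5 * (m : ℂ_[p]) ^ 4) * 1 +
      ((m : ℂ_[p]) - 5 * (m : ℂ_[p]) ^ 5) * z +
      (m : ℂ_[p]) ^ 2 * (z : ℂ_[p]) ^ 2 + (m : ℂ_[p]) ^ 3 * (z : ℂ_[p]) ^ 3 +
      (m : ℂ_[p]) ^ 4 * (z : ℂ_[p]) ^ 4 + (m : ℂ_[p]) ^ 5 * (z : ℂ_[p]) ^ 5) = (N : ℂ_[p]) := by
      rw [h2]
      linear_combination (-(m : ℂ_[p]) ^ 6) * hz
    calc (N : ℂ_[p]) * ((1 - (m : ℂ_[p]) * z) * ((N : ℂ_[p])⁻¹ * ((1 - 5 * (m : ℂ_[p]) ^ 4) * 1 +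
      ((m : ℂ_[p]) - 5 * (m : ℂ_[p]) ^ 5) * z +
      (m : ℂ_[p]) ^ 2 * (z : ℂ_[p]) ^ 2 + (m : ℂ_[p]) ^ 3 * (z : ℂ_[p]) ^ 3 +
      (m : ℂ_[p]) ^ 4 * (z : ℂ_[p]) ^ 4 + (m : ℂ_[p]) ^ 5 * (z : ℂ_[p]) ^ 5)))
      = ((N : ℂ_[p]) * (N : ℂ_[p])⁻¹) * ((1 - (m : ℂ_[p]) * z) * ((1 - 5 * (m : ℂ_[p]) ^ 4) * 1 +
      ((m : ℂ_[p]) - 5 * (m : ℂ_[p]) ^ 5) * z +
      (m : ℂ_[p]) ^ 2 * (z : ℂ_[p]) ^ 2 + (m : ℂ_[p]) ^ 3 * (z : ℂ_[p]) ^ 3 +
      (m : ℂ_[p]) ^ 4 * (z : ℂ_[p]) ^ 4 + (m : ℂ_[p]) ^ 5 * (z : ℂ_[p]) ^ 5)) := by ring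
      _ = (N : ℂ_[p]) * 1 := by rw [mul_inv_cancel₀ hN1, h3]; ring
  rw [key]
  refine Subalgebra.smul_mem _ ?_ _
  refine add_mem (add_mem (add_mem (add_mem (add_mem ?_ ?_) ?_) ?_) ?_) ?_
  · exact Subalgebra.smul_mem _ (one_mem _) _
  · exact Subalgebra.smul_mem _ hid _
  · exact Subalgebra.smul_mem _ (pow_mem hid _) _
  · exact Subalgebra.smul_mem _ (pow_mem hid _) _
  · exact Subalgebra.smul_mem _ (pow_mem hid _) _
  · exact Subalgebra.smul_mem _ (pow_mem hid _) _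

theorem hh_mem (m : ℤ) (hm : (2 * p : ℤ) ∣ m) : (fun z : Roots p => hh m (z : ℂ_[p])) ∈ RA p := by
  have hid : idf p ∈ RA p := Algebra.subset_adjoin rfl
  have h1 : (fun z : Roots p => hh m (z : ℂ_[p])) =
      ((1 : Roots p → ℂ_[p]) + (m : ℚ_[p]) • idf p) *
        (fun z : Roots p => (1 - (m : ℂ_[p]) * z)⁻¹) := by
    funext z
    simp [hh, idf, div_eq_mul_inv, Algebra.smul_def]
  rw [h1]
  exact mul_mem (add_mem (one_mem _) (Subalgebra.smul_mem _ hid _)) (inv_mem m hm)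

/-- the logarithm of `hh m`, as a function on the roots -/
noncomputable def lam (p : ℕ) [Fact p.Prime] (m : ℤ) : Roots p → ℂ_[p] :=
  fun z => plog p (hh m (z : ℂ_[p]))

theorem lam_mem (m : ℤ) (hm : (2 * p : ℤ) ∣ m) : lam p m ∈ RA p := by
  have hcl : IsClosed ((Subalgebra.toSubmodule (RA p) : Submodule ℚ_[p] (Roots p → ℂ_[p])) :
      Set (Roots p → ℂ_[p])) := Submodule.closed_of_finiteDimensional _
  have hlim : Tendsto (fun n => (fun z : Roots p => u p (hh m (z : ℂ_[p])) n)) atTop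
      (𝓝 (lam p m)) := by
    rw [tendsto_pi_nhds]
    intro z
    exact tendsto_u _ (norm_hh_sub_one m hm z)
  refine hcl.mem_of_tendsto hlim (Eventually.of_forall fun n => ?_)
  have h1 : (fun z : Roots p => u p (hh m (z : ℂ_[p])) n) =
      ((p : ℚ_[p]) ^ n)⁻¹ • ((fun z : Roots p => hh m (z : ℂ_[p])) ^ (p ^ n) - 1) := by
    funext z
    simp [u, Algebra.smul_def, div_eq_inv_mul]
  rw [h1]
  exact Subalgebra.smul_mem _ (sub_mem (pow_mem (hh_mem m hm) _) (one_mem _)) _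

/-- `-z` is a root -/
noncomputable def negRoot (z : Roots p) : Roots p := ⟨-(z : ℂ_[p]), by
  have := z.2
  linear_combination this⟩

theorem lam_neg (m : ℤ) (hm : (2 * p : ℤ) ∣ m) (z : Roots p) :
    lam p m (negRoot z) = - lam p m z := by
  have h1 : hh m (z : ℂ_[p]) * hh m ((negRoot z : Roots p) : ℂ_[p]) = 1 := by
    have h2 := one_sub_ne m hm z
    have h3 := one_sub_ne m hm (negRoot z)
    change 1 - (m : ℂ_[p]) * -(z : ℂ_[p]) ≠ 0 at h3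
    change (1 + (m : ℂ_[p]) * z) / (1 - m * z) * ((1 + m * -(z : ℂ_[p])) / (1 - m * -(z : ℂ_[p]))) = 1
    rw [mul_neg, sub_neg_eq_add] at h3
    rw [mul_neg, sub_neg_eq_add, ← sub_eq_add_neg]
    field_simp
  have h2 := plog_mul _ _ (norm_hh_sub_one m hm z) (norm_hh_sub_one m hm (negRoot z))
  rw [h1] at h2
  have h3 : plog p (1 : ℂ_[p]) = 0 := by
    have := norm_plog (p := p) (1 : ℂ_[p]) (by rw [sub_self, norm_zero]; positivity)
    rw [sub_self, norm_zero] at this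
    exact norm_eq_zero.1 this
  rw [h3] at h2
  change plog p (hh m ((negRoot z : Roots p) : ℂ_[p])) = - plog p (hh m (z : ℂ_[p]))
  linear_combination -h2

/-- The logarithm is an odd polynomial of degree `≤ 5` in the root, with coefficients in `ℚ_[p]`. -/
theorem lam_eq (m : ℤ) (hm : (2 * p : ℤ) ∣ m) : ∃ c : Fin 3 → ℚ_[p], ∀ z : Roots p,
    lam p m z = c 0 • (z : ℂ_[p]) + c 1 • (z : ℂ_[p]) ^ 3 + c 2 • (z : ℂ_[p]) ^ 5 := by
  obtain ⟨c, hc⟩ := mem_RA_iff _ (lam_mem m hm)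
  refine ⟨![c 1, c 3, c 5], fun z => ?_⟩
  have h1 := hc z
  have h2 := hc (negRoot z)
  rw [lam_neg m hm z] at h2
  change -lam p m z = ∑ i, c i • (-(z : ℂ_[p])) ^ (i : ℕ) at h2
  simp only [Fin.sum_univ_succ, Algebra.smul_def] at h1 h2
  simp only [Algebra.smul_def]
  have h3 : (2 : ℂ_[p]) * lam p m z = 2 * ((algebraMap ℚ_[p] ℂ_[p]) (c 1) * z +
    (algebraMap ℚ_[p] ℂ_[p]) (c 3) * z ^ 3 + (algebraMap ℚ_[p] ℂ_[p]) (c 5) * z ^ 5) := by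
    have h4 : (2 : ℂ_[p]) * lam p m z = lam p m z - (- lam p m z) := by ring
    rw [h4, h2]
    conv_lhs => rw [h1]
    simp
    ring
  exact mul_left_cancel₀ two_ne_zero h3

/-- four logarithms satisfy a linear relation over `ℚ_[p]` -/
theorem exists_relation (m : Fin 4 → ℤ) (hm : ∀ s, (2 * p : ℤ) ∣ m s) :
    ∃ κ : Fin 4 → ℚ_[p], κ ≠ 0 ∧ ∀ z : Roots p, ∑ s, κ s • lam p (m s) z = 0 := by
  choose c hc using fun s => lam_eq (m s) (hm s)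
  have hnot : ¬ LinearIndependent ℚ_[p] c := by
    intro hli
    have := hli.fintype_card_le_finrank
    simp at this
  rw [Fintype.not_linearIndependent_iff] at hnot
  obtain ⟨κ, hκ, i, hi⟩ := hnot
  refine ⟨κ, fun h => hi (by rw [h]; rfl), fun z => ?_⟩
  have h0 := congrFun hκ 0
  have h1 := congrFun hκ 1
  have h2 := congrFun hκ 2
  simp only [Finset.sum_apply, Pi.smul_apply, smul_eq_mul, Pi.zero_apply] at h0 h1 h2
  have h3 : ∑ s, κ s • lam p (m s) z = (∑ s, κ s * c s 0) • (z : ℂ_[p]) +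
      (∑ s, κ s * c s 1) • (z : ℂ_[p]) ^ 3 + (∑ s, κ s * c s 2) • (z : ℂ_[p]) ^ 5 := by
    simp only [hc, Finset.sum_smul, smul_add, Finset.sum_add_distrib, mul_smul]
  rw [h3, h0, h1, h2]
  simp

end Pool.Agent.Work.MP_7de521_nt.Padic
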