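import Mathlib

/-!
The `p`-adic logarithm on the disc `‖z - 1‖ ≤ ‖2p‖` of a complete ultrametric field over `ℚ_[p]`,
as the limit of `(z ^ (p ^ n) - 1) / p ^ n`.
-/

set_option autoImplicit false

open Filter Topology

namespace Pool.Agent.Work.MP7de.PLog

variable {p : ℕ} [hp : Fact p.Prime]
variable {E : Type*} [NormedField E] [NormedAlgebra ℚ_[p] E] [IsUltrametricDist E]

omit [IsUltrametricDist E] in
theorem norm_natCast (n : ℕ) : ‖(n : E)‖ = ‖(n : ℚ_[p])‖ := by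
  have : ((n : ℚ_[p]) • (1 : E)) = (n : E) := by
    rw [Algebra.smul_def, mul_one, map_natCast]
  rw [← this, norm_smul, norm_one, mul_one]

omit [IsUltrametricDist E] in
theorem norm_p : ‖(p : E)‖ = (p : ℝ)⁻¹ := by
  rw [norm_natCast (p := p), Padic.norm_p]

omit [IsUltrametricDist E] in
theorem norm_p_pos : 0 < ‖(p : E)‖ := by
  rw [norm_p]; exact inv_pos.2 (by exact_mod_cast hp.1.pos)

omit [IsUltrametricDist E] in
theorem norm_p_lt_one : ‖(p : E)‖ < 1 := by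
  rw [norm_p]; exact inv_lt_one_of_one_lt₀ (by exact_mod_cast hp.1.one_lt)

end Pool.Agent.Work.MP7de.PLog

namespace Pool.Agent.Work.MP7de.PLog

theorem norm_natCast_le_one (p : ℕ) [Fact p.Prime] {E : Type*} [NormedField E]
    [NormedAlgebra ℚ_[p] E] (n : ℕ) : ‖(n : E)‖ ≤ 1 := by
  rw [norm_natCast (p := p)]
  exact_mod_cast Padic.norm_int_le_one (p := p) (n : ℤ)

theorem norm_two_pos (p : ℕ) [Fact p.Prime] {E : Type*} [NormedField E]
    [NormedAlgebra ℚ_[p] E] : 0 < ‖(2 : E)‖ := by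
  have : (2 : E) = ((2 : ℕ) : E) := by norm_num
  rw [this, norm_natCast (p := p)]
  simp

variable {p : ℕ} [hp : Fact p.Prime]
variable {E : Type*} [NormedField E] [NormedAlgebra ℚ_[p] E] [IsUltrametricDist E]

omit [IsUltrametricDist E] in
/-- if `p` is odd then `‖2‖ = 1` -/
theorem norm_two_of_odd (h : p ≠ 2) : ‖(2 : E)‖ = 1 := by
  have : (2 : E) = ((2 : ℕ) : E) := by norm_num
  rw [this, norm_natCast (p := p)]
  have : ‖((2 : ℕ) : ℚ_[p])‖ = 1 := by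
    rw [Padic.norm_natCast_eq_one_iff]
    exact (Nat.coprime_primes hp.1 Nat.prime_two).2 h
  exact this

/-- the basic estimate -/
theorem norm_pow_p_sub (w : E) (hw : ‖w‖ ≤ ‖(p : E)‖) :
    ‖(1 + w) ^ p - 1 - p * w‖ ≤ ‖(p : E)‖ * ‖w‖ ^ 2 / ‖(2 : E)‖ := by
  have hw1 : ‖w‖ ≤ 1 := hw.trans (norm_p_lt_one (p := p)).le
  have h2 := norm_two_pos p (E := E)
  have hexp : (1 + w) ^ p - 1 - p * w =
      ∑ k ∈ Finset.Ico 2 (p + 1), w ^ k * (p.choose k : E) := by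
    rw [add_comm 1 w, add_pow]
    simp only [one_pow, mul_one]
    rw [Finset.range_eq_Ico, Finset.sum_eq_sum_Ico_succ_bot (by omega),
      Finset.sum_eq_sum_Ico_succ_bot (by have := hp.1.two_le; omega)]
    simp
    ring
  rw [hexp]
  have hpos : 0 ≤ ‖(p : E)‖ * ‖w‖ ^ 2 / ‖(2 : E)‖ := by positivity
  refine IsUltrametricDist.norm_sum_le_of_forall_le_of_nonneg hpos ?_
  intro k hk
  rw [Finset.mem_Ico] at hk
  rw [norm_mul, norm_pow]
  have h2le : ‖(2 : E)‖ ≤ 1 := by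
    have := norm_natCast_le_one p (E := E) 2
    simpa using this
  rw [le_div_iff₀ h2]
  by_cases hkp : k = p
  · subst hkp
    simp only [Nat.choose_self, Nat.cast_one, norm_one, mul_one]
    by_cases h : k = 2
    · subst h
      have : ‖((2 : ℕ) : E)‖ = ‖(2 : E)‖ := by norm_num
      rw [this]
      exact le_of_eq (by ring)
    · rw [norm_two_of_odd h, mul_one]
      have h3 : 3 ≤ k := by have := hp.1.two_le; omega
      calc ‖w‖ ^ k ≤ ‖w‖ ^ 3 := pow_le_pow_of_le_one (norm_nonneg _) hw1 h3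
        _ = ‖w‖ * ‖w‖ ^ 2 := by ring
        _ ≤ ‖(k : E)‖ * ‖w‖ ^ 2 := by gcongr
  · have hlt : k < p := by omega
    have hdvd : p ∣ p.choose k := hp.1.dvd_choose_self (by omega) hlt
    obtain ⟨c, hc⟩ := hdvd
    have hchoose : ‖(p.choose k : E)‖ ≤ ‖(p : E)‖ := by
      rw [hc, Nat.cast_mul, norm_mul]
      calc ‖(p : E)‖ * ‖(c : E)‖ ≤ ‖(p : E)‖ * 1 := by
            gcongr; exact norm_natCast_le_one p c
        _ = _ := mul_one _
    calc ‖w‖ ^ k * ‖(p.choose k : E)‖ * ‖(2 : E)‖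
        ≤ ‖w‖ ^ 2 * ‖(p : E)‖ * 1 := by
          have hk2 := pow_le_pow_of_le_one (norm_nonneg w) hw1 hk.1
          gcongr ?_ * ?_ * ?_
      _ = ‖(p : E)‖ * ‖w‖ ^ 2 := by ring

/-- exact size of `z ^ (p ^ n) - 1` -/
theorem norm_pow_sub_one (z : E) (hz : ‖z - 1‖ ≤ ‖(2 : E)‖ * ‖(p : E)‖) (n : ℕ) :
    ‖z ^ (p ^ n) - 1‖ = ‖(p : E)‖ ^ n * ‖z - 1‖ := by
  have h2 := norm_two_pos p (E := E)
  have hp0 := norm_p_pos (p := p) (E := E)
  have hp1 := norm_p_lt_one (p := p) (E := E)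
  have h2le : ‖(2 : E)‖ ≤ 1 := by
    have := norm_natCast_le_one p (E := E) 2
    simpa using this
  induction n with
  | zero => simp
  | succ n ih =>
    set w := z ^ (p ^ n) - 1 with hw
    have hwle : ‖w‖ ≤ ‖(2 : E)‖ * ‖(p : E)‖ := by
      rw [ih]
      calc ‖(p : E)‖ ^ n * ‖z - 1‖ ≤ 1 * ‖z - 1‖ := by
            gcongr; exact pow_le_one₀ hp0.le hp1.le
        _ ≤ _ := by rw [one_mul]; exact hz
    have hwle' : ‖w‖ ≤ ‖(p : E)‖ := hwle.trans (by
      calc ‖(2 : E)‖ * ‖(p : E)‖ ≤ 1 * ‖(p : E)‖ := by gcongr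
        _ = _ := one_mul _)
    have hz1 : z ^ (p ^ (n + 1)) - 1 = ((1 + w) ^ p - 1 - p * w) + p * w := by
      rw [hw, pow_succ, pow_mul]; ring
    by_cases hw0 : w = 0
    · rw [hz1, hw0]
      have : ‖z - 1‖ = 0 := by
        rw [hw0, norm_zero] at ih
        rcases mul_eq_zero.1 ih.symm with h | h
        · exact absurd h (pow_pos hp0 n).ne'
        · exact h
      simp [this]
    · have hlt : ‖(1 + w) ^ p - 1 - p * w‖ < ‖(p : E) * w‖ := by
        refine (norm_pow_p_sub w hwle').trans_lt ?_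
        rw [norm_mul, div_lt_iff₀ h2]
        have hw0' : 0 < ‖w‖ := norm_pos_iff.2 hw0
        calc ‖(p : E)‖ * ‖w‖ ^ 2 = ‖(p : E)‖ * ‖w‖ * ‖w‖ := by ring
          _ ≤ ‖(p : E)‖ * ‖w‖ * (‖(2 : E)‖ * ‖(p : E)‖) := by gcongr
          _ < ‖(p : E)‖ * ‖w‖ * (‖(2 : E)‖ * 1) := by gcongr
          _ = _ := by ring
      rw [hz1, IsUltrametricDist.norm_add_eq_max_of_norm_ne_norm hlt.ne, max_eq_right hlt.le,
        norm_mul, ih, pow_succ]
      ring

/-- the approximating sequence -/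
noncomputable def u (p : ℕ) {E : Type*} [NormedField E] (z : E) (n : ℕ) : E :=
  (z ^ (p ^ n) - 1) / (p : E) ^ n

theorem norm_u_succ_sub (z : E) (hz : ‖z - 1‖ ≤ ‖(2 : E)‖ * ‖(p : E)‖) (n : ℕ) :
    ‖u p z (n + 1) - u p z n‖ ≤ ‖z - 1‖ * ‖(p : E)‖ ^ (n + 1) := by
  have h2 := norm_two_pos p (E := E)
  have hp0 := norm_p_pos (p := p) (E := E)
  have hp1 := norm_p_lt_one (p := p) (E := E)
  have hpne : (p : E) ≠ 0 := norm_pos_iff.1 hp0
  have h2le : ‖(2 : E)‖ ≤ 1 := by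
    have := norm_natCast_le_one p (E := E) 2
    simpa using this
  set w := z ^ (p ^ n) - 1 with hw
  have hwn := norm_pow_sub_one z hz n
  rw [← hw] at hwn
  have hwle : ‖w‖ ≤ ‖(2 : E)‖ * ‖(p : E)‖ ^ (n + 1) := by
    rw [hwn, pow_succ]
    calc ‖(p : E)‖ ^ n * ‖z - 1‖ ≤ ‖(p : E)‖ ^ n * (‖(2 : E)‖ * ‖(p : E)‖) := by gcongr
      _ = _ := by ring
  have hwle' : ‖w‖ ≤ ‖(p : E)‖ := hwle.trans (by
    calc ‖(2 : E)‖ * ‖(p : E)‖ ^ (n + 1) ≤ 1 * ‖(p : E)‖ ^ 1 := by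
          gcongr ?_ * ?_
          exact pow_le_pow_of_le_one hp0.le hp1.le (by omega)
      _ = _ := by ring)
  have hz1 : u p z (n + 1) - u p z n = ((1 + w) ^ p - 1 - p * w) / (p : E) ^ (n + 1) := by
    rw [u, u, ← hw]
    have : z ^ (p ^ (n + 1)) = (1 + w) ^ p := by rw [hw, pow_succ, pow_mul]; ring
    rw [this, pow_succ]
    field_simp
  rw [hz1, norm_div, norm_pow, div_le_iff₀ (pow_pos hp0 _)]
  refine (norm_pow_p_sub w hwle').trans ?_
  rw [div_le_iff₀ h2]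
  calc ‖(p : E)‖ * ‖w‖ ^ 2 = ‖(p : E)‖ * ‖w‖ * ‖w‖ := by ring
    _ ≤ ‖(p : E)‖ * ‖w‖ * (‖(2 : E)‖ * ‖(p : E)‖ ^ (n + 1)) := by gcongr
    _ = ‖(p : E)‖ * (‖(p : E)‖ ^ n * ‖z - 1‖) * (‖(2 : E)‖ * ‖(p : E)‖ ^ (n + 1)) := by rw [hwn]
    _ = ‖z - 1‖ * ‖(p : E)‖ ^ (n + 1) * ‖(p : E)‖ ^ (n + 1) * ‖(2 : E)‖ := by ring

theorem cauchySeq_u (z : E) (hz : ‖z - 1‖ ≤ ‖(2 : E)‖ * ‖(p : E)‖) : CauchySeq (u p z) := by
  have hp0 := norm_p_pos (p := p) (E := E)
  have hp1 := norm_p_lt_one (p := p) (E := E)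
  refine cauchySeq_of_le_geometric ‖(p : E)‖ (‖z - 1‖ * ‖(p : E)‖) hp1 ?_
  intro n
  rw [dist_comm, dist_eq_norm]
  refine (norm_u_succ_sub z hz n).trans (le_of_eq ?_)
  rw [pow_succ]; ring

variable [CompleteSpace E]

/-- the `p`-adic logarithm -/
noncomputable def plog (p : ℕ) {E : Type*} [NormedField E] (z : E) : E := by
  classical
  exact if h : ∃ l, Tendsto (u p z) atTop (𝓝 l) then h.choose else 0

theorem tendsto_u (z : E) (hz : ‖z - 1‖ ≤ ‖(2 : E)‖ * ‖(p : E)‖) :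
    Tendsto (u p z) atTop (𝓝 (plog p z)) := by
  have h : ∃ l, Tendsto (u p z) atTop (𝓝 l) := cauchySeq_tendsto_of_complete (cauchySeq_u z hz)
  rw [plog, dif_pos h]
  exact h.choose_spec

omit [CompleteSpace E] in
theorem norm_u_sub_u_zero (z : E) (hz : ‖z - 1‖ ≤ ‖(2 : E)‖ * ‖(p : E)‖) (n : ℕ) :
    ‖u p z n - (z - 1)‖ ≤ ‖z - 1‖ * ‖(p : E)‖ := by
  have hp0 := norm_p_pos (p := p) (E := E)
  have hp1 := norm_p_lt_one (p := p) (E := E)
  induction n with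
  | zero => simpa [u] using mul_nonneg (norm_nonneg (z - 1)) hp0.le
  | succ n ih =>
    have : u p z (n + 1) - (z - 1) = (u p z (n + 1) - u p z n) + (u p z n - (z - 1)) := by ring
    rw [this]
    refine (IsUltrametricDist.norm_add_le_max _ _).trans (max_le ?_ ih)
    refine (norm_u_succ_sub z hz n).trans ?_
    calc ‖z - 1‖ * ‖(p : E)‖ ^ (n + 1) ≤ ‖z - 1‖ * ‖(p : E)‖ ^ 1 := by
          gcongr ?_ * ?_
          exact pow_le_pow_of_le_one hp0.le hp1.le (by omega)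
      _ = _ := by ring

/-- the logarithm preserves size -/
theorem norm_plog (z : E) (hz : ‖z - 1‖ ≤ ‖(2 : E)‖ * ‖(p : E)‖) : ‖plog p z‖ = ‖z - 1‖ := by
  have hp0 := norm_p_pos (p := p) (E := E)
  have hp1 := norm_p_lt_one (p := p) (E := E)
  have hle : ‖plog p z - (z - 1)‖ ≤ ‖z - 1‖ * ‖(p : E)‖ := by
    have ht : Tendsto (fun n => ‖u p z n - (z - 1)‖) atTop (𝓝 ‖plog p z - (z - 1)‖) :=
      ((tendsto_u z hz).sub_const _).norm
    exact le_of_tendsto' ht (norm_u_sub_u_zero z hz)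
  by_cases h0 : z - 1 = 0
  · rw [h0] at hle ⊢
    simpa using hle
  · have hlt : ‖plog p z - (z - 1)‖ < ‖z - 1‖ := by
      refine hle.trans_lt ?_
      calc ‖z - 1‖ * ‖(p : E)‖ < ‖z - 1‖ * 1 := by
            gcongr
        _ = _ := mul_one _
    have : plog p z = (plog p z - (z - 1)) + (z - 1) := by ring
    rw [this, IsUltrametricDist.norm_add_eq_max_of_norm_ne_norm hlt.ne, max_eq_right hlt.le]

omit [IsUltrametricDist E] [CompleteSpace E] in
theorem u_mul (z z' : E) (n : ℕ) :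
    u p (z * z') n = u p z n + u p z' n + (p : E) ^ n * (u p z n * u p z' n) := by
  have hp0 := norm_p_pos (p := p) (E := E)
  have hpne : (p : E) ≠ 0 := norm_pos_iff.1 hp0
  simp only [u]
  field_simp
  ring

omit [CompleteSpace E] in
theorem norm_mul_sub_one_le (z z' : E) {r : ℝ} (hr1 : r ≤ 1) (hz : ‖z - 1‖ ≤ r)
    (hz' : ‖z' - 1‖ ≤ r) : ‖z * z' - 1‖ ≤ r := by
  have : z * z' - 1 = (z - 1) * z' + (z' - 1) := by ring
  rw [this]
  have hz'1 : ‖z'‖ ≤ 1 := by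
    have : z' = (z' - 1) + 1 := by ring
    rw [this]
    refine (IsUltrametricDist.norm_add_le_max _ _).trans (max_le (hz'.trans hr1) (by simp))
  refine (IsUltrametricDist.norm_add_le_max _ _).trans (max_le ?_ hz')
  rw [norm_mul]
  calc ‖z - 1‖ * ‖z'‖ ≤ r * 1 := by
        gcongr
        exact (norm_nonneg _).trans hz
    _ = r := mul_one r

omit [IsUltrametricDist E] [CompleteSpace E] in
theorem two_mul_p_le_one : ‖(2 : E)‖ * ‖(p : E)‖ ≤ 1 := by
  have h2le : ‖(2 : E)‖ ≤ 1 := by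
    have := norm_natCast_le_one p (E := E) 2
    simpa using this
  exact mul_le_one₀ h2le (norm_nonneg _) (norm_p_lt_one (p := p)).le

theorem plog_mul (z z' : E) (hz : ‖z - 1‖ ≤ ‖(2 : E)‖ * ‖(p : E)‖)
    (hz' : ‖z' - 1‖ ≤ ‖(2 : E)‖ * ‖(p : E)‖) : plog p (z * z') = plog p z + plog p z' := by
  have hp0 := norm_p_pos (p := p) (E := E)
  have hp1 := norm_p_lt_one (p := p) (E := E)
  have h := tendsto_u (z * z') (norm_mul_sub_one_le z z' two_mul_p_le_one hz hz')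
  have hpow : Tendsto (fun n : ℕ => (p : E) ^ n) atTop (𝓝 0) :=
    tendsto_pow_atTop_nhds_zero_of_norm_lt_one hp1
  have h' : Tendsto (u p (z * z')) atTop
      (𝓝 (plog p z + plog p z' + 0 * (plog p z * plog p z'))) := by
    have := ((tendsto_u z hz).add (tendsto_u z' hz')).add
      (hpow.mul ((tendsto_u z hz).mul (tendsto_u z' hz')))
    refine this.congr (fun n => ?_)
    rw [u_mul]
  rw [zero_mul, add_zero] at h'
  exact tendsto_nhds_unique h h'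

end Pool.Agent.Work.MP7de.PLog
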