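import Pool.Agent.Work.MP_7de521_nt.PadicDefs

/-!
Algebraic half of the `p`-adic part: independence of the units `uu s k`, rank of `L`, and the
inequality `rank (L ∩ B) ≤ dim B` for every subgroup `B` of `A(ℂ)`.
-/

open NumberField IsDedekindDomain TensorProduct

namespace Pool.Agent.Work.MP_7de521_nt.Padic

variable {K : Type} [Field K] [NumberField K] (D : Setup K) (m : Fin 4 → ℤ)

lemma NN_prod (n : ℤ) : ((NN n : ℤ) : K) = ((1 + n * D.y 0) * (1 - n * D.y 0)) *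
    ((1 + n * D.y 1) * (1 - n * D.y 1)) * ((1 + n * D.y 2) * (1 - n * D.y 2)) := by
  by_cases hn : n = 0
  · subst hn
    simp [NN]
  have hK : (n : K) ≠ 0 := by exact_mod_cast hn
  have h := D.prod_eq ((n : K)⁻¹)
  have h2 : (n : K) ^ 6 * ((((n : K)⁻¹) ^ 2 - D.y 0 ^ 2) * (((n : K)⁻¹) ^ 2 - D.y 1 ^ 2) *
      (((n : K)⁻¹) ^ 2 - D.y 2 ^ 2)) =
      (n : K) ^ 6 * (((n : K)⁻¹) ^ 6 - 5 * ((n : K)⁻¹) ^ 2 - 1) := by rw [h]
  have e1 : ∀ k, (n : K) ^ 2 * (((n : K)⁻¹) ^ 2 - D.y k ^ 2) = (1 + n * D.y k) * (1 - n * D.y k) := by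
    intro k
    field_simp
    ring
  have e2 : (n : K) ^ 6 * (((n : K)⁻¹) ^ 6 - 5 * ((n : K)⁻¹) ^ 2 - 1) = ((NN n : ℤ) : K) := by
    unfold NN
    push_cast
    field_simp
  rw [← e2, ← h2, ← e1 0, ← e1 1, ← e1 2]
  ring

lemma NN_odd {n : ℤ} (h : (2 : ℤ) ∣ n) : IsCoprime (2 : ℤ) (NN n) := by
  obtain ⟨k, rfl⟩ := h
  refine ⟨(5 * (2 * k) ^ 4 + (2 * k) ^ 6) / 2, 1, ?_⟩
  have : (5 * (2 * k) ^ 4 + (2 * k) ^ 6) / 2 * 2 = 5 * (2 * k) ^ 4 + (2 * k) ^ 6 := by
    apply Int.ediv_mul_cancel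
    exact ⟨5 * 8 * k ^ 4 + 32 * k ^ 6, by ring⟩
  rw [this]
  unfold NN
  ring

lemma NN_neg {n : ℤ} (h : (2 : ℤ) ∣ n) (h0 : n ≠ 0) : NN n < -1 := by
  obtain ⟨k, rfl⟩ := h
  have hk : k ≠ 0 := by rintro rfl; simp at h0
  have h1 : 1 ≤ k ^ 2 := by
    have := sq_nonneg k
    have h2 : k ^ 2 ≠ 0 := pow_ne_zero 2 hk
    omega
  have h4 : 1 ≤ k ^ 4 := by nlinarith
  have h6 : 1 ≤ k ^ 6 := by nlinarith
  unfold NN
  have e : 1 - 5 * (2 * k) ^ 4 - (2 * k) ^ 6 = 1 - 80 * k ^ 4 - 64 * k ^ 6 := by ring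
  rw [e]
  linarith

variable {m}

lemma NN_ne_zero (hm : Good m) (s : Fin 4) : ((NN (m s) : ℤ) : K) ≠ 0 := by
  have := NN_neg (hm.even s) (hm.ne s)
  have h : NN (m s) ≠ 0 := by omega
  exact_mod_cast h

lemma factors_ne (hm : Good m) (s : Fin 4) (k : Fin 3) :
    (1 + (m s : K) * D.y k) ≠ 0 ∧ (1 - (m s : K) * D.y k) ≠ 0 := by
  have h := NN_ne_zero (K := K) hm s
  rw [NN_prod D (m s)] at h
  have hk : ∀ k : Fin 3, k = 0 ∨ k = 1 ∨ k = 2 := by decide
  constructor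
  · intro h0
    apply h
    rcases hk k with rfl | rfl | rfl <;> rw [h0] <;> ring
  · intro h0
    apply h
    rcases hk k with rfl | rfl | rfl <;> rw [h0] <;> ring

lemma uu_val (hm : Good m) (s : Fin 4) (k : Fin 3) :
    (uu D m s k : K) = (1 + (m s : K) * D.y k) / (1 - (m s : K) * D.y k) := by
  have h : (1 + (m s : K) * D.y k) / (1 - (m s : K) * D.y k) ≠ 0 :=
    div_ne_zero (factors_ne D hm s k).1 (factors_ne D hm s k).2
  unfold uu
  rw [dif_pos h]
  rfl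

lemma HH_zero : HH D m 0 = 1 := by simp [HH]

lemma HH_add (e e' : Matrix (Fin 4) (Fin 3) ℤ) : HH D m (e + e') = HH D m e * HH D m e' := by
  simp only [HH, Matrix.add_apply, zpow_add, Finset.prod_mul_distrib]

lemma HH_neg (e : Matrix (Fin 4) (Fin 3) ℤ) : HH D m (-e) = (HH D m e)⁻¹ := by
  rw [eq_inv_iff_mul_eq_one, ← HH_add, neg_add_cancel, HH_zero]

lemma gal_int (g : K ≃ₐ[ℚ] K) (n : ℤ) : g (n : K) = n := map_intCast g n

lemma gal_uu_pos (hm : Good m) (g : K ≃ₐ[ℚ] K) (s : Fin 4) (k j : Fin 3)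
    (h : g (D.y k) = D.y j) : Setup.gal g (uu D m s k) = uu D m s j := by
  ext
  rw [Setup.gal_val, uu_val D hm, uu_val D hm, map_div₀, map_add, map_sub, map_mul, map_one,
    gal_int, h]

lemma gal_uu_neg (hm : Good m) (g : K ≃ₐ[ℚ] K) (s : Fin 4) (k j : Fin 3)
    (h : g (D.y k) = - D.y j) : Setup.gal g (uu D m s k) = (uu D m s j)⁻¹ := by
  ext
  rw [Setup.gal_val, uu_val D hm, Units.val_inv_eq_inv_val, uu_val D hm, map_div₀, map_add,
    map_sub, map_mul, map_one, gal_int, h, inv_div, mul_neg, sub_neg_eq_add, ← sub_eq_add_neg]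

/-! ### Independence -/

/-- `1 + m y` as an algebraic integer. -/
noncomputable def AP (m : Fin 4 → ℤ) (s : Fin 4) (k : Fin 3) : 𝓞 K := 1 + (m s : 𝓞 K) * D.Y k

/-- `1 - m y` as an algebraic integer. -/
noncomputable def AM (m : Fin 4 → ℤ) (s : Fin 4) (k : Fin 3) : 𝓞 K := 1 - (m s : 𝓞 K) * D.Y k

lemma AP_coe (s : Fin 4) (k : Fin 3) :
    algebraMap (𝓞 K) K (AP D m s k) = 1 + (m s : K) * D.y k := by
  unfold AP
  rw [map_add, map_mul, map_one, map_intCast]
  rfl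

lemma AM_coe (s : Fin 4) (k : Fin 3) :
    algebraMap (𝓞 K) K (AM D m s k) = 1 - (m s : K) * D.y k := by
  unfold AM
  rw [map_sub, map_mul, map_one, map_intCast]
  rfl

lemma NN_eq (s : Fin 4) : ((NN (m s) : ℤ) : 𝓞 K) =
    (AP D m s 0 * AM D m s 0) * (AP D m s 1 * AM D m s 1) * (AP D m s 2 * AM D m s 2) := by
  apply RingOfIntegers.ext
  change algebraMap (𝓞 K) K _ = algebraMap (𝓞 K) K _
  rw [map_intCast, NN_prod D]
  simp only [map_mul, AP_coe, AM_coe]

lemma isUnit_conj' (s : Fin 4) (h : IsUnit (AP D m s 0)) (k : Fin 3) :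
    IsUnit (AP D m s k) ∧ IsUnit (AM D m s k) := by
  obtain ⟨⟨g, hg⟩, ⟨g', hg'⟩⟩ := D.exists_conj k
  constructor
  · have h1 := h.map (RingOfIntegers.mapRingEquiv g.toRingEquiv)
    have h2 : RingOfIntegers.mapRingEquiv g.toRingEquiv (AP D m s 0) = AP D m s k := by
      apply RingOfIntegers.ext
      change g (algebraMap (𝓞 K) K (AP D m s 0)) = algebraMap (𝓞 K) K (AP D m s k)
      rw [AP_coe, AP_coe, map_add, map_mul, map_one, gal_int, hg]
    rwa [h2] at h1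
  · have h1 := h.map (RingOfIntegers.mapRingEquiv g'.toRingEquiv)
    have h2 : RingOfIntegers.mapRingEquiv g'.toRingEquiv (AP D m s 0) = AM D m s k := by
      apply RingOfIntegers.ext
      change g' (algebraMap (𝓞 K) K (AP D m s 0)) = algebraMap (𝓞 K) K (AM D m s k)
      rw [AP_coe, AM_coe, map_add, map_mul, map_one, gal_int, hg']
      ring
    rwa [h2] at h1

lemma not_isUnit' (hm : Good m) (s : Fin 4) : ¬ IsUnit (AP D m s 0) := by
  intro h
  have h0 := isUnit_conj' D s h 0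
  have h1 := isUnit_conj' D s h 1
  have h2 := isUnit_conj' D s h 2
  have h3 : IsUnit ((NN (m s) : ℤ) : 𝓞 K) := by
    rw [NN_eq D s]
    exact ((h0.1.mul h0.2).mul (h1.1.mul h1.2)).mul (h2.1.mul h2.2)
  have h4 := Setup.isUnit_int _ h3
  rw [Int.isUnit_iff] at h4
  have := NN_neg (hm.even s) (hm.ne s)
  omega

lemma NN_mem_of_mem (s : Fin 4) (I : Ideal (𝓞 K)) (h : AP D m s 0 ∈ I ∨ AM D m s 0 ∈ I) :
    ((NN (m s) : ℤ) : 𝓞 K) ∈ I := by
  rw [NN_eq D s]
  rcases h with h | h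
  · have e : AP D m s 0 * AM D m s 0 * (AP D m s 1 * AM D m s 1) * (AP D m s 2 * AM D m s 2) =
      (AM D m s 0 * (AP D m s 1 * AM D m s 1) * (AP D m s 2 * AM D m s 2)) * AP D m s 0 := by ring
    rw [e]
    exact I.mul_mem_left _ h
  · have e : AP D m s 0 * AM D m s 0 * (AP D m s 1 * AM D m s 1) * (AP D m s 2 * AM D m s 2) =
      (AP D m s 0 * (AP D m s 1 * AM D m s 1) * (AP D m s 2 * AM D m s 2)) * AM D m s 0 := by ring
    rw [e]
    exact I.mul_mem_left _ h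

lemma false_of_coprime (I : Ideal (𝓞 K)) (hI : I ≠ ⊤) (a b : ℤ) (hab : IsCoprime a b)
    (ha : (a : 𝓞 K) ∈ I) (hb : (b : 𝓞 K) ∈ I) : False := by
  obtain ⟨p, q, hpq⟩ := hab
  apply hI
  rw [Ideal.eq_top_iff_one]
  have h1 : (1 : 𝓞 K) = (p : 𝓞 K) * (a : 𝓞 K) + (q : 𝓞 K) * (b : 𝓞 K) := by
    exact_mod_cast (congrArg (fun z : ℤ => (z : 𝓞 K)) hpq).symm
  rw [h1]
  exact I.add_mem (I.mul_mem_left _ ha) (I.mul_mem_left _ hb)

lemma exists_valuation' (hm : Good m) (s : Fin 4) :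
    ∃ v : Valuation K (WithZero (Multiplicative ℤ)),
    v (uu D m s 0) < 1 ∧ ∀ t, t ≠ s → v (uu D m t 0) = 1 := by
  obtain ⟨I, hImax, hI⟩ := exists_max_ideal_of_mem_nonunits (not_isUnit' D hm s)
  have hItop : I ≠ ⊤ := hImax.ne_top
  have hNs : ((NN (m s) : ℤ) : 𝓞 K) ∈ I := NN_mem_of_mem D s I (Or.inl hI)
  have hAPt : ∀ t, t ≠ s → AP D m t 0 ∉ I := fun t ht h =>
    false_of_coprime I hItop _ _ (hm.coprime t s ht) (NN_mem_of_mem D t I (Or.inl h)) hNs
  have hAMt : ∀ t, AM D m t 0 ∉ I := by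
    intro t h
    by_cases ht : t = s
    · subst ht
      have h2 := I.add_mem hI h
      have e : AP D m t 0 + AM D m t 0 = ((2 : ℤ) : 𝓞 K) := by
        unfold AP AM
        push_cast
        ring
      rw [e] at h2
      exact false_of_coprime I hItop _ _ (NN_odd (hm.even t)) h2 hNs
    · exact false_of_coprime I hItop _ _ (hm.coprime t s ht) (NN_mem_of_mem D t I (Or.inr h)) hNs
  have hbot : I ≠ ⊥ := by
    rintro rfl
    rw [Ideal.mem_bot] at hI
    apply (factors_ne D hm s 0).1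
    rw [← AP_coe D, hI, map_zero]
  let v : HeightOneSpectrum (𝓞 K) := ⟨I, hImax.isPrime, hbot⟩
  have hval : ∀ t : Fin 4, v.valuation K (uu D m t 0) =
      v.valuation K (algebraMap (𝓞 K) K (AP D m t 0)) := by
    intro t
    rw [uu_val D hm, map_div₀, ← AP_coe D, ← AM_coe D]
    have : v.valuation K (algebraMap (𝓞 K) K (AM D m t 0)) = 1 := by
      rw [HeightOneSpectrum.valuation_eq_one_iff_notMem]
      exact hAMt t
    rw [this, div_one]
  refine ⟨v.valuation K, ?_, ?_⟩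
  · rw [hval, HeightOneSpectrum.valuation_lt_one_iff_mem]
    exact hI
  · intro t ht
    rw [hval, HeightOneSpectrum.valuation_eq_one_iff_notMem]
    exact hAPt t ht

/-- Multiplicative independence of the four units `uu s 0`. -/
lemma indep_zero' (hm : Good m) (n : Fin 4 → ℤ) (h : ∏ s, uu D m s 0 ^ n s = 1) : n = 0 := by
  funext s
  obtain ⟨v, hv, hv'⟩ := exists_valuation' D hm s
  have h1 : v ((∏ s, uu D m s 0 ^ n s : Kˣ) : K) = 1 := by rw [h]; simp
  rw [Units.coe_prod, map_prod, Finset.prod_eq_single s] at h1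
  · rw [Units.val_zpow_eq_zpow_val, map_zpow₀] at h1
    have h0 : v (uu D m s 0 : K) ≠ 0 := by
      rw [Valuation.ne_zero_iff]; exact (uu D m s 0).ne_zero
    rcases lt_trichotomy (n s) 0 with hlt | heq | hgt
    · have := one_lt_zpow_of_neg₀ (zero_lt_iff.2 h0) hv hlt
      rw [h1] at this
      exact absurd this (lt_irrefl _)
    · exact heq
    · have := zpow_lt_one₀ (zero_lt_iff.2 h0) hv hgt
      rw [h1] at this
      exact absurd this (lt_irrefl _)
  · intro t _ ht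
    rw [Units.val_zpow_eq_zpow_val, map_zpow₀, hv' t ht, one_zpow]
  · intro h; exact absurd (Finset.mem_univ _) h

/-- Multiplicative independence of the twelve units `uu s k`. -/
theorem HH_injective (hm : Good m) (e : Matrix (Fin 4) (Fin 3) ℤ) (h : HH D m e = 1) :
    e = 0 := by
  ext s k
  obtain ⟨τ, hτk, hτ⟩ := D.exists_tau k
  obtain ⟨g, hg⟩ := D.trans k
  have hu : ∀ s j, Setup.gal τ (uu D m s j) * uu D m s j =
      if j = k then uu D m s k ^ (2 : ℤ) else 1 := by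
    intro s j
    split_ifs with hj
    · rw [hj, gal_uu_pos D hm τ s k k hτk, zpow_two]
    · rw [gal_uu_neg D hm τ s j j (hτ j hj), inv_mul_cancel]
  have h1 : Setup.gal τ (HH D m e) * HH D m e = ∏ s, uu D m s k ^ (2 * e s k) := by
    simp only [HH, map_prod, map_zpow]
    rw [← Finset.prod_mul_distrib]
    refine Finset.prod_congr rfl fun s _ => ?_
    rw [← Finset.prod_mul_distrib, Finset.prod_eq_single k]
    · rw [← mul_zpow, hu, if_pos rfl, zpow_mul]
    · intro j _ hj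
      rw [← mul_zpow, hu, if_neg hj, one_zpow]
    · intro h; exact absurd (Finset.mem_univ _) h
  rw [h, map_one, one_mul] at h1
  have h2 := congrArg (Setup.gal g) h1
  rw [map_one, map_prod] at h2
  rcases hg with hg | hg
  · have h3 : ∏ s, uu D m s 0 ^ (2 * e s k) = 1 := by
      rw [h2]
      exact Finset.prod_congr rfl fun s _ => by rw [map_zpow, gal_uu_pos D hm g s k 0 hg]
    have := congrFun (indep_zero' D hm _ h3) s
    simpa using this
  · have h3 : ∏ s, uu D m s 0 ^ (-(2 * e s k)) = 1 := by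
      rw [h2]
      exact Finset.prod_congr rfl fun s _ => by
        rw [map_zpow, gal_uu_neg D hm g s k 0 hg, inv_zpow, zpow_neg]
    have := congrFun (indep_zero' D hm _ h3) s
    simpa using this

end Pool.Agent.Work.MP_7de521_nt.Padic
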