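import Pool.Agent.Work.MP_7de521_nt.Independence

/-!
Definitions for the `p`-adic part (Q2): points of `A = R_{K/ℚ}(𝔾_m)`, Zariski closed subgroups of
`A(ℂ)` and their dimension, and the groups `L` attached to four integers `m 0, …, m 3`.
-/

open NumberField TensorProduct

namespace Pool.Agent.Work.MP_7de521_nt.Padic

/-- The inclusion `A(ℚ) = Kˣ → A(S) = (S ⊗ K)ˣ` for `A = R_{K/ℚ}(𝔾_m)` and a commutative
`ℚ`-algebra `S`. -/
noncomputable def incl (S K : Type) [CommRing S] [Algebra ℚ S] [Field K] [NumberField K] :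
    Kˣ →* (S ⊗[ℚ] K)ˣ :=
  Units.map ((Algebra.TensorProduct.includeRight : K →ₐ[ℚ] S ⊗[ℚ] K) : K →* S ⊗[ℚ] K)

/-- The index set of a fixed `ℚ`-basis of `K`. -/
abbrev Idx (K : Type) [Field K] [NumberField K] : Type := Module.Free.ChooseBasisIndex ℚ K

/-- The coordinates of an element of `ℂ ⊗ K` with respect to a `ℚ`-basis of `K`. -/
noncomputable def coord {K : Type} [Field K] [NumberField K] (x : ℂ ⊗[ℚ] K) : Idx K → ℂ :=
  fun i => (Algebra.TensorProduct.basis ℂ (Module.Free.chooseBasis ℚ K)).repr x i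

/-- `B` is the zero locus in `A(ℂ) = (ℂ ⊗ K)ˣ` of a set of polynomials with complex coefficients
in the coordinates with respect to a `ℚ`-basis of `K`. -/
def IsZariskiClosed {K : Type} [Field K] [NumberField K] (B : Set (ℂ ⊗[ℚ] K)ˣ) : Prop :=
  ∃ S : Set (MvPolynomial (Idx K) ℂ),
    B = {x : (ℂ ⊗[ℚ] K)ˣ | ∀ f ∈ S, MvPolynomial.eval (coord (x : ℂ ⊗[ℚ] K)) f = 0}

/-- The ideal of all complex polynomials vanishing on a subset `B` of `A(ℂ)`. -/
noncomputable def vanishingIdeal {K : Type} [Field K] [NumberField K] (B : Set (ℂ ⊗[ℚ] K)ˣ) :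
    Ideal (MvPolynomial (Idx K) ℂ) where
  carrier := {f | ∀ x ∈ B, MvPolynomial.eval (coord (x : ℂ ⊗[ℚ] K)) f = 0}
  add_mem' := fun {f g} hf hg x hx => by rw [map_add, hf x hx, hg x hx, add_zero]
  zero_mem' := fun x _ => map_zero _
  smul_mem' := fun c f hf x hx => by rw [smul_eq_mul, map_mul, hf x hx, mul_zero]

/-- The dimension of (the Zariski closure of) a subset `B` of `A(ℂ)`: the Krull dimension of the
ring of polynomial functions on `B`. -/
noncomputable def dim {K : Type} [Field K] [NumberField K] (B : Set (ℂ ⊗[ℚ] K)ˣ) :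
    WithBot ℕ∞ :=
  ringKrullDim (MvPolynomial (Idx K) ℂ ⧸ vanishingIdeal B)

/-- The rank of an abelian group written multiplicatively. -/
noncomputable def rank (G : Type) [CommGroup G] : ℕ := Module.finrank ℤ (Additive G)

/-- `NN m = m ^ 6 * F (1 / m)` where `F = X ^ 6 - 5 X ^ 2 - 1`. -/
def NN (m : ℤ) : ℤ := 1 - 5 * m ^ 4 - m ^ 6

/-- The conditions on the four integers. -/
structure Good (m : Fin 4 → ℤ) : Prop where
  ne : ∀ s, m s ≠ 0
  even : ∀ s, (2 : ℤ) ∣ m s
  coprime : ∀ s t, s ≠ t → IsCoprime (NN (m s)) (NN (m t))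

section

variable {K : Type} [Field K] [NumberField K] (D : Setup K) (m : Fin 4 → ℤ)

open Classical in
/-- The unit `(1 + m y) / (1 - m y)` of `K`. -/
noncomputable def uu (s : Fin 4) (k : Fin 3) : Kˣ :=
  if h : (1 + (m s : K) * D.y k) / (1 - (m s : K) * D.y k) ≠ 0 then
    Units.mk0 ((1 + (m s : K) * D.y k) / (1 - (m s : K) * D.y k)) h else 1

/-- `HH e = ∏ uu s k ^ e s k`, for a `4 × 3` matrix `e`. -/
noncomputable def HH (e : Matrix (Fin 4) (Fin 3) ℤ) : Kˣ := ∏ s, ∏ k, uu D m s k ^ e s k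

/-- The `4 × 3` matrices whose last three rows form a symmetric matrix. -/
def Sym : AddSubgroup (Matrix (Fin 4) (Fin 3) ℤ) where
  carrier := {e | ∀ i j : Fin 3, e i.succ j = e j.succ i}
  add_mem' := fun {a b} ha hb i j => by rw [Matrix.add_apply, Matrix.add_apply, ha, hb]
  zero_mem' := fun i j => rfl
  neg_mem' := fun {a} ha i j => by rw [Matrix.neg_apply, Matrix.neg_apply, ha]

/-- The group `L`, generated by the `uu (i+1) j * uu (j+1) i` and the `uu 0 j`. -/
noncomputable def LL : Subgroup Kˣ where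
  carrier := {x | ∃ e ∈ Sym, x = ∏ s, ∏ k, uu D m s k ^ (e : Matrix (Fin 4) (Fin 3) ℤ) s k}
  mul_mem' := by
    rintro a b ⟨e, he, rfl⟩ ⟨f, hf, rfl⟩
    refine ⟨e + f, Sym.add_mem he hf, ?_⟩
    simp only [Matrix.add_apply, zpow_add, Finset.prod_mul_distrib]
  one_mem' := ⟨0, Sym.zero_mem, by simp⟩
  inv_mem' := by
    rintro a ⟨e, he, rfl⟩
    refine ⟨-e, Sym.neg_mem he, ?_⟩
    simp only [Matrix.neg_apply, zpow_neg, Finset.prod_inv_distrib]

end

end Pool.Agent.Work.MP_7de521_nt.Padic
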