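import Pool.Agent.Work.MP_7de521_nt.PadicTop
import Pool.Agent.Work.MP_7de521_nt.OddSpan
import Pool.Agent.Work.MP_7de521_nt.NotComm
import Pool.Agent.Work.MP_7de521_nt.PadicDefs

/-!
The closure of `L` in `(K ⊗ ℚ_p)ˣ`.
-/

open NumberField TensorProduct Filter Topology Pool.Agent.Work.MP7de.PLog

namespace Pool.Agent.Work.MP_7de521_nt.Padic

variable {p : ℕ} [hp : Fact p.Prime]
variable {K : Type} [Field K] [NumberField K]

/-! ### Compactness -/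

theorem isCompact_ball : IsCompact {x : ℚ_[p] ⊗[ℚ] K | ‖Ev x‖ ≤ 1} := by
  have hemb : IsClosedEmbedding (Ev : ℚ_[p] ⊗[ℚ] K → ((K →+* ℂ_[p]) → ℂ_[p])) :=
    LinearMap.isClosedEmbedding_of_injective (LinearMap.ker_eq_bot.2 Ev_injective)
  let W : Submodule ℚ_[p] ((K →+* ℂ_[p]) → ℂ_[p]) := LinearMap.range Ev
  have : ProperSpace W := FiniteDimensional.proper ℚ_[p] W
  have h1 : IsCompact (Metric.closedBall (0 : W) 1) := isCompact_closedBall 0 1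
  have h2 : IsCompact ((Subtype.val : W → _) '' Metric.closedBall (0 : W) 1) :=
    h1.image continuous_subtype_val
  have h3 := hemb.isCompact_preimage h2
  convert h3 using 1
  ext x
  constructor
  · intro hx
    refine ⟨⟨Ev x, ⟨x, rfl⟩⟩, ?_, rfl⟩
    rw [mem_closedBall_zero_iff]
    exact hx
  · rintro ⟨y, hy, hyx⟩
    rw [mem_closedBall_zero_iff] at hy
    change ‖Ev x‖ ≤ 1
    rw [← hyx]
    exact hy

/-- The maximal compact subgroup of `(K ⊗ ℚ_p)ˣ`. -/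
noncomputable def KK (p : ℕ) [Fact p.Prime] (K : Type) [Field K] [NumberField K] :
    Subgroup (ℚ_[p] ⊗[ℚ] K)ˣ where
  carrier := {x | ∀ φ : K →+* ℂ_[p], ‖ev φ (x : ℚ_[p] ⊗[ℚ] K)‖ = 1}
  mul_mem' := fun {a b} ha hb φ => by rw [Units.val_mul, map_mul, norm_mul, ha, hb, one_mul]
  one_mem' := fun φ => by rw [Units.val_one, map_one, norm_one]
  inv_mem' := fun {a} ha φ => by
    have h : ev φ ((a⁻¹ : (ℚ_[p] ⊗[ℚ] K)ˣ) : ℚ_[p] ⊗[ℚ] K) * ev φ (a : ℚ_[p] ⊗[ℚ] K) = 1 := by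
      rw [← map_mul, Units.inv_mul, map_one]
    have h2 := congrArg norm h
    rwa [norm_mul, ha, mul_one, norm_one] at h2

theorem isCompact_KK : IsCompact (KK p K : Set (ℚ_[p] ⊗[ℚ] K)ˣ) := by
  have hemb := Units.isClosedEmbedding_embedProduct (α := ℚ_[p] ⊗[ℚ] K)
  have h1 := isCompact_ball (p := p) (K := K)
  have h2 : IsCompact (MulOpposite.op '' {x : ℚ_[p] ⊗[ℚ] K | ‖Ev x‖ ≤ 1}) :=
    h1.image MulOpposite.continuous_op
  have h3 := hemb.isCompact_preimage (h1.prod h2)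
  convert h3 using 1
  ext x
  have hle : ∀ y : ℚ_[p] ⊗[ℚ] K, ‖Ev y‖ ≤ 1 ↔ ∀ φ, ‖ev φ y‖ ≤ 1 := fun y => by
    rw [pi_norm_le_iff_of_nonneg zero_le_one]
    rfl
  constructor
  · intro hx
    refine ⟨(hle _).2 fun φ => (hx φ).le, ⟨((x⁻¹ : (ℚ_[p] ⊗[ℚ] K)ˣ) : ℚ_[p] ⊗[ℚ] K), ?_, rfl⟩⟩
    exact (hle _).2 fun φ => ((KK p K).inv_mem hx φ).le
  · rintro ⟨h4, ⟨y, h5, h6⟩⟩ φ
    have h7 : y = ((x⁻¹ : (ℚ_[p] ⊗[ℚ] K)ˣ) : ℚ_[p] ⊗[ℚ] K) := MulOpposite.op_injective h6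
    rw [h7] at h5
    have h8 := (hle _).1 h4 φ
    have h9 := (hle _).1 h5 φ
    have h : ev φ ((x⁻¹ : (ℚ_[p] ⊗[ℚ] K)ˣ) : ℚ_[p] ⊗[ℚ] K) * ev φ (x : ℚ_[p] ⊗[ℚ] K) = 1 := by
      rw [← map_mul, Units.inv_mul, map_one]
    have h2 := congrArg norm h
    rw [norm_mul, norm_one] at h2
    apply le_antisymm h8
    change ‖ev φ (x : ℚ_[p] ⊗[ℚ] K)‖ ≤ 1 at h8
    by_contra hlt
    push Not at hlt
    have : ‖ev φ ((x⁻¹ : (ℚ_[p] ⊗[ℚ] K)ˣ) : ℚ_[p] ⊗[ℚ] K)‖ * ‖ev φ (x : ℚ_[p] ⊗[ℚ] K)‖ < 1 := by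
      calc _ ≤ 1 * ‖ev φ (x : ℚ_[p] ⊗[ℚ] K)‖ := by gcongr
        _ = ‖ev φ (x : ℚ_[p] ⊗[ℚ] K)‖ := one_mul _
        _ < 1 := hlt
    rw [h2] at this
    exact lt_irrefl _ this

/-! ### The logarithm on the closure -/

/-- the radius -/
noncomputable def δ (p : ℕ) [Fact p.Prime] : ℝ := ‖(2 : ℂ_[p])‖ * ‖(p : ℂ_[p])‖

theorem δ_le : δ p ≤ 1 := two_mul_p_le_one

theorem δ_lt : δ p < 1 := by
  have h2le : ‖(2 : ℂ_[p])‖ ≤ 1 := by
    have := norm_natCast_le_one p (E := ℂ_[p]) 2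
    simpa using this
  calc ‖(2 : ℂ_[p])‖ * ‖(p : ℂ_[p])‖ ≤ 1 * ‖(p : ℂ_[p])‖ := by gcongr
    _ = ‖(p : ℂ_[p])‖ := one_mul _
    _ < 1 := norm_p_lt_one

theorem norm_eq_one_of_ball (z : ℂ_[p]) (hz : ‖z - 1‖ ≤ δ p) : ‖z‖ = 1 := by
  have h1 : ‖z - 1‖ < ‖(1 : ℂ_[p])‖ := by rw [norm_one]; exact hz.trans_lt δ_lt
  have h2 : z = (z - 1) + 1 := by ring
  rw [h2, IsUltrametricDist.norm_add_eq_max_of_norm_ne_norm h1.ne, norm_one, max_eq_right]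
  rw [norm_one] at h1
  exact h1.le

theorem plog_sub (z w : ℂ_[p]) (hz : ‖z - 1‖ ≤ δ p) (hw : ‖w - 1‖ ≤ δ p) :
    ‖plog p z - plog p w‖ = ‖z - w‖ := by
  have hw1 := norm_eq_one_of_ball w hw
  have hw0 : w ≠ 0 := by
    rw [← norm_pos_iff, hw1]; exact one_pos
  have h1 : ‖z / w - 1‖ = ‖z - w‖ := by
    have : z / w - 1 = (z - w) / w := by field_simp
    rw [this, norm_div, hw1, div_one]
  have h2 : ‖z / w - 1‖ ≤ δ p := by
    rw [h1]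
    have : z - w = (z - 1) + (-(w - 1)) := by ring
    rw [this]
    refine (IsUltrametricDist.norm_add_le_max _ _).trans (max_le hz ?_)
    rw [norm_neg]; exact hw
  have h3 := plog_mul (p := p) (z / w) w h2 hw
  rw [div_mul_cancel₀ z hw0] at h3
  rw [h3, add_sub_cancel_right, norm_plog _ h2, h1]

theorem continuousOn_plog : ContinuousOn (plog p) {z : ℂ_[p] | ‖z - 1‖ ≤ δ p} := by
  rw [Metric.continuousOn_iff]
  intro b hb ε hε
  refine ⟨ε, hε, fun a ha hab => ?_⟩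
  rw [dist_eq_norm] at hab ⊢
  rw [plog_sub a b ha hb]
  exact hab

theorem plog_one : plog p (1 : ℂ_[p]) = 0 := by
  have := norm_plog (p := p) (1 : ℂ_[p]) (by rw [sub_self, norm_zero]; positivity)
  rw [sub_self, norm_zero] at this
  exact norm_eq_zero.1 this

/-- the vector of logarithms -/
noncomputable def Lg (x : ℚ_[p] ⊗[ℚ] K) : (K →+* ℂ_[p]) → ℂ_[p] := fun φ => plog p (ev φ x)

/-- The elements of the disc whose logarithm vector lies in `W`. -/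
noncomputable def UW (W : Submodule ℚ_[p] ((K →+* ℂ_[p]) → ℂ_[p])) :
    Subgroup (ℚ_[p] ⊗[ℚ] K)ˣ where
  carrier := {x | (∀ φ : K →+* ℂ_[p], ‖ev φ (x : ℚ_[p] ⊗[ℚ] K) - 1‖ ≤ δ p) ∧
    Lg (x : ℚ_[p] ⊗[ℚ] K) ∈ W}
  mul_mem' := by
    rintro a b ⟨ha, ha'⟩ ⟨hb, hb'⟩
    refine ⟨fun φ => ?_, ?_⟩
    · rw [Units.val_mul, map_mul]
      exact norm_mul_sub_one_le _ _ δ_le (ha φ) (hb φ)
    · have : Lg ((a * b : (ℚ_[p] ⊗[ℚ] K)ˣ) : ℚ_[p] ⊗[ℚ] K) =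
          Lg (a : ℚ_[p] ⊗[ℚ] K) + Lg (b : ℚ_[p] ⊗[ℚ] K) := by
        funext φ
        rw [Pi.add_apply, Lg, Units.val_mul, map_mul]
        exact plog_mul _ _ (ha φ) (hb φ)
      rw [this]
      exact W.add_mem ha' hb'
  one_mem' := by
    refine ⟨fun φ => ?_, ?_⟩
    · rw [Units.val_one, map_one, sub_self, norm_zero]
      exact mul_nonneg (norm_nonneg _) (norm_nonneg _)
    · have : Lg ((1 : (ℚ_[p] ⊗[ℚ] K)ˣ) : ℚ_[p] ⊗[ℚ] K) = 0 := by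
        funext φ
        rw [Lg, Units.val_one, map_one, plog_one, Pi.zero_apply]
      rw [this]
      exact W.zero_mem
  inv_mem' := by
    rintro a ⟨ha, ha'⟩
    have h1 : ∀ φ : K →+* ℂ_[p], ev φ ((a⁻¹ : (ℚ_[p] ⊗[ℚ] K)ˣ) : ℚ_[p] ⊗[ℚ] K) *
        ev φ (a : ℚ_[p] ⊗[ℚ] K) = 1 := fun φ => by
      rw [← map_mul, Units.inv_mul, map_one]
    have h2 : ∀ φ : K →+* ℂ_[p],
        ‖ev φ ((a⁻¹ : (ℚ_[p] ⊗[ℚ] K)ˣ) : ℚ_[p] ⊗[ℚ] K) - 1‖ ≤ δ p := fun φ => by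
      have h3 := norm_eq_one_of_ball _ (ha φ)
      have h4 : (ev φ ((a⁻¹ : (ℚ_[p] ⊗[ℚ] K)ˣ) : ℚ_[p] ⊗[ℚ] K) - 1) *
          ev φ (a : ℚ_[p] ⊗[ℚ] K) = - (ev φ (a : ℚ_[p] ⊗[ℚ] K) - 1) := by
        linear_combination h1 φ
      have h5 := congrArg norm h4
      rw [norm_mul, h3, mul_one, norm_neg] at h5
      rw [h5]
      exact ha φ
    refine ⟨h2, ?_⟩
    have : Lg ((a⁻¹ : (ℚ_[p] ⊗[ℚ] K)ˣ) : ℚ_[p] ⊗[ℚ] K) = - Lg (a : ℚ_[p] ⊗[ℚ] K) := by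
      funext φ
      have h3 := plog_mul _ _ (h2 φ) (ha φ)
      rw [h1 φ, plog_one] at h3
      rw [Pi.neg_apply, Lg, Lg]
      linear_combination -h3
    rw [this]
    exact W.neg_mem ha'

theorem continuous_val_units : Continuous (fun x : (ℚ_[p] ⊗[ℚ] K)ˣ => (x : ℚ_[p] ⊗[ℚ] K)) :=
  Units.continuous_val

theorem isClosed_UW (W : Submodule ℚ_[p] ((K →+* ℂ_[p]) → ℂ_[p])) [FiniteDimensional ℚ_[p] W] :
    IsClosed (UW W : Set (ℚ_[p] ⊗[ℚ] K)ˣ) := by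
  have hW : IsClosed (W : Set ((K →+* ℂ_[p]) → ℂ_[p])) := Submodule.closed_of_finiteDimensional W
  have hc : ∀ φ : K →+* ℂ_[p], Continuous (fun x : (ℚ_[p] ⊗[ℚ] K)ˣ =>
      ev φ (x : ℚ_[p] ⊗[ℚ] K)) := fun φ => (continuous_ev φ).comp continuous_val_units
  have hU : IsClosed {x : (ℚ_[p] ⊗[ℚ] K)ˣ | ∀ φ : K →+* ℂ_[p],
      ‖ev φ (x : ℚ_[p] ⊗[ℚ] K) - 1‖ ≤ δ p} := by
    rw [Set.ofPred_forall]
    exact isClosed_iInter fun φ => isClosed_le ((hc φ).sub continuous_const).norm continuous_const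
  have hcont : ContinuousOn (fun x : (ℚ_[p] ⊗[ℚ] K)ˣ => Lg (x : ℚ_[p] ⊗[ℚ] K))
      {x : (ℚ_[p] ⊗[ℚ] K)ˣ | ∀ φ : K →+* ℂ_[p], ‖ev φ (x : ℚ_[p] ⊗[ℚ] K) - 1‖ ≤ δ p} := by
    rw [continuousOn_pi]
    intro φ
    exact continuousOn_plog.comp (hc φ).continuousOn (fun x hx => hx φ)
  exact hcont.preimage_isClosed_of_isClosed hU hW

/-! ### The group `L` -/

section L

variable (D : Setup K) (m : Fin 4 → ℤ)

theorem y_root (k : Fin 3) : D.y k ^ 6 - 5 * D.y k ^ 2 - 1 = 0 := by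
  rw [← D.prod_eq]
  have hk : ∀ k : Fin 3, k = 0 ∨ k = 1 ∨ k = 2 := by decide
  rcases hk k with rfl | rfl | rfl <;> ring

/-- the root `φ (y k)` -/
noncomputable def rt (φ : K →+* ℂ_[p]) (k : Fin 3) : Roots p := ⟨φ (D.y k), by
  have := congrArg φ (y_root D k)
  rwa [map_sub, map_sub, map_mul, map_pow, map_pow, map_one, map_zero, map_ofNat] at this⟩

theorem φ_uu (hm : ∀ s, (2 * p : ℤ) ∣ m s) (φ : K →+* ℂ_[p]) (s : Fin 4) (k : Fin 3) :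
    φ (uu D m s k : K) = hh (m s) ((rt D φ k : Roots p) : ℂ_[p]) := by
  have h1 := norm_hh_sub_one (m s) (hm s) (rt D φ k)
  have h2 : φ ((1 + (m s : K) * D.y k) / (1 - (m s : K) * D.y k)) =
      hh (m s) ((rt D φ k : Roots p) : ℂ_[p]) := by
    rw [map_div₀, map_add, map_sub, map_mul, map_one, map_intCast]
    rfl
  have h3 : (1 + (m s : K) * D.y k) / (1 - (m s : K) * D.y k) ≠ 0 := by
    intro h0
    rw [h0, map_zero] at h2
    have h4 := norm_eq_one_of_ball _ h1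
    rw [← h2, norm_zero] at h4
    exact zero_ne_one h4
  rw [uu, dif_pos h3, Units.val_mk0, h2]

theorem ev_incl (φ : K →+* ℂ_[p]) (x : Kˣ) :
    ev φ ((incl ℚ_[p] K x : (ℚ_[p] ⊗[ℚ] K)ˣ) : ℚ_[p] ⊗[ℚ] K) = φ (x : K) := by
  change ev φ (1 ⊗ₜ (x : K)) = _
  rw [ev_tmul, map_one, one_mul]

/-- the vector of logarithms of `uu s k` -/
noncomputable def w (s : Fin 4) (k : Fin 3) : (K →+* ℂ_[p]) → ℂ_[p] :=
  fun φ => lam p (m s) (rt D φ k)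

/-- The nine vectors spanning the logarithms of `L`. -/
noncomputable def gam (p : ℕ) [Fact p.Prime] {K : Type} [Field K] [NumberField K] (D : Setup K)
    (m : Fin 4 → ℤ) : Fin 9 → ((K →+* ℂ_[p]) → ℂ_[p]) :=
  ![w D m 0 0, w D m 0 1, w D m 0 2, w D m 1 0, w D m 2 1, w D m 3 2,
    w D m 1 1 + w D m 2 0, w D m 1 2 + w D m 3 0, w D m 2 2 + w D m 3 1]

theorem gam_not_indep (hm : ∀ s, (2 * p : ℤ) ∣ m s) : ¬ LinearIndependent ℚ_[p] (gam p D m) := by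
  obtain ⟨κ, hκ0, hκ⟩ := exists_relation m hm
  have hrel : ∀ k : Fin 3, κ 0 • w (p := p) D m 0 k + κ 1 • w (p := p) D m 1 k +
      κ 2 • w (p := p) D m 2 k + κ 3 • w (p := p) D m 3 k = 0 := by
    intro k
    funext φ
    have := hκ (rt D φ k)
    rw [Fin.sum_univ_four] at this
    exact this
  rw [Fintype.not_linearIndependent_iff]
  by_cases h : κ 1 = 0 ∧ κ 2 = 0 ∧ κ 3 = 0
  · obtain ⟨h1, h2, h3⟩ := h
    have h0 : κ 0 ≠ 0 := by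
      intro h0
      apply hκ0
      funext s
      fin_cases s
      · exact h0
      · exact h1
      · exact h2
      · exact h3
    have h4 : w (p := p) D m 0 0 = 0 := by
      have := hrel 0
      rw [h1, h2, h3, zero_smul, zero_smul, zero_smul, add_zero, add_zero, add_zero] at this
      exact (smul_eq_zero.1 this).resolve_left h0
    refine ⟨Pi.single 0 1, ?_, 0, ?_⟩
    · rw [Finset.sum_eq_single 0]
      · rw [Pi.single_eq_same, one_smul]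
        exact h4
      · intro i _ hi
        rw [Pi.single_eq_of_ne hi, zero_smul]
      · intro h; exact absurd (Finset.mem_univ _) h
    · rw [Pi.single_eq_same]
      exact one_ne_zero
  · refine ⟨![κ 0 * κ 1, κ 0 * κ 2, κ 0 * κ 3, κ 1 * κ 1, κ 2 * κ 2, κ 3 * κ 3,
      κ 1 * κ 2, κ 1 * κ 3, κ 2 * κ 3], ?_, ?_⟩
    · have h1 : κ 1 • (κ 0 • w (p := p) D m 0 0 + κ 1 • w (p := p) D m 1 0 +
          κ 2 • w (p := p) D m 2 0 + κ 3 • w (p := p) D m 3 0) +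
        κ 2 • (κ 0 • w (p := p) D m 0 1 + κ 1 • w (p := p) D m 1 1 +
          κ 2 • w (p := p) D m 2 1 + κ 3 • w (p := p) D m 3 1) +
        κ 3 • (κ 0 • w (p := p) D m 0 2 + κ 1 • w (p := p) D m 1 2 +
          κ 2 • w (p := p) D m 2 2 + κ 3 • w (p := p) D m 3 2) = 0 := by
        rw [hrel 0, hrel 1, hrel 2, smul_zero, smul_zero, smul_zero, add_zero, add_zero]
      rw [← h1]
      simp only [gam, Fin.sum_univ_succ, Finset.univ_eq_empty, Finset.sum_empty]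
      simp only [Matrix.cons_val_zero, Matrix.cons_val_succ, smul_add, smul_smul]
      module
    · by_cases h1 : κ 1 = 0
      · by_cases h2 : κ 2 = 0
        · have h3 : κ 3 ≠ 0 := fun h3 => h ⟨h1, h2, h3⟩
          exact ⟨5, mul_ne_zero h3 h3⟩
        · exact ⟨4, mul_ne_zero h2 h2⟩
      · exact ⟨3, mul_ne_zero h1 h1⟩

/-- the span of the nine logarithm vectors -/
noncomputable def WW (p : ℕ) [Fact p.Prime] {K : Type} [Field K] [NumberField K] (D : Setup K)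
    (m : Fin 4 → ℤ) : Submodule ℚ_[p] ((K →+* ℂ_[p]) → ℂ_[p]) :=
  Submodule.span ℚ_[p] (Set.range (gam p D m))

instance : FiniteDimensional ℚ_[p] (WW p D m) :=
  FiniteDimensional.span_of_finite ℚ_[p] (Set.finite_range _)

theorem finrank_WW (hm : ∀ s, (2 * p : ℤ) ∣ m s) : Module.finrank ℚ_[p] (WW p D m) < 9 := by
  have h1 : Set.finrank ℚ_[p] (Set.range (gam p D m)) ≤ Fintype.card (Fin 9) :=
    finrank_range_le_card _
  have h2 : Set.finrank ℚ_[p] (Set.range (gam p D m)) ≠ Fintype.card (Fin 9) := by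
    intro h
    exact gam_not_indep D m hm (linearIndependent_iff_card_eq_finrank_span.2 h.symm)
  rw [Fintype.card_fin] at h1 h2
  exact lt_of_le_of_ne h1 h2

/-- the values of `Lg` on products of powers -/
theorem uu_mem (hm : ∀ s, (2 * p : ℤ) ∣ m s) (s : Fin 4) (k : Fin 3)
    (W : Submodule ℚ_[p] ((K →+* ℂ_[p]) → ℂ_[p])) (hW : w D m s k ∈ W) :
    incl ℚ_[p] K (uu D m s k) ∈ UW W := by
  refine ⟨fun φ => ?_, ?_⟩
  · rw [ev_incl, φ_uu D m hm]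
    exact norm_hh_sub_one (m s) (hm s) _
  · have : Lg ((incl ℚ_[p] K (uu D m s k) : (ℚ_[p] ⊗[ℚ] K)ˣ) : ℚ_[p] ⊗[ℚ] K) = w D m s k := by
      funext φ
      rw [Lg, ev_incl, φ_uu D m hm]
      rfl
    rw [this]
    exact hW

theorem Lg_mul (a b : (ℚ_[p] ⊗[ℚ] K)ˣ)
    (ha : ∀ φ : K →+* ℂ_[p], ‖ev φ (a : ℚ_[p] ⊗[ℚ] K) - 1‖ ≤ δ p)
    (hb : ∀ φ : K →+* ℂ_[p], ‖ev φ (b : ℚ_[p] ⊗[ℚ] K) - 1‖ ≤ δ p) :
    Lg ((a * b : (ℚ_[p] ⊗[ℚ] K)ˣ) : ℚ_[p] ⊗[ℚ] K) =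
          Lg (a : ℚ_[p] ⊗[ℚ] K) + Lg (b : ℚ_[p] ⊗[ℚ] K) := by
  funext φ
  rw [Pi.add_apply, Lg, Units.val_mul, map_mul]
  exact plog_mul _ _ (ha φ) (hb φ)

/-- the disc as a group -/
noncomputable def UT (p : ℕ) [Fact p.Prime] (K : Type) [Field K] [NumberField K] :
    Subgroup (ℚ_[p] ⊗[ℚ] K)ˣ := UW ⊤

/-- `Lg` as a homomorphism on the disc -/
noncomputable def LgHom (p : ℕ) [Fact p.Prime] (K : Type) [Field K] [NumberField K] :
    UT p K →* Multiplicative ((K →+* ℂ_[p]) → ℂ_[p]) where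
  toFun x := Multiplicative.ofAdd (Lg ((x : (ℚ_[p] ⊗[ℚ] K)ˣ) : ℚ_[p] ⊗[ℚ] K))
  map_one' := by
    have : Lg ((1 : (ℚ_[p] ⊗[ℚ] K)ˣ) : ℚ_[p] ⊗[ℚ] K) = 0 := by
      funext φ
      rw [Lg, Units.val_one, map_one, plog_one, Pi.zero_apply]
    rw [OneMemClass.coe_one, this]
    rfl
  map_mul' x y := by
    rw [Subgroup.coe_mul, Lg_mul _ _ x.2.1 y.2.1]
    rfl

theorem LgHom_injective : Function.Injective (LgHom p K) := by
  rw [← MonoidHom.ker_eq_bot_iff, eq_bot_iff]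
  intro x hx
  rw [MonoidHom.mem_ker] at hx
  have h1 : Lg ((x : (ℚ_[p] ⊗[ℚ] K)ˣ) : ℚ_[p] ⊗[ℚ] K) = 0 := Multiplicative.ofAdd.injective hx
  have h2 : ∀ φ : K →+* ℂ_[p], ev φ ((x : (ℚ_[p] ⊗[ℚ] K)ˣ) : ℚ_[p] ⊗[ℚ] K) = 1 := by
    intro φ
    have h3 := norm_plog _ (x.2.1 φ)
    have h4 : plog p (ev φ ((x : (ℚ_[p] ⊗[ℚ] K)ˣ) : ℚ_[p] ⊗[ℚ] K)) = 0 := congrFun h1 φ
    rw [h4, norm_zero] at h3
    exact sub_eq_zero.1 (norm_eq_zero.1 h3.symm)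
  rw [Subgroup.mem_bot]
  apply Subtype.ext
  apply Units.ext
  apply Ev_injective
  funext φ
  rw [Ev_apply, Ev_apply, h2 φ]
  simp

theorem norm_Lg_le (x : UT p K) : ‖Lg ((x : (ℚ_[p] ⊗[ℚ] K)ˣ) : ℚ_[p] ⊗[ℚ] K)‖ ≤ 1 := by
  rw [pi_norm_le_iff_of_nonneg zero_le_one]
  intro φ
  rw [Lg, norm_plog _ (x.2.1 φ)]
  exact (x.2.1 φ).trans δ_le

/-- the element of the disc attached to `uu s k` -/
noncomputable def vv (hm : ∀ s, (2 * p : ℤ) ∣ m s) (s : Fin 4) (k : Fin 3) : UT p K :=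
  ⟨incl ℚ_[p] K (uu D m s k), uu_mem D m hm s k ⊤ trivial⟩

theorem LgHom_vv (hm : ∀ s, (2 * p : ℤ) ∣ m s) (s : Fin 4) (k : Fin 3) :
    LgHom p K (vv D m hm s k) = Multiplicative.ofAdd (w D m s k) := by
  change Multiplicative.ofAdd (Lg ((incl ℚ_[p] K (uu D m s k) : (ℚ_[p] ⊗[ℚ] K)ˣ) :
    ℚ_[p] ⊗[ℚ] K)) = _
  congr 1
  funext φ
  rw [Lg, ev_incl, φ_uu D m hm]
  rfl

theorem LL_le (hm : ∀ s, (2 * p : ℤ) ∣ m s) :
    (LL D m).map (incl ℚ_[p] K) ≤ UW (WW p D m) := by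
  rw [Subgroup.map_le_iff_le_comap]
  rintro x ⟨e, he, rfl⟩
  rw [Subgroup.mem_comap]
  have h0 : (incl ℚ_[p] K (∏ s, ∏ k, uu D m s k ^ e s k)) =
      ((∏ s, ∏ k, vv D m hm s k ^ e s k : UT p K) : (ℚ_[p] ⊗[ℚ] K)ˣ) := by
    simp only [map_prod, map_zpow, Subgroup.val_finsetProd, Subgroup.coe_zpow]
    rfl
  rw [h0]
  refine ⟨(∏ s, ∏ k, vv D m hm s k ^ e s k : UT p K).2.1, ?_⟩
  have h1 : Lg (((∏ s, ∏ k, vv D m hm s k ^ e s k : UT p K) : (ℚ_[p] ⊗[ℚ] K)ˣ) : ℚ_[p] ⊗[ℚ] K) =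
      Multiplicative.toAdd (LgHom p K (∏ s, ∏ k, vv D m hm s k ^ e s k)) := rfl
  rw [h1]
  simp only [map_prod, map_zpow, LgHom_vv]
  have h2 : Multiplicative.toAdd (∏ s, ∏ k, Multiplicative.ofAdd (w (p := p) D m s k) ^ e s k) =
      ∑ s, ∑ k, e s k • w (p := p) D m s k := by
    simp only [toAdd_prod, toAdd_zpow, toAdd_ofAdd]
  rw [h2]
  have hmem : ∀ i, gam p D m i ∈ WW p D m := fun i => Submodule.subset_span ⟨i, rfl⟩
  have e1 : e 1 1 = e 2 0 := he 0 1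
  have e2 : e 1 2 = e 3 0 := he 0 2
  have e3 : e 2 2 = e 3 1 := he 1 2
  have h3 : ∑ s, ∑ k, e s k • w (p := p) D m s k =
      e 0 0 • gam p D m 0 + e 0 1 • gam p D m 1 + e 0 2 • gam p D m 2 + e 1 0 • gam p D m 3 +
      e 2 1 • gam p D m 4 + e 3 2 • gam p D m 5 + e 1 1 • gam p D m 6 + e 1 2 • gam p D m 7 +
      e 2 2 • gam p D m 8 := by
    simp only [Fin.sum_univ_four, Fin.sum_univ_three]
    rw [← e1, ← e2, ← e3]
    change _ = e 0 0 • w D m 0 0 + e 0 1 • w D m 0 1 + e 0 2 • w D m 0 2 + e 1 0 • w D m 1 0 +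
      e 2 1 • w D m 2 1 + e 3 2 • w D m 3 2 + e 1 1 • (w D m 1 1 + w D m 2 0) +
      e 1 2 • (w D m 1 2 + w D m 3 0) + e 2 2 • (w D m 2 2 + w D m 3 1)
    module
  rw [h3]
  refine add_mem (add_mem (add_mem (add_mem (add_mem (add_mem (add_mem (add_mem ?_ ?_) ?_) ?_)
    ?_) ?_) ?_) ?_) ?_ <;> exact zsmul_mem (hmem _) _

theorem closure_le (hm : ∀ s, (2 * p : ℤ) ∣ m s) :
    ((LL D m).map (incl ℚ_[p] K)).topologicalClosure ≤ UW (WW p D m) :=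
  Subgroup.topologicalClosure_minimal _ (LL_le D m hm) (isClosed_UW _)

theorem UW_le_UT (W : Submodule ℚ_[p] ((K →+* ℂ_[p]) → ℂ_[p])) : UW W ≤ UT p K :=
  fun _ hx => ⟨hx.1, trivial⟩

theorem UT_le_KK : UT p K ≤ KK p K := fun _ hx φ => norm_eq_one_of_ball _ (hx.1 φ)

/-- `L` lies in a compact subgroup. -/
theorem exists_compact (hm : ∀ s, (2 * p : ℤ) ∣ m s) :
    ∃ C : Subgroup (ℚ_[p] ⊗[ℚ] K)ˣ, IsCompact (C : Set (ℚ_[p] ⊗[ℚ] K)ˣ) ∧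
      (LL D m).map (incl ℚ_[p] K) ≤ C :=
  ⟨KK p K, isCompact_KK, ((LL_le D m hm).trans (UW_le_UT _)).trans UT_le_KK⟩

/-- No finite-index subgroup of `ℤ_p ^ 9` embeds in the closure of `L`. -/
theorem closure_not_comm (hm : ∀ s, (2 * p : ℤ) ∣ m s)
    (H₁ : Subgroup ((LL D m).map (incl ℚ_[p] K)).topologicalClosure)
    (H₂ : AddSubgroup (Fin 9 → ℤ_[p])) (hfin : H₂.FiniteIndex) :
    IsEmpty (H₁ ≃* Multiplicative H₂) := by
  have hle : ((LL D m).map (incl ℚ_[p] K)).topologicalClosure ≤ UT p K :=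
    (closure_le D m hm).trans (UW_le_UT _)
  refine not_commensurable (WW p D m) (finrank_WW D m hm)
    ((LgHom p K).comp (Subgroup.inclusion hle)) ?_ ?_ 1 ?_ H₁ H₂ hfin
  · rw [MonoidHom.coe_comp]
    exact LgHom_injective.comp (Subgroup.inclusion_injective hle)
  · intro g
    exact (closure_le D m hm g.2).2
  · intro g
    exact norm_Lg_le (Subgroup.inclusion hle g)

end L

/-! ### The choice of the four integers -/

theorem NN_cong (a b : ℤ) (h : NN a ∣ b) (hb : b ≠ 0) : IsCoprime (NN a) (NN b) := by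
  obtain ⟨c, hc⟩ := h
  refine ⟨c * (5 * b ^ 3 + b ^ 5), 1, ?_⟩
  have : NN b = 1 - b * (5 * b ^ 3 + b ^ 5) := by unfold NN; ring
  rw [this]
  have h1 : c * (5 * b ^ 3 + b ^ 5) * NN a = b * (5 * b ^ 3 + b ^ 5) := by
    conv_rhs => rw [hc]
    rw [← hc]
    conv_lhs => rw [mul_comm c, mul_assoc, mul_comm c, ← hc]
    ring
  rw [h1]
  ring

theorem NN_ne_zero' (a : ℤ) (h : (2 : ℤ) ∣ a) : NN a ≠ 0 := by
  intro h0
  obtain ⟨c, hc⟩ := h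
  unfold NN at h0
  have : (2 : ℤ) ∣ 1 := by
    have h1 : (1 : ℤ) = 5 * a ^ 4 + a ^ 6 := by linarith
    rw [h1, hc]
    exact ⟨c * (5 * (2 * c) ^ 3 + (2 * c) ^ 5), by ring⟩
  norm_num at this

theorem exists_good (p : ℕ) (hp0 : p ≠ 0) :
    ∃ m : Fin 4 → ℤ, Good m ∧ ∀ s, (2 * p : ℤ) ∣ m s := by
  have hp1 : (2 * p : ℤ) ≠ 0 := by
    have : (p : ℤ) ≠ 0 := Int.natCast_ne_zero.2 hp0
    positivity
  obtain ⟨a, ha⟩ : ∃ a : ℤ, a = 2 * p := ⟨_, rfl⟩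
  obtain ⟨b, hb⟩ : ∃ b : ℤ, b = 2 * p * NN a := ⟨_, rfl⟩
  obtain ⟨c, hc⟩ : ∃ c : ℤ, c = 2 * p * (NN a * NN b) := ⟨_, rfl⟩
  obtain ⟨d, hd⟩ : ∃ d : ℤ, d = 2 * p * (NN a * NN b * NN c) := ⟨_, rfl⟩
  have da : (2 * p : ℤ) ∣ a := ⟨1, by rw [ha]; ring⟩
  have db : (2 * p : ℤ) ∣ b := ⟨NN a, hb⟩
  have dc : (2 * p : ℤ) ∣ c := ⟨_, hc⟩
  have dd : (2 * p : ℤ) ∣ d := ⟨_, hd⟩
  have e2 : (2 : ℤ) ∣ 2 * p := ⟨p, rfl⟩
  have na := NN_ne_zero' a (e2.trans da)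
  have nb := NN_ne_zero' b (e2.trans db)
  have nc := NN_ne_zero' c (e2.trans dc)
  have a0 : a ≠ 0 := by rw [ha]; exact hp1
  have b0 : b ≠ 0 := by rw [hb]; exact mul_ne_zero hp1 na
  have c0 : c ≠ 0 := by rw [hc]; exact mul_ne_zero hp1 (mul_ne_zero na nb)
  have d0 : d ≠ 0 := by rw [hd]; exact mul_ne_zero hp1 (mul_ne_zero (mul_ne_zero na nb) nc)
  have hab : IsCoprime (NN a) (NN b) := NN_cong a b ⟨2 * p, by rw [hb]; ring⟩ b0
  have hac : IsCoprime (NN a) (NN c) := NN_cong a c ⟨2 * p * NN b, by rw [hc]; ring⟩ c0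
  have hbc : IsCoprime (NN b) (NN c) := NN_cong b c ⟨2 * p * NN a, by rw [hc]; ring⟩ c0
  have had : IsCoprime (NN a) (NN d) := NN_cong a d ⟨2 * p * (NN b * NN c), by rw [hd]; ring⟩ d0
  have hbd : IsCoprime (NN b) (NN d) := NN_cong b d ⟨2 * p * (NN a * NN c), by rw [hd]; ring⟩ d0
  have hcd : IsCoprime (NN c) (NN d) := NN_cong c d ⟨2 * p * (NN a * NN b), by rw [hd]; ring⟩ d0
  refine ⟨![a, b, c, d], ⟨?_, ?_, ?_⟩, ?_⟩
  · intro s; fin_cases s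
    · exact a0
    · exact b0
    · exact c0
    · exact d0
  · intro s; fin_cases s
    · exact e2.trans da
    · exact e2.trans db
    · exact e2.trans dc
    · exact e2.trans dd
  · intro s t hst
    fin_cases s <;> fin_cases t
    · exact absurd rfl hst
    · exact hab
    · exact hac
    · exact had
    · exact hab.symm
    · exact absurd rfl hst
    · exact hbc
    · exact hbd
    · exact hac.symm
    · exact hbc.symm
    · exact absurd rfl hst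
    · exact hcd
    · exact had.symm
    · exact hbd.symm
    · exact hcd.symm
    · exact absurd rfl hst
  · intro s; fin_cases s
    · exact da
    · exact db
    · exact dc
    · exact dd

end Pool.Agent.Work.MP_7de521_nt.Padic
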