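import Pool.Agent.Work.MP_7de521_nt.PadicAlg

/-!
Rank of `L` and of its subgroups.
-/

open NumberField TensorProduct

namespace Pool.Agent.Work.MP_7de521_nt.Padic

variable {K : Type} [Field K] [NumberField K] (D : Setup K) {m : Fin 4 → ℤ}

lemma mem_LL_iff (x : Kˣ) : x ∈ LL D m ↔ ∃ e ∈ Sym, x = HH D m e := Iff.rfl

/-- The elements of `Sym` whose unit lies in `G`. -/
noncomputable def SS (m : Fin 4 → ℤ) (G : Subgroup Kˣ) :
    AddSubgroup (Matrix (Fin 4) (Fin 3) ℤ) where
  carrier := {e | e ∈ Sym ∧ HH D m e ∈ G}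
  add_mem' := fun {a b} ha hb => ⟨Sym.add_mem ha.1 hb.1, by
    rw [HH_add]; exact G.mul_mem ha.2 hb.2⟩
  zero_mem' := ⟨Sym.zero_mem, by rw [HH_zero]; exact G.one_mem⟩
  neg_mem' := fun {a} ha => ⟨Sym.neg_mem ha.1, by rw [HH_neg]; exact G.inv_mem ha.2⟩

/-- The map `SS G → G`. -/
noncomputable def SSmap (m : Fin 4 → ℤ) (G : Subgroup Kˣ) : SS D m G →+ Additive ↥G where
  toFun e := Additive.ofMul ⟨HH D m e.1, e.2.2⟩
  map_zero' := by
    apply Additive.toMul.injective
    apply Subtype.ext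
    exact HH_zero D
  map_add' a b := by
    apply Additive.toMul.injective
    apply Subtype.ext
    exact HH_add D _ _

lemma SSmap_bijective (hm : Good m) (G : Subgroup Kˣ) (hG : G ≤ LL D m) :
    Function.Bijective (SSmap D m G) := by
  constructor
  · rw [injective_iff_map_eq_zero]
    intro e he
    apply Subtype.ext
    apply HH_injective D hm
    exact congrArg Subtype.val (congrArg Additive.toMul he)
  · intro x
    obtain ⟨e, he, hx⟩ := hG (Additive.toMul x).2
    refine ⟨⟨e, he, ?_⟩, ?_⟩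
    · have h := (Additive.toMul x).2
      rw [hx] at h
      exact h
    · apply Additive.toMul.injective
      apply Subtype.ext
      exact hx.symm

/-- `SS G` is isomorphic to `G`. -/
noncomputable def SSequiv (hm : Good m) (G : Subgroup Kˣ) (hG : G ≤ LL D m) :
    SS D m G ≃+ Additive ↥G :=
  AddEquiv.ofBijective (SSmap D m G) (SSmap_bijective D hm G hG)

lemma SS_LL (m : Fin 4 → ℤ) : SS D m (LL D m) = Sym := by
  ext e
  constructor
  · intro h; exact h.1
  · intro h; exact ⟨h, ⟨e, h, rfl⟩⟩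

/-- The nine coordinates on `Sym`. -/
def symEquiv : Sym ≃+ (Fin 9 → ℤ) where
  toFun e := ![e.1 0 0, e.1 0 1, e.1 0 2, e.1 1 0, e.1 1 1, e.1 1 2, e.1 2 1, e.1 2 2, e.1 3 2]
  invFun v := ⟨!![v 0, v 1, v 2; v 3, v 4, v 5; v 4, v 6, v 7; v 5, v 7, v 8], by
    intro i j
    fin_cases i <;> fin_cases j <;> rfl⟩
  left_inv e := by
    apply Subtype.ext
    have h := e.2
    have h1 : e.1 2 0 = e.1 1 1 := h 1 0
    have h2 : e.1 3 0 = e.1 1 2 := h 2 0
    have h3 : e.1 3 1 = e.1 2 2 := h 2 1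
    ext i j
    fin_cases i <;> fin_cases j <;> first | rfl | exact h1.symm | exact h2.symm | exact h3.symm
  right_inv v := by
    ext i
    fin_cases i <;> rfl
  map_add' a b := by
    ext i
    fin_cases i <;> rfl

lemma finrank_sym : Module.finrank ℤ Sym = 9 := by
  rw [LinearEquiv.finrank_eq (symEquiv.toIntLinearEquiv)]
  simp

theorem rank_eq (hm : Good m) (G : Subgroup Kˣ) (hG : G ≤ LL D m) :
    rank ↥G = Module.finrank ℤ (SS D m G) :=
  (LinearEquiv.finrank_eq (SSequiv D hm G hG).toIntLinearEquiv).symm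

theorem LL_rank (hm : Good m) : rank ↥(LL D m) = 9 := by
  rw [rank_eq D hm _ le_rfl, SS_LL]
  exact finrank_sym

theorem LL_fg (hm : Good m) : (LL D m).FG := by
  have h1 : Module.Finite ℤ (SS D m (LL D m)) := by
    have : IsNoetherian ℤ (Matrix (Fin 4) (Fin 3) ℤ) := inferInstance
    exact Module.IsNoetherian.finite ℤ (AddSubgroup.toIntSubmodule (SS D m (LL D m)))
  have h2 : Module.Finite ℤ (Additive ↥(LL D m)) :=
    Module.Finite.equiv (SSequiv D hm _ le_rfl).toIntLinearEquiv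
  rw [← Group.fg_iff_subgroup_fg, GroupFG.iff_add_fg, ← Module.Finite.iff_addGroup_fg]
  exact h2

end Pool.Agent.Work.MP_7de521_nt.Padic
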