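import Mathlib

/-!
The topological ring `K ⊗ ℚ_p` (module topology) and its embedding in `∏_φ ℂ_p`.
-/

open NumberField TensorProduct Filter Topology

namespace Pool.Agent.Work.MP_7de521_nt.Padic

variable {p : ℕ} [hp : Fact p.Prime]
variable {K : Type} [Field K] [NumberField K]

/-- The topology of `K ⊗ ℚ_p` as a finite-dimensional vector space over `ℚ_p`. -/
noncomputable instance topK (p : ℕ) [Fact p.Prime] (K : Type) [Field K] [NumberField K] :
    TopologicalSpace (ℚ_[p] ⊗[ℚ] K) :=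
  moduleTopology ℚ_[p] (ℚ_[p] ⊗[ℚ] K)

instance : IsModuleTopology ℚ_[p] (ℚ_[p] ⊗[ℚ] K) := ⟨rfl⟩

instance : IsTopologicalRing (ℚ_[p] ⊗[ℚ] K) := IsModuleTopology.isTopologicalRing ℚ_[p] _

/-- The `ℚ_p`-algebra map `K ⊗ ℚ_p → ℂ_p` attached to an embedding `K → ℂ_p`. -/
noncomputable def ev (φ : K →+* ℂ_[p]) : ℚ_[p] ⊗[ℚ] K →ₐ[ℚ_[p]] ℂ_[p] :=
  Algebra.TensorProduct.lift (Algebra.ofId ℚ_[p] ℂ_[p]) (RingHom.toRatAlgHom φ)
    (fun _ _ => Commute.all _ _)

theorem ev_tmul (φ : K →+* ℂ_[p]) (a : ℚ_[p]) (x : K) :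
    ev φ (a ⊗ₜ x) = algebraMap ℚ_[p] ℂ_[p] a * φ x := by
  rw [ev, Algebra.TensorProduct.lift_tmul]
  rfl

theorem continuous_ev (φ : K →+* ℂ_[p]) : Continuous (ev φ : ℚ_[p] ⊗[ℚ] K → ℂ_[p]) :=
  IsModuleTopology.continuous_of_linearMap (ev φ).toLinearMap

/-- The joint evaluation `K ⊗ ℚ_p → ∏_φ ℂ_p`. -/
noncomputable def Ev : ℚ_[p] ⊗[ℚ] K →ₗ[ℚ_[p]] ((K →+* ℂ_[p]) → ℂ_[p]) :=
  LinearMap.pi fun φ => (ev φ).toLinearMap

theorem Ev_apply (x : ℚ_[p] ⊗[ℚ] K) (φ : K →+* ℂ_[p]) : Ev x φ = ev φ x := rfl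

theorem Ev_injective : Function.Injective (Ev : ℚ_[p] ⊗[ℚ] K → ((K →+* ℂ_[p]) → ℂ_[p])) := by
  classical
  rw [← LinearMap.ker_eq_bot, LinearMap.ker_eq_bot']
  intro x hx
  let b := Module.Free.chooseBasis ℚ K
  let B := Algebra.TensorProduct.basis ℚ_[p] b
  have hcard : Fintype.card (K →+* ℂ_[p]) = Fintype.card (Module.Free.ChooseBasisIndex ℚ K) := by
    rw [Embeddings.card K ℂ_[p], Module.finrank_eq_card_basis b]
  let e : (K →+* ℂ_[p]) ≃ Module.Free.ChooseBasisIndex ℚ K := Fintype.equivOfCardEq hcard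
  let M : Matrix (K →+* ℂ_[p]) (K →+* ℂ_[p]) ℂ_[p] := Matrix.of fun φ j => φ (b (e j))
  have hM : IsUnit M := by
    rw [← Matrix.linearIndependent_rows_iff_isUnit]
    rw [Fintype.linearIndependent_iff]
    intro c hc
    have hli := linearIndependent_monoidHom K ℂ_[p]
    have h1 : ∀ y : K, ∑ φ : K →+* ℂ_[p], c φ * φ y = 0 := by
      intro y
      have h2 : ∀ j, ∑ φ : K →+* ℂ_[p], c φ * φ (b (e j)) = 0 := by
        intro j
        have := congrFun hc j
        simpa [Matrix.row, M] using this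
      rw [← b.sum_repr y]
      simp only [map_sum, Finset.mul_sum]
      rw [Finset.sum_comm]
      refine Finset.sum_eq_zero fun i _ => ?_
      have h3 : ∀ φ : K →+* ℂ_[p], c φ * φ ((b.repr y) i • b i) =
          ((b.repr y i : ℚ) : ℂ_[p]) * (c φ * φ (b i)) := by
        intro φ
        rw [Algebra.smul_def, map_mul]
        have : φ (algebraMap ℚ K (b.repr y i)) = ((b.repr y i : ℚ) : ℂ_[p]) := by
          rw [eq_ratCast, map_ratCast]
        rw [this]; ring
      simp only [h3]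
      rw [← Finset.mul_sum]
      have := h2 (e.symm i)
      rw [Equiv.apply_symm_apply] at this
      rw [this, mul_zero]
    have hli2 : LinearIndependent ℂ_[p] (fun φ : K →+* ℂ_[p] => ((φ : K →* ℂ_[p]) : K → ℂ_[p])) :=
      hli.comp (fun φ : K →+* ℂ_[p] => (φ : K →* ℂ_[p])) (fun a b h => by
        ext x; exact DFunLike.congr_fun h x)
    rw [Fintype.linearIndependent_iff] at hli2
    apply hli2
    funext y
    simpa using h1 y
  -- coordinates of `x`
  have hx2 : ∀ φ : K →+* ℂ_[p], ∑ i, algebraMap ℚ_[p] ℂ_[p] (B.repr x i) * φ (b i) = 0 := by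
    intro φ
    have h1 := congrFun hx φ
    rw [Ev_apply, Pi.zero_apply] at h1
    rw [← h1]
    conv_rhs => rw [← B.sum_repr x]
    rw [map_sum]
    refine Finset.sum_congr rfl fun i _ => ?_
    rw [map_smul, Algebra.smul_def]
    congr 1
    rw [Algebra.TensorProduct.basis_apply, ev_tmul, map_one, one_mul]
  have hv : M.mulVec (fun j => algebraMap ℚ_[p] ℂ_[p] (B.repr x (e j))) = 0 := by
    funext φ
    rw [Matrix.mulVec, Pi.zero_apply, ← hx2 φ, dotProduct, ← e.sum_comp]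
    refine Finset.sum_congr rfl fun j _ => ?_
    rw [mul_comm]
    rfl
  have hinj := Matrix.mulVec_injective_iff_isUnit.2 hM
  have h0 := hinj (hv.trans (Matrix.mulVec_zero M).symm)
  apply B.repr.injective
  ext i
  rw [map_zero, Finsupp.zero_apply]
  have := congrFun h0 (e.symm i)
  rw [Equiv.apply_symm_apply, Pi.zero_apply] at this
  exact (map_eq_zero_iff _ (algebraMap ℚ_[p] ℂ_[p]).injective).1 this

theorem continuous_Ev : Continuous (Ev : ℚ_[p] ⊗[ℚ] K → ((K →+* ℂ_[p]) → ℂ_[p])) :=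
  continuous_pi fun φ => continuous_ev φ

instance : T2Space (ℚ_[p] ⊗[ℚ] K) := T2Space.of_injective_continuous Ev_injective continuous_Ev

end Pool.Agent.Work.MP_7de521_nt.Padic
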