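import Pool.Agent.Work.MP_7de521_nt.KeyAlg
import Pool.Agent.Work.MP_7de521_nt.ClosedSubgroup

/-!
Archimedean part: sizes of the conjugates of `H e`.
-/

open NumberField Filter Topology

namespace Pool.Agent.Work.MP_7de521_nt

namespace Setup

variable {K : Type} [Field K] [NumberField K] (D : Setup K)

/-- `w s = log |φ (u s 0)|`. -/
noncomputable def w (s : Fin 3) : ℝ := Real.log ‖D.φ (D.u s 0)‖

lemma φ_a (s : Fin 3) : D.φ (a s) = (((s : ℕ) : ℝ) + 1 : ℝ) := by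
  unfold a
  simp

lemma norm_φ_ne (x : Kˣ) : ‖D.φ (x : K)‖ ≠ 0 := by
  rw [norm_ne_zero_iff]
  exact (map_ne_zero D.φ).2 x.ne_zero

lemma norm_u_other (s k : Fin 3) (hk : k ≠ 0) : ‖D.φ (D.u s k)‖ = 1 := by
  rw [u_val, map_div₀, map_add, map_sub, φ_a, D.r'_eq k hk, norm_div]
  have h : ‖((((s : ℕ) : ℝ) + 1 : ℝ) : ℂ) + (D.r' k : ℂ) * Complex.I‖ =
      ‖((((s : ℕ) : ℝ) + 1 : ℝ) : ℂ) - (D.r' k : ℂ) * Complex.I‖ := by
    rw [← Complex.norm_conj]
    congr 1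
    simp [sub_eq_add_neg]
  rw [h, div_self]
  intro h0
  rw [norm_eq_zero] at h0
  have := congrArg Complex.re h0
  simp at this
  have hpos : (0 : ℝ) < ((s : ℕ) : ℝ) + 1 := by positivity
  linarith

/-- The logarithm of the norm of `φ x`, additive. -/
lemma log_mul (x y : Kˣ) : Real.log ‖D.φ ((x * y : Kˣ) : K)‖ =
    Real.log ‖D.φ (x : K)‖ + Real.log ‖D.φ (y : K)‖ := by
  rw [Units.val_mul, map_mul, norm_mul, Real.log_mul (D.norm_φ_ne x) (D.norm_φ_ne y)]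

/-- The logarithm of the norm, as a homomorphism. -/
noncomputable def logHom : Additive Kˣ →+ ℝ where
  toFun x := Real.log ‖D.φ ((Additive.toMul x : Kˣ) : K)‖
  map_zero' := by simp
  map_add' x y := D.log_mul _ _

lemma log_prod {ι : Type*} (t : Finset ι) (f : ι → Kˣ) :
    Real.log ‖D.φ ((∏ i ∈ t, f i : Kˣ) : K)‖ = ∑ i ∈ t, Real.log ‖D.φ (f i : K)‖ := by
  classical
  induction t using Finset.induction_on with
  | empty => simp
  | insert i t hi ih => rw [Finset.prod_insert hi, Finset.sum_insert hi, log_mul, ih]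

lemma log_zpow (x : Kˣ) (n : ℤ) :
    Real.log ‖D.φ ((x ^ n : Kˣ) : K)‖ = n * Real.log ‖D.φ (x : K)‖ := by
  rw [Units.val_zpow_eq_zpow_val, map_zpow₀, norm_zpow, Real.log_zpow]

/-- The vector `wᵀ e`. -/
noncomputable def W (e : Matrix (Fin 3) (Fin 3) ℤ) (k : Fin 3) : ℝ := ∑ s, (e s k : ℝ) * D.w s

lemma log_H (e : Matrix (Fin 3) (Fin 3) ℤ) : Real.log ‖D.φ (D.H e : K)‖ = D.W e 0 := by
  rw [H, log_prod, W]
  refine Finset.sum_congr rfl fun s _ => ?_
  rw [log_prod, Finset.sum_eq_single 0]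
  · rw [log_zpow, w]
  · intro k _ hk
    rw [log_zpow, D.norm_u_other s k hk, Real.log_one, mul_zero]
  · intro h; exact absurd (Finset.mem_univ _) h

lemma log_gal_H (g : K ≃ₐ[ℚ] K) (e : Matrix (Fin 3) (Fin 3) ℤ) :
    Real.log ‖D.φ (g (D.H e : K))‖ = ∑ k, D.W e k * (D.P g k 0 : ℝ) := by
  rw [← gal_val, gal_H, log_H]
  simp only [W, Matrix.mul_apply]
  push_cast
  simp only [Finset.sum_mul]
  rw [Finset.sum_comm]
  refine Finset.sum_congr rfl fun k _ => Finset.sum_congr rfl fun s _ => ?_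
  ring

/-- For each `k`, a Galois element `g` with `log |φ (g (H e))| = ± W e k`. -/
lemma exists_log_eq (k : Fin 3) : ∃ (g : K ≃ₐ[ℚ] K) (ε : ℝ), ε * ε = 1 ∧
    ∀ e, Real.log ‖D.φ (g (D.H e : K))‖ = ε * D.W e k := by
  obtain ⟨g, hg⟩ := D.trans k
  have hother : ∀ s j, j ≠ k → Real.log ‖D.φ (gal g (D.u s j) : Kˣ)‖ = 0 := by
    intro s j hj
    obtain ⟨i, hi⟩ := D.perm g j
    have hi0 : i ≠ 0 := by
      rintro rfl
      apply hj
      apply D.sq_inj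
      apply g.injective
      rw [map_pow, map_pow]
      rcases hg with hg | hg <;> rcases hi with hi | hi <;> rw [hg, hi] <;> ring
    rcases hi with hi | hi
    · rw [D.gal_u_pos g s j i hi, D.norm_u_other s i hi0, Real.log_one]
    · rw [D.gal_u_neg g s j i hi, Units.val_inv_eq_inv_val, map_inv₀, norm_inv,
        D.norm_u_other s i hi0, inv_one, Real.log_one]
  have hmain : ∀ ε : ℝ, (∀ s, Real.log ‖D.φ (gal g (D.u s k) : Kˣ)‖ = ε * D.w s) →
      ∀ e, Real.log ‖D.φ (g (D.H e : K))‖ = ε * D.W e k := by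
    intro ε hε e
    rw [← gal_val, H, map_prod, log_prod, W, Finset.mul_sum]
    refine Finset.sum_congr rfl fun s _ => ?_
    rw [map_prod, log_prod, Finset.sum_eq_single k]
    · rw [map_zpow, log_zpow, hε]
      ring
    · intro j _ hj
      rw [map_zpow, log_zpow, hother s j hj, mul_zero]
    · intro h; exact absurd (Finset.mem_univ _) h
  rcases hg with hg | hg
  · refine ⟨g, 1, by norm_num, hmain 1 fun s => ?_⟩
    rw [D.gal_u_pos g s k 0 hg, one_mul, w]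
  · refine ⟨g, -1, by norm_num, hmain (-1) fun s => ?_⟩
    rw [D.gal_u_neg g s k 0 hg, Units.val_inv_eq_inv_val, map_inv₀, norm_inv, Real.log_inv, w]
    ring

/-- The `w s` are linearly independent over `ℚ`. -/
lemma w_indep (n : Fin 3 → ℤ) (h : ∑ s, (n s : ℝ) * D.w s = 0) : n = 0 := by
  have h1 : Real.log ‖D.φ ((∏ s, D.u s 0 ^ n s : Kˣ) : K)‖ = 0 := by
    rw [log_prod, ← h]
    exact Finset.sum_congr rfl fun s _ => by rw [log_zpow, w]
  have hreal : ∀ s, ∃ q : ℝ, D.φ (D.u s 0) = (q : ℂ) := by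
    intro s
    refine ⟨((((s : ℕ) : ℝ) + 1) + D.r) / ((((s : ℕ) : ℝ) + 1) - D.r), ?_⟩
    rw [u_val, map_div₀, map_add, map_sub, φ_a, D.r_eq]
    push_cast
    ring
  choose q hq using hreal
  have h2 : D.φ ((∏ s, D.u s 0 ^ n s : Kˣ) : K) = ((∏ s, q s ^ n s : ℝ) : ℂ) := by
    rw [Units.coe_prod, map_prod]
    push_cast
    refine Finset.prod_congr rfl fun s _ => ?_
    rw [map_zpow₀, hq]
  have hpos : 0 < ‖D.φ ((∏ s, D.u s 0 ^ n s : Kˣ) : K)‖ :=
    lt_of_le_of_ne (norm_nonneg _) (D.norm_φ_ne _).symm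
  have h3 : ‖D.φ ((∏ s, D.u s 0 ^ n s : Kˣ) : K)‖ = 1 :=
    Real.eq_one_of_pos_of_log_eq_zero hpos h1
  rw [h2, Complex.norm_real, Real.norm_eq_abs] at h3
  have h4 : (∏ s, q s ^ n s) ^ 2 = 1 := by
    rw [← sq_abs, h3, one_pow]
  have h5 : D.φ (((∏ s, D.u s 0 ^ n s) ^ 2 : Kˣ) : K) = 1 := by
    rw [Units.val_pow_eq_pow_val, map_pow, h2]
    exact_mod_cast h4
  have h6 : (∏ s, D.u s 0 ^ n s) ^ 2 = 1 := by
    ext
    apply D.φ.injective
    rw [h5, Units.val_one, map_one]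
  have h7 : ∏ s, D.u s 0 ^ (n s * 2) = 1 := by
    rw [← h6, ← Finset.prod_pow]
    refine Finset.prod_congr rfl fun s _ => ?_
    rw [zpow_mul]
    norm_cast
  have h8 := D.indep_zero _ h7
  funext s
  have := congrFun h8 s
  simpa using this

lemma w_ne (s : Fin 3) : D.w s ≠ 0 := by
  intro h
  have h1 := D.w_indep (Pi.single s 1) (by
    rw [Finset.sum_eq_single s]
    · rw [h, mul_zero]
    · intro t _ ht
      rw [Pi.single_eq_of_ne ht]; simp
    · intro h; exact absurd (Finset.mem_univ _) h)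
  have := congrFun h1 s
  simp at this

/-- `wᵀ e w`. -/
noncomputable def Q (e : Matrix (Fin 3) (Fin 3) ℤ) : ℝ := ∑ k, D.w k * D.W e k

lemma Q_J (n : Fin 3 → ℤ) : D.Q (J n) = 0 := by
  simp [Q, W, J, Fin.sum_univ_three]
  ring

/-- The matrix unit `E 0 0`. -/
def E00 : Matrix (Fin 3) (Fin 3) ℤ := !![1, 0, 0; 0, 0, 0; 0, 0, 0]

lemma Q_E00 : D.Q E00 = D.w 0 * D.w 0 := by
  simp [Q, W, E00, Fin.sum_univ_three]

/-- Rounding of `t w`. -/
noncomputable def nt (t : ℕ) (s : Fin 3) : ℤ := round ((t : ℝ) * D.w s)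

lemma W_nt (t : ℕ) (k : Fin 3) : |D.W (J (D.nt t)) k| ≤ ∑ s, |D.w s| := by
  have hr : ∀ s, |((D.nt t s : ℤ) : ℝ) - t * D.w s| ≤ 1 / 2 := by
    intro s
    rw [abs_sub_comm]
    exact abs_sub_round _
  have key : ∀ i j : Fin 3, |D.w i * ((D.nt t j : ℤ) : ℝ) - D.w j * ((D.nt t i : ℤ) : ℝ)| ≤
      (|D.w i| + |D.w j|) := by
    intro i j
    have h1 : D.w i * ((D.nt t j : ℤ) : ℝ) - D.w j * ((D.nt t i : ℤ) : ℝ) =
        D.w i * (((D.nt t j : ℤ) : ℝ) - t * D.w j) -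
        D.w j * (((D.nt t i : ℤ) : ℝ) - t * D.w i) := by ring
    rw [h1]
    refine (abs_sub _ _).trans ?_
    rw [abs_mul, abs_mul]
    have hi := hr i
    have hj := hr j
    have h2 : |D.w i| * |((D.nt t j : ℤ) : ℝ) - t * D.w j| ≤ |D.w i| * 1 :=
      mul_le_mul_of_nonneg_left (hj.trans (by norm_num)) (abs_nonneg _)
    have h3 : |D.w j| * |((D.nt t i : ℤ) : ℝ) - t * D.w i| ≤ |D.w j| * 1 :=
      mul_le_mul_of_nonneg_left (hi.trans (by norm_num)) (abs_nonneg _)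
    linarith
  have h0 := abs_nonneg (D.w 0)
  have h1 := abs_nonneg (D.w 1)
  have h2 := abs_nonneg (D.w 2)
  rw [Fin.sum_univ_three]
  fin_cases k
  · have := key 1 2
    have h : D.W (J (D.nt t)) 0 =
      D.w 1 * ((D.nt t 2 : ℤ) : ℝ) - D.w 2 * ((D.nt t 1 : ℤ) : ℝ) := by
      simp [W, J, Fin.sum_univ_three]; ring
    change |D.W (J (D.nt t)) 0| ≤ _
    rw [h]; linarith
  · have := key 2 0
    have h : D.W (J (D.nt t)) 1 =
      D.w 2 * ((D.nt t 0 : ℤ) : ℝ) - D.w 0 * ((D.nt t 2 : ℤ) : ℝ) := by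
      simp [W, J, Fin.sum_univ_three]; ring
    change |D.W (J (D.nt t)) 1| ≤ _
    rw [h]; linarith
  · have := key 0 1
    have h : D.W (J (D.nt t)) 2 =
      D.w 0 * ((D.nt t 1 : ℤ) : ℝ) - D.w 1 * ((D.nt t 0 : ℤ) : ℝ) := by
      simp [W, J, Fin.sum_univ_three]; ring
    change |D.W (J (D.nt t)) 2| ≤ _
    rw [h]; linarith

end Setup

end Pool.Agent.Work.MP_7de521_nt
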